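import Pool.Agent.Helper9.CC.Lin

/-! Polynomial families of operators (module POLY). -/

namespace CC
open Finset Polynomial

theorem PF.mono {d d' : ℕ} (h : d ≤ d') {A : ℂ → M →ₗ[ℂ] M} (hA : PF d A) : PF d' A := by
  obtain ⟨c, hc⟩ := hA
  refine ⟨fun k => if k < d + 1 then c k else 0, fun z => ?_⟩
  rw [hc z]
  rw [← Finset.sum_subset (Finset.range_subset_range.2 (Nat.succ_le_succ h))]
  · refine Finset.sum_congr rfl fun k hk => ?_
    have : k < d + 1 := Finset.mem_range.1 hk
    simp only [if_pos this]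
  · intro k _ hk
    have : ¬ k < d + 1 := fun h' => hk (Finset.mem_range.2 h')
    simp only [if_neg this, smul_zero]

theorem PF.comp {d d' : ℕ} {A B : ℂ → M →ₗ[ℂ] M} (hA : PF d A) (hB : PF d' B) :
    PF (d + d') (fun z => A z ∘ₗ B z) := by
  obtain ⟨c, hc⟩ := hA
  obtain ⟨e, he⟩ := hB
  refine ⟨fun k => ∑ i ∈ range (d + 1), if i ≤ k ∧ k - i ≤ d' then c i ∘ₗ e (k - i) else 0,
    fun z => ?_⟩
  simp only [Finset.smul_sum]
  rw [Finset.sum_comm]
  show A z ∘ₗ B z = _
  have e0 : A z ∘ₗ B z = ∑ i ∈ range (d + 1), ∑ j ∈ range (d' + 1),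
      (z ^ i • c i) ∘ₗ (z ^ j • e j) := by
    rw [hc z, he z]
    refine LinearMap.ext fun x => ?_
    simp only [LinearMap.comp_apply, LinearMap.sum_apply, LinearMap.smul_apply, map_sum]
    exact Finset.sum_comm
  rw [e0]
  refine Finset.sum_congr rfl fun i hi => ?_
  simp only [smul_ite, smul_zero]
  rw [← Finset.sum_filter]
  have hi' := Finset.mem_range.1 hi
  refine Finset.sum_bij (fun j _ => i + j) ?_ ?_ ?_ ?_
  · intro j hj
    have := Finset.mem_range.1 hj
    simp only [Finset.mem_filter, Finset.mem_range]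
    omega
  · intro j _ k _ h
    simpa using h
  · intro k hk
    simp only [Finset.mem_filter, Finset.mem_range] at hk
    exact ⟨k - i, Finset.mem_range.2 (by omega), by omega⟩
  · intro j _
    rw [Nat.add_sub_cancel_left, LinearMap.comp_smul, LinearMap.smul_comp, smul_smul, pow_add,
      mul_comm]

theorem PF.add {d : ℕ} {A B : ℂ → M →ₗ[ℂ] M} (hA : PF d A) (hB : PF d B) :
    PF d (fun z => A z + B z) := by
  obtain ⟨c, hc⟩ := hA
  obtain ⟨e, he⟩ := hB
  refine ⟨fun k => c k + e k, fun z => ?_⟩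
  simp only [smul_add, Finset.sum_add_distrib]
  rw [hc z, he z]

theorem PF.const (A : M →ₗ[ℂ] M) : PF 0 (fun _ => A) :=
  ⟨fun _ => A, fun z => by simp⟩

/-- multiplication by a polynomial -/
theorem PF.smul {d : ℕ} {A : ℂ → M →ₗ[ℂ] M} (hA : PF d A) (P : Polynomial ℂ) {e : ℕ}
    (he : P.natDegree ≤ e) : PF (e + d) (fun z => P.eval z • A z) := by
  have h : PF e (fun z => P.eval z • (LinearMap.id : M →ₗ[ℂ] M)) := by
    refine ⟨fun k => P.coeff k • LinearMap.id, fun z => ?_⟩
    show P.eval z • (LinearMap.id : M →ₗ[ℂ] M) = _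
    rw [Polynomial.eval_eq_sum_range' (Nat.lt_succ_of_le he), Finset.sum_smul]
    refine Finset.sum_congr rfl fun k _ => ?_
    rw [smul_smul, mul_comm]
  have := h.comp hA
  simpa [LinearMap.smul_comp] using this

/-- substitution `z ↦ c z` -/
theorem PF.scale {d : ℕ} {A : ℂ → M →ₗ[ℂ] M} (hA : PF d A) (c : ℂ) : PF d (fun z => A (c * z)) := by
  obtain ⟨a, ha⟩ := hA
  refine ⟨fun k => c ^ k • a k, fun z => ?_⟩
  show A (c * z) = _
  rw [ha]
  refine Finset.sum_congr rfl fun k _ => ?_
  rw [smul_smul, mul_pow, mul_comm]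

theorem PF.lin {C : ℂ → M →ₗ[ℂ] M} (A B : M →ₗ[ℂ] M) (h : ∀ z, C z = A + z • B) : PF 1 C := by
  refine ⟨fun k => if k = 0 then A else B, fun z => ?_⟩
  rw [h, Finset.sum_range_succ, Finset.sum_range_one]
  simp

theorem PF_row1 (o k : ℕ) : PF k (fun z => row o w z k) := by
  induction k with
  | zero => exact PF.const _
  | succ k ih =>
    refine ih.comp (PF.lin (-((1 - w) * w) • LinearMap.id + w • E (o + k))
      (w • LinearMap.id - E (o + k)) fun z => ?_)
    rw [R]
    module

theorem PF_row0 (o k : ℕ) : PF k (fun z => row o (w * z) 1 k) := by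
  induction k with
  | zero => exact PF.const _
  | succ k ih =>
    refine ih.comp (PF.lin (w • LinearMap.id - E (o + k))
      (-((1 - w) * w) • LinearMap.id + w • E (o + k)) fun z => ?_)
    rw [R]
    module

theorem PF_T (L : ℕ) : PF (2 * L + 2) (T L) := by
  have h1 : PF 1 (fun z => KL 0 z) :=
    PF.lin (-(2 - w) • LinearMap.id + E 0) ((1 + w) • LinearMap.id - E 0) fun z => by
      rw [KL]; module
  have h2 : PF 1 (fun z => KR L z) :=
    PF.lin ((1 + w) • LinearMap.id - E L) (-(2 - w) • LinearMap.id + E L) fun z => by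
      rw [KR]; module
  have := (PF.const D).comp (h1.comp ((PF_row1 1 L).comp ((PF_row0 0 L).comp h2)))
  exact this.mono (by omega)

/-- a linear functional of a polynomial family is a polynomial -/
theorem PF.poly {d : ℕ} {A : ℂ → M →ₗ[ℂ] M} (hA : PF d A) (φ : M →ₗ[ℂ] ℂ) (x : M) :
    ∃ P : Polynomial ℂ, P.natDegree ≤ d ∧ ∀ z, φ (A z x) = P.eval z := by
  obtain ⟨c, hc⟩ := hA
  refine ⟨∑ k ∈ range (d + 1), Polynomial.C (φ (c k x)) * X ^ k, ?_, fun z => ?_⟩
  · refine Polynomial.natDegree_sum_le_of_forall_le _ _ fun k hk => ?_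
    exact (Polynomial.natDegree_C_mul_X_pow_le _ _).trans (Nat.lt_succ_iff.1 (Finset.mem_range.1 hk))
  · rw [hc z, LinearMap.sum_apply, map_sum, Polynomial.eval_finsetSum]
    refine Finset.sum_congr rfl fun k _ => ?_
    rw [LinearMap.smul_apply, map_smul, smul_eq_mul, Polynomial.eval_mul, Polynomial.eval_C,
      Polynomial.eval_pow, Polynomial.eval_X, mul_comm]

/-- pointwise limits of polynomials of bounded degree, divisible by a fixed polynomial -/
theorem poly_limit (d : ℕ) (P : ℕ → Polynomial ℂ) (hP : ∀ N, (P N).natDegree ≤ d) (S : Set ℂ)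
    (hS : S.Finite) (f : ℂ → ℂ)
    (h : ∀ z, z ∉ S → Filter.Tendsto (fun N => (P N).eval z) Filter.atTop (nhds (f z))) :
    ∃ G : Polynomial ℂ, G.natDegree ≤ d ∧ (∀ z, z ∉ S → G.eval z = f z) ∧
      (∀ z, Filter.Tendsto (fun N => (P N).eval z) Filter.atTop (nhds (G.eval z))) ∧
      ∀ Q : Polynomial ℂ, (∀ N, Q ∣ P N) → Q ∣ G := by
  obtain ⟨t, ht, hc⟩ := hS.infinite_compl.exists_subset_card_eq (d + 1)
  have hP' : ∀ N, P N = ∑ i ∈ t, (P N).eval i • Lagrange.basis t id i := by
    intro N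
    have := Lagrange.eq_interpolate (f := P N) (v := id) (s := t) (Set.injOn_id _)
      (by rw [hc]; exact lt_of_le_of_lt Polynomial.degree_le_natDegree
            (by exact_mod_cast Nat.lt_succ_of_le (hP N)))
    conv_lhs => rw [this]
    rw [Lagrange.interpolate_apply]
    refine Finset.sum_congr rfl fun i _ => ?_
    rw [Polynomial.smul_eq_C_mul]
    rfl
  set G : Polynomial ℂ := ∑ i ∈ t, f i • Lagrange.basis t id i with hG
  have key : ∀ ψ : Polynomial ℂ →ₗ[ℂ] ℂ,
      Filter.Tendsto (fun N => ψ (P N)) Filter.atTop (nhds (ψ G)) := by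
    intro ψ
    have e : (fun N => ψ (P N)) = fun N => ∑ i ∈ t, (P N).eval i * ψ (Lagrange.basis t id i) := by
      funext N
      conv_lhs => rw [hP' N]
      rw [map_sum]
      refine Finset.sum_congr rfl fun i _ => ?_
      rw [map_smul, smul_eq_mul]
    rw [e, hG, map_sum]
    refine tendsto_finsetSum _ fun i hi => ?_
    rw [map_smul, smul_eq_mul]
    exact (h i (ht hi)).mul_const _
  have key1 : ∀ z, Filter.Tendsto (fun N => (P N).eval z) Filter.atTop (nhds (G.eval z)) :=
    fun z => key (Polynomial.leval z)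
  refine ⟨G, ?_, fun z hz => tendsto_nhds_unique (key1 z) (h z hz), key1, fun Q hQ => ?_⟩
  · refine Polynomial.natDegree_sum_le_of_forall_le _ _ fun i hi => ?_
    refine (Polynomial.natDegree_smul_le _ _).trans ?_
    rw [Polynomial.natDegree_le_iff_degree_le, Lagrange.degree_basis (Set.injOn_id _) hi, hc]
    simp
  · rcases eq_or_ne Q 0 with rfl | hQ0
    · have h0 : ∀ N, P N = 0 := fun N => zero_dvd_iff.1 (hQ N)
      have hG0 : ∀ z, G.eval z = 0 := fun z => by
        refine tendsto_nhds_unique (key1 z) ?_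
        simp only [h0, Polynomial.eval_zero]
        exact tendsto_const_nhds
      rw [show G = 0 from Polynomial.funext (by simpa using hG0)]
    · set Q' := Q * Polynomial.C (Q.leadingCoeff)⁻¹ with hQ'
      have hm : Q'.Monic := Polynomial.monic_mul_leadingCoeff_inv hQ0
      have hu : Q' ∣ G ↔ Q ∣ G := by
        rw [hQ']
        have : IsUnit (Polynomial.C (Q.leadingCoeff)⁻¹) :=
          Polynomial.isUnit_C.2 (isUnit_iff_ne_zero.2 (inv_ne_zero (leadingCoeff_ne_zero.2 hQ0)))
        exact this.mul_right_dvd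
      have hu' : ∀ N, Q' ∣ P N := fun N => by
        rw [hQ']
        have : IsUnit (Polynomial.C (Q.leadingCoeff)⁻¹) :=
          Polynomial.isUnit_C.2 (isUnit_iff_ne_zero.2 (inv_ne_zero (leadingCoeff_ne_zero.2 hQ0)))
        exact this.mul_right_dvd.2 (hQ N)
      rw [← hu, ← Polynomial.modByMonic_eq_zero_iff_dvd hm]
      ext k
      rw [Polynomial.coeff_zero]
      have := key (Polynomial.lcoeff ℂ k ∘ₗ Polynomial.modByMonicHom Q')
      refine tendsto_nhds_unique this ?_
      have e : (fun N => (Polynomial.lcoeff ℂ k ∘ₗ Polynomial.modByMonicHom Q') (P N)) =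
          fun _ => 0 := by
        funext N
        rw [LinearMap.comp_apply, Polynomial.modByMonicHom_apply,
          (Polynomial.modByMonic_eq_zero_iff_dvd hm).2 (hu' N), map_zero]
      rw [e]
      exact tendsto_const_nhds

end CC
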