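import Pool.Agent.Helper9.CC.RR
import Pool.Agent.Helper9.CC.Poly

/-! Fusion, rows (module FUSA). -/

namespace CC

theorem fus1 (k : ℕ) (z : ℂ) (x : M) :
    R (k + 1) (-(w ^ 2 * z)) 1 (R k (w * z) 1 (E (k + 1) x)) =
      (w * (1 + z) * (w * z - 1)) • E k (E (k + 1) x) := by
  have hw := w_sq
  simp only [R_apply, map_add, map_smul, E_E, E_pred, smul_add, smul_smul]
  match_scalars <;> grind

theorem fus2 (k : ℕ) (z : ℂ) (x : M) :
    E k (R (k + 1) w (-(w * z)) (R k w z x)) =
      (w * (1 + z) * (w * z - 1)) • E k (E (k + 1) x) := by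
  have hw := w_sq
  simp only [R_apply, map_add, map_smul, E_E, E_succ, smul_add, smul_smul]
  match_scalars <;> grind

/-- with `F k = 1 - E k`: `F k (R R x) = (w - z) F k [w (1 + z) - (z + w ^ 2) E (k+1) E k] F (k+1) x` -/
theorem fus3 (k : ℕ) (z : ℂ) (x : M) :
    R (k + 1) (-(w ^ 2 * z)) 1 (R k (w * z) 1 x)
      - E k (R (k + 1) (-(w ^ 2 * z)) 1 (R k (w * z) 1 x)) =
    (w - z) • ((w * (1 + z)) • (x - E (k + 1) x)
        - (z + w ^ 2) • E (k + 1) (E k (x - E (k + 1) x))
      - E k ((w * (1 + z)) • (x - E (k + 1) x)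
        - (z + w ^ 2) • E (k + 1) (E k (x - E (k + 1) x)))) := by
  have hw := w_sq
  simp only [R_apply, map_add, map_sub, map_smul, E_E, E_succ, E_pred, smul_add, smul_smul]
  match_scalars <;> grind

/-- for `x` with `E (k+1) x = 0` -/
theorem fus4 (k : ℕ) (z : ℂ) (x : M) (hx : E (k + 1) x = 0) :
    R (k + 1) w (-(w * z)) (R k w z x) =
      (w - z) • ((w ^ 2 * (w * z - 1)) • x + (w ^ 2 * (w - z)) • E k x
        + (w * (1 + z)) • E (k + 1) (E k x)) := by
  have hw := w_sq
  simp only [R_apply, map_add, map_smul, smul_add, smul_smul, hx, smul_zero, add_zero]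
  match_scalars <;> grind

theorem fus4' (k : ℕ) (z : ℂ) (x : M) (hx : E (k + 1) x = 0) :
    E k ((w ^ 2 * (w * z - 1)) • x + (w ^ 2 * (w - z)) • E k x
        + (w * (1 + z)) • E (k + 1) (E k x)) = 0 := by
  have hw := w_sq
  have := hx
  simp only [map_add, map_smul, E_E, E_succ]
  match_scalars
  grind

theorem row_succ' (o k : ℕ) (p q : ℂ) (x : M) :
    row o p q (k + 1) x = R o p q (row (o + 1) p q k x) := by
  induction k generalizing x with
  | zero => rfl
  | succ k ih =>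
    rw [row_succ, ih, row_succ, show o + (k + 1) = o + 1 + k by ring]

theorem rr_succ (o k : ℕ) (p' q' p q : ℂ) (x : M) :
    row (o + 1) p' q' (k + 1) (row o p q (k + 1) x) =
      row (o + 1) p' q' k (row o p q k (R (o + k + 1) p' q' (R (o + k) p q x))) := by
  rw [row_row, row_row, prow]

theorem rr_succ' (o k : ℕ) (p' q' p q : ℂ) (x : M) :
    row (o + 1) p' q' (k + 1) (row o p q (k + 1) x) =
      R (o + 1) p' q' (R o p q (row (o + 1 + 1) p' q' k (row (o + 1) p q k x))) := by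
  rw [row_succ', row_succ', ← R_row_comm (o + 1 + 1) k p' q' p q (i := o) (by omega)]

theorem rows_E (o L : ℕ) (z : ℂ) (x : M) :
    row (o + 1) (-(w ^ 2 * z)) 1 L (row o (w * z) 1 L (E (o + L) x)) =
      (w * (1 + z) * (w * z - 1)) ^ L • Erow o (L + 1) x := by
  induction L generalizing x with
  | zero => simp [row_zero, Erow]
  | succ L ih =>
    rw [rr_succ, ← add_assoc, fus1, map_smul, map_smul, ih, smul_smul, Erow_succ o (L + 1),
      pow_succ', ← add_assoc]

theorem E_rows (o L : ℕ) (z : ℂ) (x : M) :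
    E o (row (o + 1) w (-(w * z)) L (row o w z L x)) =
      (w * (1 + z) * (w * z - 1)) ^ L • Erow o (L + 1) x := by
  induction L generalizing o with
  | zero => simp [row_zero, Erow]
  | succ L ih =>
    rw [rr_succ', fus2, ih, map_smul, smul_smul, ← Erow_succ', pow_succ']

theorem PF_lin {C : ℂ → M →ₗ[ℂ] M} (A B : M →ₗ[ℂ] M) (h : ∀ z, C z = A + z • B) : PF 1 C := by
  refine ⟨fun k => if k = 0 then A else B, fun z => ?_⟩
  rw [h, Finset.sum_range_succ, Finset.sum_range_one]
  simp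

theorem F_rows (o L : ℕ) : ∃ d A, PF d A ∧ ∀ z x,
    row (o + 1) (-(w ^ 2 * z)) 1 L (row o (w * z) 1 L x)
      - E o (row (o + 1) (-(w ^ 2 * z)) 1 L (row o (w * z) 1 L x)) = (w - z) ^ L • A z x := by
  induction L generalizing o with
  | zero =>
    refine ⟨0, fun _ => LinearMap.id - E o, PF.const _, fun z x => ?_⟩
    simp [row_zero]
  | succ L ih =>
    obtain ⟨d, A, hA, h⟩ := ih (o + 1)
    have h1 : PF 1 (fun z => (w * (1 + z)) • (LinearMap.id - E o) -
        (z + w ^ 2) • ((LinearMap.id - E o) ∘ₗ E (o + 1) ∘ₗ E o)) := by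
      refine PF_lin (w • (LinearMap.id - E o) -
        (w ^ 2) • ((LinearMap.id - E o) ∘ₗ E (o + 1) ∘ₗ E o)) (w • (LinearMap.id - E o) -
        ((LinearMap.id - E o) ∘ₗ E (o + 1) ∘ₗ E o)) (fun z => ?_)
      module
    refine ⟨1 + d, _, h1.comp hA, fun z x => ?_⟩
    rw [rr_succ', fus3, h z x]
    simp only [LinearMap.comp_apply, LinearMap.sub_apply, LinearMap.smul_apply, map_smul,
      map_sub, LinearMap.id_apply, smul_sub, smul_smul]
    match_scalars <;> ring

theorem rows_F (o L : ℕ) : ∃ d B, PF d B ∧ ∀ z x, E (o + L) x = 0 →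
    row (o + 1) w (-(w * z)) L (row o w z L x) = (w - z) ^ L • B z x := by
  induction L with
  | zero =>
    refine ⟨0, fun _ => LinearMap.id, PF.const _, fun z x _ => ?_⟩
    simp [row_zero]
  | succ L ih =>
    obtain ⟨d, B, hB, h⟩ := ih
    have h1 : PF 1 (fun z => (w ^ 2 * (w * z - 1)) • LinearMap.id + (w ^ 2 * (w - z)) • E (o + L)
        + (w * (1 + z)) • (E (o + L + 1) ∘ₗ E (o + L))) := by
      refine PF_lin ((-w ^ 2) • LinearMap.id + (w ^ 3) • E (o + L) +
          w • (E (o + L + 1) ∘ₗ E (o + L))) ((w ^ 3) • LinearMap.id - (w ^ 2) • E (o + L) +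
          w • (E (o + L + 1) ∘ₗ E (o + L))) (fun z => ?_)
      module
    refine ⟨d + 1, _, hB.comp h1, fun z x hx => ?_⟩
    rw [← add_assoc] at hx
    rw [rr_succ, fus4 _ _ _ hx, map_smul, map_smul, h z _ (fus4' _ _ _ hx), smul_smul,
      pow_succ' (w - z) L]
    rfl

end CC
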