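import Pool.Agent.Helper9.CC.Comm
import Pool.Agent.Helper9.CC.FusA

/-! Fusion: the functional relation (module FUSB). -/

namespace CC

/-- the scalar of `R 1 1 (z z') R 1 (z z') 1` at `z' = - w z` -/
noncomputable def ss (z : ℂ) : ℂ := w ^ 2 * (1 - z ^ 2) * (w + z ^ 2)

theorem R_scale (i : ℕ) (c p q : ℂ) (x : M) : R i (c * p) (c * q) x = c • R i p q x := by
  simp only [R_apply]
  module

theorem Erow_E_comm (o k : ℕ) {j : ℕ} (h : o + k + 1 ≤ j) (x : M) :
    Erow o k (E j x) = E j (Erow o k x) := by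
  induction k generalizing x with
  | zero => rfl
  | succ k ih =>
    rw [Erow_succ, Erow_succ, ← ih (by omega), E_comm (by omega)]

theorem E_Erow_comm (o k : ℕ) {i : ℕ} (h : i + 2 ≤ o) (x : M) :
    E i (Erow o k x) = Erow o k (E i x) := by
  induction k generalizing x with
  | zero => rfl
  | succ k ih => rw [Erow_succ, Erow_succ, ih, E_comm (by omega)]

theorem D_Erow (o k : ℕ) (x : M) : D (Erow (o + 2) k x) = Erow o k (D x) := by
  induction k generalizing x with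
  | zero => rfl
  | succ k ih =>
    rw [Erow_succ, Erow_succ, ih, show o + 2 + k = o + k + 2 by ring, D_E]

/-- the left part -/
noncomputable def Lam (z : ℂ) : M →ₗ[ℂ] M :=
  D ∘ₗ D ∘ₗ KL 2 (-(w * z)) ∘ₗ KL 0 z ∘ₗ R 1 1 (z * -(w * z))
/-- upper pair of rows -/
noncomputable def Pu (L : ℕ) (z : ℂ) : M →ₗ[ℂ] M := row 3 w (-(w * z)) L ∘ₗ row 2 w z L
/-- lower pair of rows -/
noncomputable def Pd (L : ℕ) (z : ℂ) : M →ₗ[ℂ] M := row 1 (-(w ^ 2 * z)) 1 L ∘ₗ row 0 (w * z) 1 L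
/-- the right part -/
noncomputable def YY (L : ℕ) (z : ℂ) : M →ₗ[ℂ] M :=
  R (L + 1) (z * -(w * z)) 1 ∘ₗ KR (L + 2) (-(w * z)) ∘ₗ KR L z

theorem fusB1 (L : ℕ) (z : ℂ) (x : M) :
    ss z • T L (-(w * z)) (T L z x) = Lam z (Pu L z (Pd L z (YY L z x))) := by
  have hw := w_sq
  have key : ∀ y : M, ss z • y = R 1 1 (z * -(w * z)) (R 1 (z * -(w * z)) 1 y) := by
    intro y
    rw [R_inv]
    congr 1
    unfold ss
    grind
  have ex : ∀ u : M, R 1 (z * -(w * z)) 1 (row 2 (w * -(w * z)) 1 L (row 1 w z L u)) =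
      row 2 w z L (row 1 (w * -(w * z)) 1 L (R (L + 1) (z * -(w * z)) 1 u)) := by
    intro u
    have h := row_exchange 1 L (w * -(w * z)) 1 w z u
    rw [show w * -(w * z) * z = w * (z * -(w * z)) by ring, show (1:ℂ) * w = w * 1 by ring,
      R_scale, R_scale, map_smul, map_smul, add_comm 1 L] at h
    exact smul_right_injective _ w_ne_zero h
  rw [T_T, ← map_smul, ← map_smul, ← map_smul, ← map_smul, key,
    R_row_comm 3 L _ _ _ _ (by norm_num), ex, ← row_R_comm 0 L _ _ _ _ (by omega)]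
  simp only [Lam, Pu, Pd, YY, LinearMap.comp_apply]
  rw [show w * -(w * z) = -(w ^ 2 * z) by ring]

/-- scalar of the left part -/
noncomputable def kL (z : ℂ) : ℂ :=
  (1 + w * z) * ((w * (z * -(w * z)) - (1 - w)) * (w * z - (1 - w)) + (1 - z * -(w * z)) * (1 - z))

theorem fusB2 (z : ℂ) (u : M) : Lam z (E 0 u) = kL z • D (D (E 0 (E 2 u))) := by
  have hw := w_sq
  simp only [Lam, kL, LinearMap.comp_apply, KL_apply, R_apply, map_add, map_smul, E_E, E_succ,
    smul_add, DDE10, DDE21, E_comm (show 0 + 2 ≤ 2 by norm_num)]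
  match_scalars <;> grind

/-- scalar of the right part -/
noncomputable def kR (z : ℂ) : ℂ :=
  (w - (1 - w) * (z * -(w * z))) * (z - 1) * ((1 + w) - (2 - w) * (-(w * z)) - w * z - 1) +
    (z * -(w * z) - 1) * (-(w * z) - 1) * (z - 1)

theorem fusB3 (L : ℕ) (z : ℂ) {x : M} (hx : x ∈ Rs L) :
    E (L + 2) (YY L z x) = kR z • E L (E (L + 2) x) := by
  have hw := w_sq
  obtain ⟨h1, h2, -⟩ := hx
  have e1 : E (L + 1) (E L x) = E (L + 1) x := h1 L le_rfl
  have e2 : E (L + 2) (E (L + 1) x) = E (L + 2) x := h1 (L + 1) (by omega)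
  have e3 : ∀ y : M, E (L + 2) (E (L + 1) (E (L + 2) y)) = E (L + 2) y := fun y => E_pred (L + 1) y
  have e4 : ∀ y : M, E (L + 2) (E L y) = E L (E (L + 2) y) := fun y => (E_comm le_rfl y).symm
  have e5 : E (L + 2) (E (L + 1) (E L (E (L + 2) x))) = E L (E (L + 2) x) := by
    rw [← e4, e3]
  simp only [YY, kR, LinearMap.comp_apply, KR_apply, R_apply, map_add, map_smul, E_E,
    smul_add, e1, e2, e3, e4, e5]
  match_scalars <;> grind

theorem fusB4 (z : ℂ) : kL z * kR z = ss z * ((w * z - (1 - w)) * (w - (1 - w) * z)) *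
    ((w * -(w * z) - (1 - w)) * (w - (1 - w) * -(w * z))) := by
  have hw := w_sq
  unfold kL kR ss
  grind

theorem fusB5 (L : ℕ) (z : ℂ) : (w * (1 + z) * (w * z - 1)) ^ L * (w * (1 + z) * (w * z - 1)) ^ L
    * (kL z * kR z) = ss z * nT L z * nT L (-(w * z)) := by
  have hw := w_sq
  rw [fusB4]
  unfold nT
  have h : (w * (1 + z) * (w * z - 1)) ^ L * (w * (1 + z) * (w * z - 1)) ^ L =
      (w ^ 2 * (1 + z)) ^ (2 * L) * (w ^ 2 * (1 + -(w * z))) ^ (2 * L) := by
    rw [← mul_pow, pow_mul, pow_mul, ← mul_pow]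
    congr 1
    grind
  rw [h]
  ring

theorem fusB6 (L : ℕ) (z : ℂ) {x : M} (hx : x ∈ Rs L) :
    Lam z (E 2 (Pu L z (Pd L z (YY L z x)))) = (ss z * nT L z * nT L (-(w * z))) • x := by
  have h0 := hx.2.2 L le_rfl
  have a1 : E (2 + L) (Pd L z (YY L z x)) =
      ((w * (1 + z) * (w * z - 1)) ^ L * kR z) • E (2 + L) (Erow 0 (L + 1) x) := by
    have := rows_E 0 L z (E (L + 2) x)
    simp only [zero_add] at this
    rw [Pd, LinearMap.comp_apply, ← row_E_comm 1 L _ _ (by omega), ← row_E_comm 0 L _ _ (by omega),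
      add_comm 2 L, fusB3 L z hx, map_smul, map_smul, this, Erow_E_comm 0 (L + 1) (by omega),
      smul_smul, mul_comm]
  have a2 : D (D (Erow 2 (L + 1) (Erow 0 (L + 1) x))) = x := by
    rw [D_Erow 0, h0, h0]
  have a3 : Lam z (Erow 2 (L + 1) (Erow 0 (L + 1) x)) = kL z • x := by
    rw [Erow_succ' 0 L, ← E_Erow_comm 2 (L + 1) (by norm_num), fusB2, Erow_succ' 2 L, E_E,
      ← Erow_succ' 2 L, E_Erow_comm 2 (L + 1) (by norm_num), ← Erow_succ' 0 L, a2]
  rw [Pu, LinearMap.comp_apply, E_rows, Erow_succ, a1, map_smul, map_smul, map_smul, ← Erow_succ,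
    a3, smul_smul, smul_smul, ← fusB5]
  congr 1
  ring

theorem PF_quad {C : ℂ → M →ₗ[ℂ] M} (A B B' : M →ₗ[ℂ] M)
    (h : ∀ z, C z = A + z • B + z ^ 2 • B') : PF 2 C := by
  refine ⟨fun k => if k = 0 then A else if k = 1 then B else B', fun z => ?_⟩
  rw [h, Finset.sum_range_succ, Finset.sum_range_succ, Finset.sum_range_one]
  simp

theorem PF_KL (j : ℕ) : PF 1 (fun z => KL j z) := by
  refine PF_lin (-(2 - w) • LinearMap.id + E j) ((1 + w) • LinearMap.id - E j) fun z => ?_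
  rw [KL]
  module

theorem PF_KR (j : ℕ) : PF 1 (fun z => KR j z) := by
  refine PF_lin ((1 + w) • LinearMap.id - E j) (-(2 - w) • LinearMap.id + E j) fun z => ?_
  rw [KR]
  module

theorem PF_KR' (j : ℕ) : PF 1 (fun z => KR j (-(w * z))) := by
  refine PF_lin ((1 + w) • LinearMap.id - E j) ((w * (2 - w)) • LinearMap.id - w • E j) fun z => ?_
  rw [KR]
  module

theorem fusB7 : ∃ d A, PF d A ∧ ∀ z u, Lam z (u - E 2 u) = (w - z) • A z u := by
  have hw := w_sq
  have p1 : PF 2 (fun z => R 1 1 (z * -(w * z))) := by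
    refine PF_quad (-(1 - w) • LinearMap.id + E 1) 0 (-(w ^ 2) • LinearMap.id + w • E 1)
      fun z => ?_
    rw [R]
    module
  have p2 : PF 2 (fun z => ((1 + w * z) * (-(w * (z + w)))) • E 2) := by
    refine PF_quad ((-w ^ 2) • E 2) ((-w - w ^ 3) • E 2) ((-w ^ 2) • E 2) fun z => ?_
    module
  have p3 := (PF.const ((2 * w - 1) • (D ∘ₗ D))).comp ((PF_KL 0).comp p1)
  have p4 := (PF.const (D ∘ₗ D)).comp (p2.comp ((PF_KL 0).comp (PF.const (E 1))))
  have p5 := (p3.add p4).comp (PF.const (LinearMap.id - E 2))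
  refine ⟨_, _, p5, fun z u => ?_⟩
  simp only [Lam, LinearMap.comp_apply, LinearMap.add_apply, LinearMap.sub_apply,
    LinearMap.smul_apply, LinearMap.id_apply, KL_apply, R_apply, map_add, map_smul, map_sub,
    smul_add, smul_sub, E_E, E_comm (show 0 + 2 ≤ 2 by norm_num)]
  match_scalars <;> grind

theorem fusB8 (L : ℕ) : ∃ d A, PF d A ∧ ∀ z x,
    YY L z x - E L (YY L z x) = (w - z) • A z x := by
  have hw := w_sq
  have p1 : PF 1 (fun z => (w * (z + w)) • E (L + 1)) := by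
    refine PF_lin (w ^ 2 • E (L + 1)) (w • E (L + 1)) fun z => ?_
    module
  have p2 : PF 2 (fun z => ((w - (1 - w) * (z * -(w * z))) * (2 - w)) • (LinearMap.id : M →ₗ[ℂ] M)) := by
    refine PF_quad ((w * (2 - w)) • LinearMap.id) 0 (((1 - w) * w * (2 - w)) • LinearMap.id)
      fun z => ?_
    module
  have p3 := (p1.comp ((PF_KR' (L + 2)).comp (PF_KR L))).add (p2.comp (PF_KR' (L + 2)))
  have p4 := (PF.const (LinearMap.id - E L)).comp p3
  refine ⟨_, _, p4, fun z x => ?_⟩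
  simp only [YY, LinearMap.comp_apply, LinearMap.add_apply, LinearMap.sub_apply,
    LinearMap.smul_apply, LinearMap.id_apply, KR_apply, R_apply, map_add, map_smul,
    smul_add, smul_sub, E_E, E_comm (show L + 2 ≤ L + 2 by norm_num)]
  match_scalars <;> grind

/-- Proof in the notes (MP_35f495_E_crossing.md, section 6). -/
theorem fusion (L : ℕ) : ∃ d Qop, PF d Qop ∧ ∀ z, ∀ x ∈ Rs L,
    ss z • T L (-(w * z)) (T L z x) =
      (ss z * nT L z * nT L (-(w * z))) • x + (w - z) ^ (2 * L + 2) • Qop z x := by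
  obtain ⟨d1, A1, hA1, h1⟩ := fusB7
  obtain ⟨d2, A2, hA2, h2⟩ := fusB8 L
  obtain ⟨d3, A3, hA3, h3⟩ := F_rows 0 L
  obtain ⟨d4, A4, hA4, h4⟩ := rows_F 2 L
  have h3' : ∀ z x, Pd L z x - E 0 (Pd L z x) = (w - z) ^ L • A3 z x := h3
  have h4' : ∀ z x, E (L + 2) x = 0 → Pu L z x = (w - z) ^ L • A4 z x := by
    intro z x hx
    exact h4 z x (by rw [add_comm]; exact hx)
  refine ⟨_, _, hA1.comp (hA4.comp (hA3.comp hA2)), fun z x hx => ?_⟩
  -- terms with `E 0` in front are killed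
  have kill : ∀ u, Lam z (Pu L z (E 0 u) - E 2 (Pu L z (E 0 u))) = 0 := by
    intro u
    have e : Pu L z (E 0 u) = E 0 (Pu L z u) := by
      simp only [Pu, LinearMap.comp_apply]
      rw [← E_row_comm 2 L _ _ (by norm_num), ← E_row_comm 3 L _ _ (by norm_num)]
    rw [e, ← E_comm (show 0 + 2 ≤ 2 by norm_num), ← map_sub, fusB2, map_sub, E_E, sub_self]
    simp
  have hY : E (L + 2) (YY L z x - E L (YY L z x)) = 0 := by
    rw [map_sub, ← E_comm (show L + 2 ≤ L + 2 by norm_num), fusB3 L z hx, map_smul, E_E, sub_self]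
  obtain ⟨b, s1⟩ : ∃ b, Pd L z (YY L z x) = (Pd L z (YY L z x - E L (YY L z x)) -
      E 0 (Pd L z (YY L z x - E L (YY L z x)))) + E 0 b := by
    refine ⟨Pd L z (YY L z x - E L (YY L z x)) +
      (w * (1 + z) * (w * z - 1)) ^ L • Erow 1 L (YY L z x), ?_⟩
    have e := rows_E 0 L z (YY L z x)
    rw [Erow_succ'] at e
    simp only [zero_add] at e
    rw [map_add, map_smul, ← e, ← add_assoc, sub_add_cancel]
    simp only [Pd, LinearMap.comp_apply, map_sub]
    abel
  have s2 : E (L + 2) (Pd L z (YY L z x - E L (YY L z x)) -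
      E 0 (Pd L z (YY L z x - E L (YY L z x)))) = 0 := by
    have e : E (L + 2) (Pd L z (YY L z x - E L (YY L z x))) = 0 := by
      rw [Pd, LinearMap.comp_apply, ← row_E_comm 1 L _ _ (by omega),
        ← row_E_comm 0 L _ _ (by omega), hY, map_zero, map_zero]
    rw [map_sub, e, ← E_comm (by omega), e, map_zero, sub_zero]
  have s3 : Lam z (Pu L z (Pd L z (YY L z x)) - E 2 (Pu L z (Pd L z (YY L z x)))) =
      (w - z) ^ (2 * L + 2) • (A1 z ∘ₗ A4 z ∘ₗ A3 z ∘ₗ A2 z) x := by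
    have k := kill b
    rw [map_sub] at k
    rw [s1, map_add, map_add, map_sub, map_add, map_add, add_sub_add_comm, k, add_zero,
      ← map_sub, h1, h4' z _ s2, h3', h2]
    simp only [LinearMap.comp_apply, map_smul, smul_smul]
    congr 1
    ring
  rw [fusB1, ← s3, ← fusB6 L z hx, map_sub]
  abel

end CC
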