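import Pool.Agent.Helper9.CC.Doeb
import Pool.Agent.Helper9.CC.FusB

/-! The limiting polynomial (module LIM). -/

namespace CC
open Filter Topology Polynomial

/-- polynomial version of `nT` -/
noncomputable def nP (L : ℕ) : Polynomial ℂ :=
  (C w * X - C (1 - w)) * (C w - C (1 - w) * X) * (C (w ^ 2) * (1 + X)) ^ (2 * L)

theorem nP_eval (L : ℕ) (z : ℂ) : (nP L).eval z = nT L z := by
  simp [nP, nT]

theorem nP_deg (L : ℕ) : (nP L).natDegree ≤ 2 * L + 2 := by
  unfold nP
  have h1 : (C w * X - C (1 - w) : Polynomial ℂ).natDegree ≤ 1 := by compute_degree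
  have h2 : (C w - C (1 - w) * X : Polynomial ℂ).natDegree ≤ 1 := by compute_degree
  have h3 : (C (w ^ 2) * (1 + X) : Polynomial ℂ).natDegree ≤ 1 := by compute_degree
  refine (natDegree_mul_le).trans ?_
  refine (add_le_add (natDegree_mul_le.trans (add_le_add h1 h2)) (natDegree_pow_le_of_le (2 * L) h3)).trans ?_
  omega

theorem mu_succ (L N : ℕ) : mu L (N + 1) = Ts L (mu L N) := by
  unfold mu; rw [pow_succ', Module.End.mul_apply]

theorem Ts_apply' (L : ℕ) (x : M) : Ts L x = (nT L 1)⁻¹ • T L 1 x := rfl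

theorem tot_Ts (L : ℕ) (x : M) : tot (Ts L x) = tot x := by
  rw [Ts_apply', map_smul, tot_T, smul_eq_mul, ← mul_assoc, inv_mul_cancel₀ (nT_one_ne L), one_mul]

theorem tot_mu (L N : ℕ) : tot (mu L N) = 1 := by
  induction N with
  | zero =>
    change tot x0 = 1
    unfold x0; rw [tot_single]
  | succ N ih => rw [mu_succ, tot_Ts, ih]

theorem Ts_Rs {L : ℕ} {x : M} (hx : x ∈ Rs L) : Ts L x ∈ Rs L := by
  rw [Ts_apply']; exact Submodule.smul_mem _ _ (T_mem L 1 hx)

theorem mu_zero_val (L N : ℕ) : T L 0 (mu L N) = nT L 0 • ((3:ℂ) • Xi (mu L N) - (2:ℂ) • mu L N) := by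
  have hz : (w * 0 - (1 - w)) * (w - (1 - w) * 0) ≠ 0 := by
    have : (w * 0 - (1 - w)) * (w - (1 - w) * 0) = -1 := by linear_combination w_sq
    rw [this]; norm_num
  rw [T_mu L N 0 hz, T_zero]
  have hX : ∀ N, ((Ts L) ^ N) (Xi x0) = Xi (mu L N) := by
    intro N
    induction N with
    | zero => rfl
    | succ N ih => rw [pow_succ', Module.End.mul_apply, ih, mu_succ, Xi_Ts]
  rw [map_smul, map_sub, map_smul, map_smul, hX]
  rfl

/-- the mean increment -/
noncomputable def GN (L N : ℕ) (z : ℂ) : ℂ := cn (T L z (mu L N)) - nT L z * cn (mu L N)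

theorem ss_poly : ∃ P : Polynomial ℂ, P.natDegree ≤ 4 ∧ ∀ z, P.eval z = ss z := by
  refine ⟨C (w ^ 2) * (1 - X ^ 2) * (C w + X ^ 2), by compute_degree, fun z => ?_⟩
  simp [ss]

theorem ss_w_ne : ss w ≠ 0 := by
  unfold ss
  have h : w ^ 2 * (1 - w ^ 2) * (w + w ^ 2) = -3 := by
    linear_combination (3 + 3 * w - 2 * w ^ 3 - w ^ 4) * w_sq
  rw [h]
  norm_num

theorem lim_main (L : ℕ) (hL : 1 ≤ L) : ∃ G : Polynomial ℂ, G.natDegree ≤ 2 * L + 2 ∧
    G.eval w = 0 ∧ G.eval (1 - w) = 0 ∧ G.eval 0 = 3 * nT L 0 ∧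
    (X - C w) ^ (2 * L + 2) ∣ (nP L).comp (-(C w * X)) * G + nP L * G.comp (-(C w * X)) ∧
    Tendsto (fun N => cn (mu L (N + 1)) - cn (mu L N)) atTop (𝓝 (G.eval 1 / nT L 1)) := by
  -- the polynomials GN
  have hP : ∀ N, ∃ P : Polynomial ℂ, P.natDegree ≤ 2 * L + 2 ∧ ∀ z, GN L N z = P.eval z := by
    intro N
    obtain ⟨P, hP, hP'⟩ := (PF_T L).poly cn (mu L N)
    refine ⟨P - C (cn (mu L N)) * nP L, ?_, fun z => ?_⟩
    · refine (natDegree_sub_le _ _).trans (max_le hP ?_)
      exact (natDegree_C_mul_le _ _).trans (nP_deg L)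
    · unfold GN
      rw [hP', eval_sub, eval_mul, eval_C, nP_eval]
      ring
  choose P hP hP' using hP
  -- pointwise convergence
  have hconv : ∀ z, ∃ l : ℂ, Tendsto (fun N => GN L N z) atTop (𝓝 l) ∧
      ∀ y, (w * y - (1 - w)) * (w - (1 - w) * y) ≠ 0 →
        Tendsto (fun N => cn (T L z (T L y (mu L N))) - nT L z * cn (T L y (mu L N))) atTop
          (𝓝 (nT L y * l)) := by
    intro z
    obtain ⟨g, hg, ⟨Cg, hC⟩, hT⟩ := cn_T L z
    obtain ⟨l, hl, hl'⟩ := doeb L hL g hg Cg hC
    refine ⟨l, ?_, fun y hy => ?_⟩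
    · have h := hl (F0, 0) (F0_mem L 0)
      refine h.congr fun N => ?_
      unfold GN
      rw [hT]
      change itg g (mu L N) = _
      ring
    · refine (hl' y hy).congr fun N => ?_
      rw [hT]
      ring
  choose f hf hf' using hconv
  obtain ⟨G, hG1, hG2, -, -⟩ := poly_limit (2 * L + 2) P hP ∅ Set.finite_empty f
    (fun z _ => by simpa only [hP'] using hf z)
  have hGf : ∀ z, G.eval z = f z := fun z => hG2 z (Set.notMem_empty z)
  have hlim : ∀ z, Tendsto (fun N => GN L N z) atTop (𝓝 (G.eval z)) := fun z => by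
    rw [hGf]; exact hf z
  refine ⟨G, hG1, ?_, ?_, ?_, ?_, ?_⟩
  · have h0 : ∀ N, GN L N w = 0 := by
      intro N
      unfold GN
      rw [T_w L (mu_mem L N), map_smul, smul_eq_mul, sub_self]
    exact (tendsto_nhds_unique (hlim w) (by simp only [h0]; exact tendsto_const_nhds))
  · have h0 : ∀ N, GN L N (1 - w) = 0 := by
      intro N
      unfold GN
      rw [T_winv L (mu_mem L N), map_smul, smul_eq_mul, sub_self]
    exact (tendsto_nhds_unique (hlim (1 - w)) (by simp only [h0]; exact tendsto_const_nhds))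
  · have h0 : ∀ N, GN L N 0 = 3 * nT L 0 := by
      intro N
      unfold GN
      rw [mu_zero_val, map_smul, map_sub, map_smul, map_smul, cn_Xi, tot_mu]
      simp only [smul_eq_mul]
      ring
    exact (tendsto_nhds_unique (hlim 0) (by simp only [h0]; exact tendsto_const_nhds))
  · obtain ⟨d, Qop, hQ, hfus⟩ := fusion L
    obtain ⟨ssP, hss1, hss2⟩ := ss_poly
    have hR : ∀ N, ∃ R : Polynomial ℂ, R.natDegree ≤ d ∧ ∀ z, cn (Qop z (mu L N)) = R.eval z :=
      fun N => hQ.poly cn (mu L N)
    choose R hR1 hR2 using hR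
    have hlin : (C w - X : Polynomial ℂ).natDegree ≤ 1 := by compute_degree
    have hK1 : ∀ N, ((C w - X) ^ (2 * L + 2) * R N).natDegree ≤ 2 * L + 2 + d := by
      intro N
      refine natDegree_mul_le.trans (add_le_add ?_ (hR1 N))
      exact (natDegree_pow_le_of_le (2 * L + 2) hlin).trans (by omega)
    set W : Polynomial ℂ := (nP L).comp (-(C w * X)) * G + nP L * G.comp (-(C w * X)) with hW
    have hWe : ∀ z, W.eval z = nT L (-(w * z)) * G.eval z + nT L z * G.eval (-(w * z)) := by
      intro z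
      rw [hW]
      simp only [eval_add, eval_mul, eval_comp, eval_neg, eval_C, eval_X, nP_eval]
    set S : Set ℂ := {z | (w * z - (1 - w)) * (w - (1 - w) * z) = 0} with hS
    have hSfin : S.Finite := by
      have hne : (C w * X - C (1 - w)) * (C w - C (1 - w) * X) ≠ (0 : Polynomial ℂ) := by
        intro h
        have := congrArg (eval 0) h
        simp only [eval_mul, eval_sub, eval_C, eval_X, mul_zero, zero_sub, sub_zero, eval_zero] at this
        have h1 : -(1 - w) * w = -1 := by linear_combination w_sq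
        rw [h1] at this
        norm_num at this
      refine (((C w * X - C (1 - w)) * (C w - C (1 - w) * X) : Polynomial ℂ).roots.toFinset.finite_toSet).subset ?_
      intro z hz
      rw [Finset.mem_coe, Multiset.mem_toFinset, mem_roots hne, IsRoot.def]
      rw [hS, Set.mem_ofPred_eq] at hz
      simpa using hz
    obtain ⟨K, -, hK3, -, hK5⟩ := poly_limit (2 * L + 2 + d) (fun N => (C w - X) ^ (2 * L + 2) * R N)
      hK1 S hSfin (fun z => ss z * W.eval z) (fun z hz => by
        have hz' : (w * z - (1 - w)) * (w - (1 - w) * z) ≠ 0 := hz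
        have h1 := hf' (-(w * z)) z hz'
        have h2 := (hlim z).const_mul (nT L (-(w * z)))
        have h3 := (h1.add h2).const_mul (ss z)
        rw [← hGf] at h3
        have e : ss z * (nT L z * eval (-(w * z)) G + nT L (-(w * z)) * eval z G) = ss z * W.eval z := by
          rw [hWe]; ring
        rw [e] at h3
        refine h3.congr fun N => ?_
        have h4 := congrArg cn (hfus z (mu L N) (mu_mem L N))
        simp only [map_smul, map_add, smul_eq_mul, hR2] at h4
        rw [eval_mul, eval_pow, eval_sub, eval_C, eval_X]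
        unfold GN
        linear_combination h4)
    have hKW : K = ssP * W := by
      apply Polynomial.eq_of_infinite_eval_eq
      refine (Set.Finite.infinite_compl hSfin).mono ?_
      intro z hz
      rw [Set.mem_ofPred_eq, hK3 z hz, eval_mul, hss2]
    have hdvd : (C w - X) ^ (2 * L + 2) ∣ K := hK5 _ (fun N => dvd_mul_right _ _)
    rw [hKW] at hdvd
    have hcop : IsCoprime ((C w - X) ^ (2 * L + 2)) ssP := by
      apply IsCoprime.pow_left
      have : (C w - X : Polynomial ℂ) = -(X - C w) := by ring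
      rw [this, IsCoprime.neg_left_iff]
      refine (irreducible_X_sub_C w).coprime_iff_not_dvd.2 ?_
      rw [dvd_iff_isRoot, IsRoot.def, hss2]
      exact ss_w_ne
    have h5 := hcop.dvd_of_dvd_mul_left hdvd
    have : (C w - X : Polynomial ℂ) ^ (2 * L + 2) = (X - C w) ^ (2 * L + 2) := by
      rw [show 2 * L + 2 = 2 * (L + 1) by ring, pow_mul, pow_mul]
      congr 1
      ring
    rw [← this]
    exact h5
  · have h := (hlim 1).div_const (nT L 1)
    refine h.congr fun N => ?_
    unfold GN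
    rw [mu_succ, Ts_apply', map_smul, smul_eq_mul]
    field_simp [nT_one_ne L]

end CC
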