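import Pool.Agent.Helper9.CC.EvalA
import Pool.Agent.Helper9.CC.Lim

/-! Evaluation of the limiting polynomial (module EVALB). -/

namespace CC
open Polynomial

/-- a polynomial with at most `k` monomials and a zero of order `k` at `1` is zero -/
theorem sparse (k : ℕ) (P : Polynomial ℂ) (h : P.support.card ≤ k) (h' : (X - 1) ^ k ∣ P) :
    P = 0 := by
  induction k generalizing P with
  | zero =>
    have : P.support = ∅ := Finset.card_eq_zero.1 (Nat.le_zero.1 h)
    exact support_eq_empty.1 this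
  | succ k ih =>
    by_contra hP
    obtain ⟨Q, hQ, hQ0⟩ := exists_eq_pow_rootMultiplicity_mul_and_not_dvd P hP 0
    set m := rootMultiplicity 0 P
    rw [C_0, sub_zero] at hQ hQ0
    have hQc : Q.coeff 0 ≠ 0 := fun h0 => hQ0 (X_dvd_iff.2 h0)
    have hcop : IsCoprime ((X - 1 : Polynomial ℂ) ^ (k + 1)) (X ^ m) := by
      refine IsCoprime.pow ⟨-1, 1, ?_⟩
      ring
    have hd : (X - 1) ^ (k + 1) ∣ Q := by
      rw [hQ] at h'
      exact hcop.dvd_of_dvd_mul_left h'
    have hd' : (X - 1) ^ k ∣ derivative Q := by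
      have := pow_sub_one_dvd_derivative_of_pow_dvd hd
      simpa using this
    have hPc : ∀ n, P.coeff (n + m) = Q.coeff n := by
      intro n
      rw [hQ, coeff_X_pow_mul]
    have hcard : (derivative Q).support.card ≤ k := by
      have hinj : Function.Injective (fun n : ℕ => n + 1 + m) := by
        intro a b hab
        simpa using hab
      have h1 : (derivative Q).support.image (fun n : ℕ => n + 1 + m) ⊆ P.support.erase m := by
        intro x hx
        rw [Finset.mem_image] at hx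
        obtain ⟨n, hn, rfl⟩ := hx
        rw [mem_support_iff, coeff_derivative] at hn
        rw [Finset.mem_erase, mem_support_iff, hPc]
        exact ⟨by omega, left_ne_zero_of_mul hn⟩
      have h2 := Finset.card_le_card h1
      rw [Finset.card_image_of_injective _ hinj, Finset.card_erase_of_mem] at h2
      · omega
      · rw [mem_support_iff]
        have := hPc 0
        rw [zero_add] at this
        rw [this]
        exact hQc
    have h0 := ih _ hcard hd'
    have hQd : Q.natDegree = 0 := derivative_eq_zero.1 h0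
    rw [natDegree_eq_zero] at hQd
    obtain ⟨c, rfl⟩ := hQd
    obtain ⟨q, hq⟩ := (dvd_pow_self (X - 1 : Polynomial ℂ) (Nat.succ_ne_zero k)).trans hd
    have := congrArg (eval 1) hq
    simp at this
    simp [this] at hQc

theorem evB_w3 : w ^ 3 = -1 := by linear_combination (w + 1) * w_sq

theorem evB_pow (a e : ℕ) (ha : a = 1 ∨ a = 2) (h : 3 ∣ e + a) :
    (1 - w) ^ a * (w - 1) ^ e = w ^ a * (-w) ^ e := by
  have e1 : w - 1 = w ^ 2 := w_sq.symm
  have e2 : -w = w ^ 4 := by linear_combination -w * evB_w3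
  have e3 : 1 - w = w ^ 5 := by linear_combination w_sq - w ^ 2 * evB_w3
  have e6 : w ^ 6 = 1 := by linear_combination (w ^ 3 - 1) * evB_w3
  rw [e1, e2, e3]
  rcases ha with rfl | rfl
  · obtain ⟨j, hj⟩ : ∃ j, e = 3 * j + 2 := ⟨(e - 2) / 3, by omega⟩
    subst hj
    have : (w ^ 5) ^ 1 * (w ^ 2) ^ (3 * j + 2) = w ^ 9 * (w ^ 6) ^ j := by ring
    rw [this]
    have : w ^ 1 * (w ^ 4) ^ (3 * j + 2) = w ^ 9 * (w ^ 6) ^ (2 * j) := by ring
    rw [this, e6, one_pow, one_pow]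
  · obtain ⟨j, hj⟩ : ∃ j, e = 3 * j + 1 := ⟨(e - 1) / 3, by omega⟩
    subst hj
    have : (w ^ 5) ^ 2 * (w ^ 2) ^ (3 * j + 1) = (w ^ 6) ^ (j + 2) := by ring
    rw [this]
    have : w ^ 2 * (w ^ 4) ^ (3 * j + 1) = (w ^ 6) ^ (2 * j + 1) := by ring
    rw [this, e6, one_pow, one_pow]

theorem evB_powx (a e : ℕ) (ha : a = 1 ∨ a = 2) (h : ¬ 3 ∣ e + a) :
    (1 - w) ^ a * (w - 1) ^ e + w ^ a * (-w) ^ e = (1 - w) ^ a + w ^ a := by
  have e1 : w - 1 = w ^ 2 := w_sq.symm
  have e2 : -w = w ^ 4 := by linear_combination -w * evB_w3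
  have e3 : 1 - w = w ^ 5 := by linear_combination w_sq - w ^ 2 * evB_w3
  have e6 : w ^ 6 = 1 := by linear_combination (w ^ 3 - 1) * evB_w3
  rw [e1, e2, e3]
  rcases ha with rfl | rfl
  · rcases (show (e = 3 * (e / 3) ∨ e = 3 * (e / 3) + 1) by omega) with h1 | h1
    · rw [h1]
      generalize e / 3 = j
      have : (w ^ 5) ^ 1 * (w ^ 2) ^ (3 * j) + w ^ 1 * (w ^ 4) ^ (3 * j)
        = w ^ 5 * (w ^ 6) ^ j + w * (w ^ 6) ^ (2 * j) := by ring
      rw [this, e6, one_pow, one_pow]; ring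
    · rw [h1]
      generalize e / 3 = j
      have : (w ^ 5) ^ 1 * (w ^ 2) ^ (3 * j + 1) + w ^ 1 * (w ^ 4) ^ (3 * j + 1)
        = w * w ^ 6 * (w ^ 6) ^ j + w ^ 5 * (w ^ 6) ^ (2 * j) := by ring
      rw [this, e6, one_pow, one_pow]; ring
  · rcases (show (e = 3 * (e / 3) ∨ e = 3 * (e / 3) + 2) by omega) with h1 | h1
    · rw [h1]
      generalize e / 3 = j
      have : (w ^ 5) ^ 2 * (w ^ 2) ^ (3 * j) + w ^ 2 * (w ^ 4) ^ (3 * j)
        = w ^ 10 * (w ^ 6) ^ j + w ^ 2 * (w ^ 6) ^ (2 * j) := by ring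
      rw [this, e6, one_pow, one_pow]; ring
    · rw [h1]
      generalize e / 3 = j
      have : (w ^ 5) ^ 2 * (w ^ 2) ^ (3 * j + 2) + w ^ 2 * (w ^ 4) ^ (3 * j + 2)
        = w ^ 2 * (w ^ 6) ^ 2 * (w ^ 6) ^ j + w ^ 10 * (w ^ 6) ^ (2 * j) := by ring
      rw [this, e6, one_pow, one_pow]; ring

theorem evB_coeff (a L : ℕ) (ha : a = 1 ∨ a = 2) :
    (fP a L).natDegree ≤ 3 * L + a ∧ ∀ e, 3 ∣ e + a → (fP a L).coeff e = 0 := by
  obtain ⟨U, V, hU, hV, hf⟩ := fP_shape a L ha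
  have hc : ∀ (U : Polynomial ℂ) (e : ℕ), ¬ 3 ∣ e → (U.comp (X ^ 3)).coeff e = 0 := by
    intro U e he
    rw [← expand_eq_comp_X_pow, coeff_expand (by norm_num), if_neg he]
  constructor
  · rw [hf]
    refine (natDegree_add_le _ _).trans (max_le ?_ ?_)
    · rw [natDegree_comp, natDegree_X_pow]; omega
    · refine natDegree_mul_le.trans ?_
      rw [natDegree_comp, natDegree_X_pow, natDegree_X_pow]; omega
  · intro e he
    rw [hf, coeff_add, hc U e (by omega), zero_add, coeff_X_pow_mul']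
    split_ifs with h
    · exact hc V _ (by omega)
    · rfl

theorem evB_rot (a L : ℕ) (ha : a = 1 ∨ a = 2) :
    C ((1 - w) ^ a) * (fP a L).comp (C (w - 1) * X) + C (w ^ a) * (fP a L).comp (C (-w) * X) =
      C ((1 - w) ^ a + w ^ a) * fP a L := by
  ext e
  rw [coeff_add, coeff_C_mul, coeff_C_mul, coeff_C_mul, comp_C_mul_X_coeff, comp_C_mul_X_coeff]
  by_cases h : 3 ∣ e + a
  · rw [(evB_coeff a L ha).2 e h]; ring
  · rw [← evB_powx a e ha h]; ring

theorem evB_coprime (c : ℂ) (hc : c ≠ 1) : IsCoprime (X - 1 : Polynomial ℂ) (C c * X - 1) := by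
  refine ⟨C (-c / (c - 1)), C (1 / (c - 1)), ?_⟩
  have h : c - 1 ≠ 0 := sub_ne_zero.2 hc
  have e1 : C (-c / (c - 1)) = -(C c * C (1 / (c - 1))) := by
    rw [← C_mul, ← C_neg]; congr 1; field_simp
  have e2 : C (1 / (c - 1)) * (C c - 1) = 1 := by
    rw [← C_1, ← C_sub, ← C_mul]; congr 1; field_simp
  rw [e1]
  linear_combination e2

theorem evB_key (a L : ℕ) (ha : a = 1 ∨ a = 2) (N h : Polynomial ℂ) (hN : N.natDegree ≤ 2 * L + 1)
    (hf : fP a L = (X - 1) ^ (2 * L + 1) * h)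
    (hrel : (X - 1) ^ (2 * L + 1) ∣ N.comp (C (w - 1) * X) * (C (-w) * X - 1) ^ (2 * L + 1) +
      N.comp (C (-w) * X) * (C (w - 1) * X - 1) ^ (2 * L + 1)) :
    C ((1 - w) ^ a) * (N * h).comp (C (w - 1) * X) - C (w ^ a) * (N * h).comp (C (-w) * X) =
      C (-(((1 - w) ^ a - w ^ a) * N.coeff 0)) * fP a L := by
  obtain ⟨hfd, hfc⟩ := evB_coeff a L ha
  set κ : ℂ := -(((1 - w) ^ a - w ^ a) * N.coeff 0) with hκ
  rw [← sub_eq_zero]
  -- the coefficients
  have hco : ∀ e, (C ((1 - w) ^ a) * (N * h).comp (C (w - 1) * X) -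
      C (w ^ a) * (N * h).comp (C (-w) * X) - C κ * fP a L).coeff e =
      ((1 - w) ^ a * (w - 1) ^ e - w ^ a * (-w) ^ e) * (N * h).coeff e - κ * (fP a L).coeff e := by
    intro e
    rw [coeff_sub, coeff_sub, coeff_C_mul, coeff_C_mul, coeff_C_mul, comp_C_mul_X_coeff,
      comp_C_mul_X_coeff]
    ring
  have hdeg : (N * h).natDegree ≤ 3 * L + a := by
    by_cases h0 : h = 0
    · rw [h0, mul_zero, natDegree_zero]; omega
    · have h1 : (X - 1 : Polynomial ℂ) ^ (2 * L + 1) ≠ 0 := pow_ne_zero _ (X_sub_C_ne_zero (1:ℂ))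
      rw [hf, natDegree_mul h1 h0, natDegree_pow] at hfd
      have h2 : (X - 1 : Polynomial ℂ).natDegree = 1 := natDegree_X_sub_C (1:ℂ)
      rw [h2] at hfd
      refine natDegree_mul_le.trans ?_
      omega
  apply sparse (2 * L + 1)
  · have hsub : (C ((1 - w) ^ a) * (N * h).comp (C (w - 1) * X) -
      C (w ^ a) * (N * h).comp (C (-w) * X) - C κ * fP a L).support ⊆
      (Finset.range (2 * L + 1)).image (fun j => if j % 2 = 0 then 3 * (j / 2) + a
        else 3 * (j / 2) + 3) := by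
      intro e he
      rw [mem_support_iff, hco] at he
      have he1 : e ≤ 3 * L + a := by
        by_contra hlt
        rw [not_le] at hlt
        rw [coeff_eq_zero_of_natDegree_lt (hdeg.trans_lt hlt),
          coeff_eq_zero_of_natDegree_lt (hfd.trans_lt hlt)] at he
        simp at he
      have he2 : ¬ 3 ∣ e + a := by
        intro h3
        rw [hfc e h3, evB_pow a e ha h3] at he
        simp at he
      have he3 : e ≠ 0 := by
        rintro rfl
        apply he
        have h4 : (fP a L).coeff 0 = -h.coeff 0 := by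
          rw [hf, mul_coeff_zero, coeff_zero_eq_eval_zero ((X - 1) ^ (2 * L + 1))]
          simp [pow_succ, pow_mul]
        rw [h4, mul_coeff_zero, hκ]
        ring
      rw [Finset.mem_image]
      by_cases h5 : 3 ∣ e
      · refine ⟨2 * (e / 3 - 1) + 1, Finset.mem_range.2 (by omega), ?_⟩
        rw [if_neg (by omega)]
        omega
      · refine ⟨2 * ((e - a) / 3), Finset.mem_range.2 (by omega), ?_⟩
        rw [if_pos (by omega)]
        omega
    refine (Finset.card_le_card hsub).trans (Finset.card_image_le.trans ?_)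
    rw [Finset.card_range]
  · have hc1 : w - 1 ≠ 1 := by
      intro h1
      have := evB_w3
      have h2 : w = 2 := by linear_combination h1
      rw [h2] at this
      norm_num at this
    have hc2 : -w ≠ 1 := by
      intro h1
      have := w_sq
      have h2 : w = -1 := by linear_combination -h1
      rw [h2] at this
      norm_num at this
    have hcop : IsCoprime ((X - 1 : Polynomial ℂ) ^ (2 * L + 1))
        ((C (w - 1) * X - 1) ^ (2 * L + 1) * (C (-w) * X - 1) ^ (2 * L + 1)) :=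
      (((evB_coprime _ hc1).pow).mul_right ((evB_coprime _ hc2).pow))
    refine hcop.dvd_of_dvd_mul_right ?_
    have hrot := evB_rot a L ha
    have f1 : (fP a L).comp (C (w - 1) * X) =
        (C (w - 1) * X - 1) ^ (2 * L + 1) * h.comp (C (w - 1) * X) := by
      rw [hf]; simp
    have f2 : (fP a L).comp (C (-w) * X) =
        (C (-w) * X - 1) ^ (2 * L + 1) * h.comp (C (-w) * X) := by
      rw [hf]; simp
    have hfd' : (X - 1) ^ (2 * L + 1) ∣ fP a L := ⟨h, hf⟩
    have hid : (C ((1 - w) ^ a) * (N * h).comp (C (w - 1) * X) -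
        C (w ^ a) * (N * h).comp (C (-w) * X) - C κ * fP a L) *
        ((C (w - 1) * X - 1) ^ (2 * L + 1) * (C (-w) * X - 1) ^ (2 * L + 1)) =
        N.comp (C (w - 1) * X) * (C (-w) * X - 1) ^ (2 * L + 1) *
          (C ((1 - w) ^ a + w ^ a) * fP a L) -
        C (w ^ a) * (fP a L).comp (C (-w) * X) *
          (N.comp (C (w - 1) * X) * (C (-w) * X - 1) ^ (2 * L + 1) +
            N.comp (C (-w) * X) * (C (w - 1) * X - 1) ^ (2 * L + 1)) -
        C κ * fP a L *
          ((C (w - 1) * X - 1) ^ (2 * L + 1) * (C (-w) * X - 1) ^ (2 * L + 1)) := by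
      rw [← hrot, f1, f2, mul_comp, mul_comp]
      ring
    rw [hid]
    refine dvd_sub (dvd_sub ?_ ?_) ?_
    · exact ((hfd'.mul_left _).mul_left _)
    · exact hrel.mul_left _
    · exact (hfd'.mul_left _).mul_right _

theorem evB_rel (L : ℕ) (g : Polynomial ℂ)
    (h4 : (X - C w) ^ (2 * L + 2) ∣ (nP L).comp (-(C w * X)) * ((X ^ 2 - X + 1) * g) +
      nP L * ((X ^ 2 - X + 1) * g).comp (-(C w * X))) :
    (X - 1) ^ (2 * L + 1) ∣
      ((X + 1) * g.comp (-X)).comp (C (w - 1) * X) * (C (-w) * X - 1) ^ (2 * L + 1) +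
      ((X + 1) * g.comp (-X)).comp (C (-w) * X) * (C (w - 1) * X - 1) ^ (2 * L + 1) := by
  set F := (nP L).comp (-(C w * X)) * ((X ^ 2 - X + 1) * g) +
      nP L * ((X ^ 2 - X + 1) * g).comp (-(C w * X)) with hF
  set W := ((X + 1) * g.comp (-X)).comp (C (w - 1) * X) * (C (-w) * X - 1) ^ (2 * L + 1) +
      ((X + 1) * g.comp (-X)).comp (C (-w) * X) * (C (w - 1) * X - 1) ^ (2 * L + 1) with hW
  have hid : F.comp (C w * X) = (X - 1) * (C (-(w ^ 2) ^ (2 * L)) * (X + 1) * W) := by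
    refine Polynomial.funext fun y => ?_
    have hz : -(w * (w * y)) = -((w - 1) * y) := by linear_combination -y * w_sq
    have p1 : (w ^ 2 * (1 + -(w * (w * y)))) ^ (2 * L) =
        (w ^ 2) ^ (2 * L) * ((w - 1) * y - 1) ^ (2 * L) := by
      rw [hz, mul_pow, pow_mul (1 + -((w - 1) * y)), pow_mul ((w - 1) * y - 1)]
      congr 2
      ring
    have p2 : (w ^ 2 * (1 + w * y)) ^ (2 * L) =
        (w ^ 2) ^ (2 * L) * (-w * y - 1) ^ (2 * L) := by
      rw [mul_pow, pow_mul (1 + w * y), pow_mul (-w * y - 1)]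
      congr 2
      ring
    have i1 : (w * (-(w * (w * y))) - (1 - w)) * (w - (1 - w) * (-(w * (w * y)))) *
        ((w * y) ^ 2 - w * y + 1) = -(y - 1) * (y + 1) * ((w - 1) * y - 1) * (-w * y + 1) := by
      linear_combination (w^6*y^4 - w^5*y^3 - w^4*y^4 - 2*w^4*y^3 + w^4*y^2 - w^3*y^4 + w^3*y^3
        + 2*w^3*y^2 + 2*w^2*y^3 - 2*w^2*y + w*y^4 + w*y^3 - 2*w*y^2 - w*y - y^3 - y^2 + y + 1) * w_sq
    have i2 : (w * (w * y) - (1 - w)) * (w - (1 - w) * (w * y)) *
        ((-(w * (w * y))) ^ 2 - (-(w * (w * y))) + 1) =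
        -(y - 1) * (y + 1) * (-w * y - 1) * ((w - 1) * y + 1) := by
      linear_combination (w^6*y^4 + 2*w^5*y^3 - w^4*y^4 + w^4*y^3 + w^4*y^2 - w^3*y^4 - w^3*y^3
        + 2*w^3*y^2 - 2*w^2*y^3 + w^2*y + w*y^4 - w*y^3 - 2*w*y^2 + 2*w*y + y^3 - y^2 - y + 1) * w_sq
    rw [hF, hW]
    simp only [eval_comp, eval_add, eval_mul, eval_sub, eval_pow, eval_X, eval_C, eval_neg,
      eval_one, nP_eval, nT]
    rw [p1, p2]
    have e1 : g.eval (-(w * (w * y))) = g.eval (-((w - 1) * y)) := by rw [hz]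
    have e2 : g.eval (w * y) = g.eval (-(-w * y)) := by congr 1; ring
    rw [e1, e2]
    generalize g.eval (-((w - 1) * y)) = A at *
    generalize g.eval (-(-w * y)) = B at *
    rw [pow_succ ((w - 1) * y - 1), pow_succ (-w * y - 1)]
    generalize ((w - 1) * y - 1) ^ (2 * L) = P1 at *
    generalize (-w * y - 1) ^ (2 * L) = P2 at *
    generalize (w ^ 2) ^ (2 * L) = q at *
    linear_combination (q * P1 * B) * i1 + (q * P2 * A) * i2
  have h5 : (X - 1 : Polynomial ℂ) ^ (2 * L + 2) ∣ F.comp (C w * X) := by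
    obtain ⟨r, hr⟩ := h4
    rw [hr, mul_comp]
    refine Dvd.dvd.mul_right ?_ _
    refine ⟨C (w ^ (2 * L + 2)), ?_⟩
    rw [C_pow, mul_comm, ← mul_pow, pow_comp]
    congr 1
    simp
    ring
  have hX1 : (X - 1 : Polynomial ℂ) ≠ 0 := X_sub_C_ne_zero (1:ℂ)
  rw [hid, show 2 * L + 2 = (2 * L + 1) + 1 from rfl, pow_succ', mul_dvd_mul_iff_left hX1] at h5
  have hq : -(w ^ 2) ^ (2 * L) ≠ 0 := neg_ne_zero.2 (pow_ne_zero _ (pow_ne_zero _ w_ne_zero))
  have hcop : IsCoprime ((X - 1 : Polynomial ℂ) ^ (2 * L + 1)) (C (-(w ^ 2) ^ (2 * L)) * (X + 1)) := by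
    refine IsCoprime.pow_left (IsCoprime.mul_right ?_ ?_)
    · refine ⟨0, C ((-(w ^ 2) ^ (2 * L))⁻¹), ?_⟩
      rw [← C_mul, inv_mul_cancel₀ hq]; simp
    · refine ⟨C (-1 / 2), C (1 / 2), ?_⟩
      have e1 : C (-1 / 2 : ℂ) = -C (1 / 2) := by rw [← C_neg]; congr 1; ring
      have e2 : C (1 / 2 : ℂ) * 2 = 1 := by
        rw [show (2 : Polynomial ℂ) = C 2 from rfl, ← C_mul]; norm_num
      rw [e1]
      linear_combination e2
  exact hcop.dvd_of_dvd_mul_left h5

theorem eval_main (L : ℕ) (G : Polynomial ℂ) (hG : G.natDegree ≤ 2 * L + 2)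
    (h1 : G.eval w = 0) (h2 : G.eval (1 - w) = 0) (h3 : G.eval 0 = 3 * nT L 0)
    (h4 : (X - C w) ^ (2 * L + 2) ∣ (nP L).comp (-(C w * X)) * G + nP L * G.comp (-(C w * X))) :
    G.eval 1 / nT L 1 = ((Real.sqrt 3 * (r 1 L - r 2 L) : ℝ) : ℂ) := by
  have hww : w - (1 - w) ≠ 0 := by
    intro h
    have : w = 1 / 2 := by linear_combination h / 2
    have h' := w_sq
    rw [this] at h'
    norm_num at h'
  -- the quotient
  obtain ⟨g, hg⟩ : ∃ g, G = (X ^ 2 - X + 1) * g := by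
    have d1 : (X - C w) ∣ G := dvd_iff_isRoot.2 h1
    have d2 : (X - C (1 - w)) ∣ G := dvd_iff_isRoot.2 h2
    have hc : IsCoprime (X - C w) (X - C (1 - w)) := isCoprime_X_sub_C_of_isUnit_sub (by
      rw [isUnit_iff_ne_zero]; exact hww)
    obtain ⟨g, hg⟩ := hc.mul_dvd d1 d2
    refine ⟨g, ?_⟩
    rw [hg]
    congr 1
    have : (X - C w) * (X - C (1 - w)) = X ^ 2 - X + C (w * (1 - w)) := by
      simp only [C_mul, C_sub, C_1]; ring
    rw [this, w_mul, C_1]
  have hgd : g.natDegree ≤ 2 * L := by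
    by_cases h0 : g = 0
    · rw [h0]; simp
    · have hq : (X ^ 2 - X + 1 : Polynomial ℂ).natDegree = 2 := by compute_degree!
      have hq0 : (X ^ 2 - X + 1 : Polynomial ℂ) ≠ 0 := by
        intro h; rw [h] at hq; simp at hq
      rw [hg, natDegree_mul hq0 h0, hq] at hG
      omega
  have hN : ((X + 1) * g.comp (-X)).natDegree ≤ 2 * L + 1 := by
    refine natDegree_mul_le.trans ?_
    rw [natDegree_comp, natDegree_neg, natDegree_X]
    have : (X + 1 : Polynomial ℂ).natDegree ≤ 1 := by compute_degree!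
    omega
  rw [hg] at h4
  have hrel := evB_rel L g h4
  obtain ⟨p1, hp1⟩ := fP_dvd 1 L (Or.inl rfl)
  obtain ⟨p2, hp2⟩ := fP_dvd 2 L (Or.inr rfl)
  have k1 := evB_key 1 L (Or.inl rfl) _ p1 hN hp1 hrel
  have k2 := evB_key 2 L (Or.inr rfl) _ p2 hN hp2 hrel
  have g0 : ((X + 1) * g.comp (-X)).coeff 0 = -3 * (w ^ 2) ^ (2 * L) := by
    rw [hg] at h3
    simp [nT] at h3
    simp [coeff_zero_eq_eval_zero]
    rw [h3]
    linear_combination (-3 * (w ^ 2) ^ (2 * L)) * w_mul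
  rw [g0] at k1 k2
  set q := (w ^ 2) ^ (2 * L) with hq
  -- identity
  have hid : (1 - X) * g * (C w * (fP 1 L).comp (C w * X) * (fP 2 L).comp (C (1 - w) * X) +
      (fP 2 L).comp (C w * X) * (fP 1 L).comp (C (1 - w) * X)) =
      (C (3 * q * (1 - 2 * w)) * (-X - 1) ^ (2 * L + 1)) *
      (C w * (fP 1 L).comp (C w * X) * (fP 2 L).comp (C (1 - w) * X) -
      (fP 2 L).comp (C w * X) * (fP 1 L).comp (C (1 - w) * X)) := by
    refine Polynomial.funext fun t => ?_
    have m1 := congrArg (eval (w * t)) k1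
    have m2 := congrArg (eval (w * t)) k2
    have n1 := congrArg (eval (-t)) (evB_rot 1 L (Or.inl rfl))
    have n2 := congrArg (eval (-t)) (evB_rot 2 L (Or.inr rfl))
    have a1 := congrArg (eval (-t)) hp1
    have a2 := congrArg (eval (-t)) hp2
    have b1 := congrArg (eval ((1 - w) * t)) hp1
    have b2 := congrArg (eval ((1 - w) * t)) hp2
    simp only [eval_comp, eval_add, eval_mul, eval_sub, eval_pow, eval_X, eval_C, eval_neg,
      eval_one] at m1 m2 n1 n2 a1 a2 b1 b2 ⊢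
    have c1 : (w - 1) * (w * t) = -t := by linear_combination t * w_sq
    have c2 : -w * (w * t) = (1 - w) * t := by linear_combination -t * w_sq
    have c3 : (w - 1) * -t = (1 - w) * t := by ring
    have c4 : -w * -t = w * t := by ring
    rw [c1, c2] at m1 m2
    rw [c3, c4] at n1 n2
    rw [neg_neg] at m1 m2
    generalize eval (-t) (fP 1 L) = f1 at *
    generalize eval (-t) (fP 2 L) = f2 at *
    generalize eval (-t) p1 = u1 at *
    generalize eval (-t) p2 = u2 at *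
    generalize eval ((1 - w) * t) (fP 1 L) = o2 at *
    generalize eval ((1 - w) * t) (fP 2 L) = e2 at *
    generalize eval (w * t) (fP 1 L) = o1 at *
    generalize eval (w * t) (fP 2 L) = e1 at *
    generalize eval ((1 - w) * t) p1 = v1 at *
    generalize eval ((1 - w) * t) p2 = v2 at *
    generalize eval t g = gt at *
    generalize eval (-((1 - w) * t)) g = gs at *
    generalize (-t - 1) ^ (2 * L + 1) = P1 at *
    generalize ((1 - w) * t - 1) ^ (2 * L + 1) = P2 at *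
    have f1' : f1 = (1 - w) * o2 + w * o1 := by linear_combination -n1
    have f2' : f2 = -((1 - w) ^ 2 * e2 + w ^ 2 * e1) := by
      linear_combination n2 + 2 * f2 * w_sq
    have s1 : (1 - w) * w ^ 2 * ((1 - t) * gt * (f1 * e2)) -
        (1 - w) ^ 2 * w * ((1 - t) * gt * (f2 * o2)) =
        3 * q * (1 - 2 * w) * P1 * (w ^ 2 * (o1 * e2) - w * (e1 * o2)) := by
      rw [a1, a2, b1, b2]
      linear_combination (P1 * P2 * w ^ 2 * v2) * m1 - (P1 * P2 * w * v1) * m2
    rw [f1', f2'] at s1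
    linear_combination (1 - w) * s1 + ((w ^ 4 * (e1 * o2) + w ^ 4 * (o2 * e2) - w ^ 3 * (o1 * e2)
      - 2 * w ^ 3 * (e1 * o2) - 3 * w ^ 3 * (o2 * e2) + w ^ 2 * (o1 * e2) + 3 * w ^ 2 * (o2 * e2)
      + w * (o1 * e2) + w * (e1 * o2) - w * (o2 * e2) + (e1 * o2)) * ((1 - t) * gt)
      + (2 * w ^ 2 * (o1 * e2) - w * (o1 * e2) - 2 * w * (e1 * o2) + (e1 * o2)) * (3 * q * P1)) * w_sq
  set Wp := C w * (fP 1 L).comp (C w * X) * (fP 2 L).comp (C (1 - w) * X) +
      (fP 2 L).comp (C w * X) * (fP 1 L).comp (C (1 - w) * X) with hWp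
  set Wm := C w * (fP 1 L).comp (C w * X) * (fP 2 L).comp (C (1 - w) * X) -
      (fP 2 L).comp (C w * X) * (fP 1 L).comp (C (1 - w) * X) with hWm
  set A : Polynomial ℂ := C (3 * q * (1 - 2 * w)) * (-X - 1) ^ (2 * L + 1) with hA
  have hder := congrArg (fun p => eval 1 (derivative p)) hid
  have hl : eval 1 (derivative ((1 - X) * g * Wp)) = -(g.eval 1 * Wp.eval 1) := by
    simp [derivative_mul]
  have hr : eval 1 (derivative (A * Wm)) = (derivative A).eval 1 * Wm.eval 1 +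
      A.eval 1 * (derivative Wm).eval 1 := by
    simp [derivative_mul]
  have vA : A.eval 1 = 3 * q * (1 - 2 * w) * (-2 * 2 ^ (2 * L)) := by
    rw [hA]
    simp only [eval_mul, eval_C, eval_pow, eval_sub, eval_neg, eval_X, eval_one]
    rw [show (-1 - 1 : ℂ) = -2 by norm_num, pow_succ, pow_mul (-2 : ℂ), pow_mul (2 : ℂ)]
    norm_num
    left; ring
  have vWp : Wp.eval 1 = w * (fP 1 L).eval w * (fP 2 L).eval (1 - w) +
      (fP 2 L).eval w * (fP 1 L).eval (1 - w) := by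
    rw [hWp]; simp
  have vWm : Wm.eval 1 = w * (fP 1 L).eval w * (fP 2 L).eval (1 - w) -
      (fP 2 L).eval w * (fP 1 L).eval (1 - w) := by
    rw [hWm]; simp
  have dWm : (derivative Wm).eval 1 =
      w * (w * (derivative (fP 1 L)).eval w * (fP 2 L).eval (1 - w) +
        (fP 1 L).eval w * ((1 - w) * (derivative (fP 2 L)).eval (1 - w))) -
      (w * (derivative (fP 2 L)).eval w * (fP 1 L).eval (1 - w) +
        (fP 2 L).eval w * ((1 - w) * (derivative (fP 1 L)).eval (1 - w))) := by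
    rw [hWm]
    simp [derivative_mul, derivative_comp]
    ring
  have sy1 := fP_symm 1 L (Or.inl rfl) w w_ne_zero
  have sy2 := fP_symm 2 L (Or.inr rfl) w w_ne_zero
  have sd1 := fP_symm_deriv 1 L (Or.inl rfl) w w_ne_zero
  have sd2 := fP_symm_deriv 2 L (Or.inr rfl) w w_ne_zero
  obtain ⟨z1, r1⟩ := fP_w 1 L (Or.inl rfl)
  obtain ⟨z2, r2⟩ := fP_w 2 L (Or.inr rfl)
  rw [w_inv] at sy1 sy2 sd1 sd2
  simp only [hl, hr] at hder
  rw [vA, vWp, vWm, dWm] at hder
  have hs : w ^ (3 * L) = (-1) ^ L := by rw [pow_mul, evB_w3]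
  have hss : ((-1 : ℂ) ^ L) * (-1) ^ L = 1 := by rw [← mul_pow]; norm_num
  rw [pow_add, hs, pow_one] at sy1 sd1
  rw [pow_add, hs] at sy2 sd2
  have hn : nT L 1 = -3 * q * 2 ^ (2 * L) := by
    unfold nT
    rw [mul_pow, ← hq]
    norm_num
    linear_combination (4 * (q * 2 ^ (2 * L))) * w_sq
  have hg1 : G.eval 1 = g.eval 1 := by rw [hg]; simp
  have hI : (Real.sqrt 3 : ℂ) = Complex.I * (1 - 2 * w) := by
    apply Complex.ext <;> simp [w]
    ring
  have hq0 : q ≠ 0 := pow_ne_zero _ (pow_ne_zero _ w_ne_zero)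
  rw [hg1, hn, div_eq_iff (by
    refine mul_ne_zero (mul_ne_zero (by norm_num) hq0) (pow_ne_zero _ (by norm_num)))]
  push_cast
  rw [hI]
  push_cast at r1 r2 sd1 sd2
  generalize (fP 1 L).eval w = g1 at *
  generalize (fP 2 L).eval w = g2 at *
  generalize (derivative (fP 1 L)).eval w = d1 at *
  generalize (derivative (fP 2 L)).eval w = d2 at *
  generalize (fP 1 L).eval (1 - w) = F1 at *
  generalize (fP 2 L).eval (1 - w) = F2 at *
  generalize (derivative (fP 1 L)).eval (1 - w) = D1 at *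
  generalize (derivative (fP 2 L)).eval (1 - w) = D2 at *
  generalize (derivative A).eval 1 = dA at *
  generalize g.eval 1 = gv at *
  generalize ((2:ℂ) ^ (2 * L)) = z4 at *
  generalize ((-1:ℂ) ^ L) = s at *
  generalize ((r 1 L : ℝ) : ℂ) = ra at *
  generalize ((r 2 L : ℝ) : ℂ) = rb at *
  generalize (L : ℂ) = l at *
  clear_value q
  have hF1 : F1 = -(s * (1 - w) * g1) := by
    linear_combination (s * (1 - w)) * sy1 - F1 * w * (1 - w) * hss - F1 * w_mul
  have hF2 : F2 = -(s * (1 - w) ^ 2 * g2) := by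
    linear_combination (s * (1 - w) ^ 2) * sy2 - F2 * (w * (1 - w)) ^ 2 * hss
      - F2 * (w * (1 - w) + 1) * w_mul
  have hE1 : (1 - w) * D1 = s * (1 - w) * (w * d1 - (3 * l + 1) * g1) := by
    linear_combination (s * (1 - w)) * sd1 - ((1 - w) * D1) * w * (1 - w) * hss
      - ((1 - w) * D1) * w_mul
  have hE2 : (1 - w) * D2 = s * (1 - w) ^ 2 * (w * d2 - (3 * l + 2) * g2) := by
    linear_combination (s * (1 - w) ^ 2) * sd2 - ((1 - w) * D2) * (w * (1 - w)) ^ 2 * hss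
      - ((1 - w) * D2) * (w * (1 - w) + 1) * w_mul
  rw [hE1, hE2, hF1, hF2] at hder
  have hh1 : 2 * w * d1 - (3 * l + 1) * g1 = -Complex.I * ra * g1 := by
    linear_combination -Complex.I * r1 + (2 * w * d1 - (3 * l + 1) * g1) * Complex.I_sq
  have hh2 : 2 * w * d2 - (3 * l + 2) * g2 = -Complex.I * rb * g2 := by
    linear_combination -Complex.I * r2 + (2 * w * d2 - (3 * l + 2) * g2) * Complex.I_sq
  refine mul_left_cancel₀ (mul_ne_zero z1 z2) ?_
  linear_combination (1 / 2) * (s * w * hder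
    - (6*w^2*(1-w)*s^2*g1*d2*q*z4*(1-2*w) - 6*w^2*(1-w)*s^2*g2*d1*q*z4*(1-2*w)
      - 18*w*(1-w)*s^2*g1*g2*l*q*z4*(1-2*w) + w*(1-w)*s^2*g1*g2*gv + w*(1-w)*s^2*g1*g2*dA
      - 12*w*(1-w)*s^2*g1*g2*q*z4*(1-2*w) + 12*w*s^2*g1*d2*q*z4*(1-2*w)
      - 12*w*s^2*g2*d1*q*z4*(1-2*w) + 2*s^2*g1*g2*gv - 6*s^2*g1*g2*q*z4*(1-2*w)) * w_mul
    - (12*w*g1*d2*q*z4*(1-2*w) - 12*w*g2*d1*q*z4*(1-2*w) + 2*g1*g2*gv
      - 6*g1*g2*q*z4*(1-2*w)) * hss
    - 6 * q * (1 - 2 * w) * z4 * (g1 * hh2 - g2 * hh1))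

end CC
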