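import Pool.Agent.Helper9.CC.Defs
import Pool.Agent.Helper66.CrossAsym

/-! Asymptotics (module ASYM); see Pool/Agent/Helper66/CrossAsym.lean. -/

namespace CC
open Filter Topology CrossAsym

theorem AE_odd' (k : ℕ) : AE (2 * k + 1) = (6 * k + 5) * WE k / 2 := by
  have h : AE (2 * k + 1) = AE (2 * k) * (mE (2 * k) / (mE (2 * k) - 3)) := by
    unfold AE; rw [Finset.prod_range_succ]
  have hk : (0 : ℝ) ≤ k := Nat.cast_nonneg k
  rw [h, AE_even, mE_even]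
  have e1 : (6 * (k : ℝ) + 5 - 3) = 6 * k + 2 := by ring
  rw [e1]
  field_simp
  ring

theorem BE_odd' (k : ℕ) : BE (2 * k + 1) = (6 * k + 4) / WE k := by
  have h : BE (2 * k + 1) = BE (2 * k) * (nE (2 * k) / (nE (2 * k) - 3)) := by
    unfold BE; rw [Finset.prod_range_succ]
  have hk : (0 : ℝ) ≤ k := Nat.cast_nonneg k
  have hW := (WE_pos k).ne'
  rw [h, BE_even, nE_even]
  have e1 : (6 * (k : ℝ) + 4 - 3) = 6 * k + 1 := by ring
  rw [e1]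
  field_simp

theorem r_even (k : ℕ) : r 1 (2 * k) = √3 * ((3 * k + 1) * WE k) ∧
    r 2 (2 * k) = 2 / √3 * ((6 * k + 1) / WE k) := by
  have h3 : (√3 : ℝ) * √3 = 3 := Real.mul_self_sqrt (by norm_num)
  have hs : (√3 : ℝ) ≠ 0 := by positivity
  induction k with
  | zero => simp [r, WE]
  | succ k ih =>
    obtain ⟨ih1, ih2⟩ := ih
    have hW := (WE_pos k).ne'
    have hk : (0 : ℝ) ≤ k := Nat.cast_nonneg k
    have e : 2 * (k + 1) = 2 * k + 1 + 1 := by ring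
    rw [e, WE_succ]
    refine ⟨?_, ?_⟩
    · change (9 * (((2 * k + 1 : ℕ):ℝ) + 1) ^ 2 - ((1 : ℕ):ℝ) ^ 2) /
        ((9 * (((2 * k : ℕ):ℝ) + 1) ^ 2 - ((1 : ℕ):ℝ) ^ 2) / r 1 (2 * k)) = _
      rw [ih1]
      have e1 : (9 * (((2 * k : ℕ):ℝ) + 1) ^ 2 - ((1 : ℕ):ℝ) ^ 2) = (6 * k + 2) * (6 * k + 4) := by
        push_cast; ring
      have e2 : (9 * (((2 * k + 1 : ℕ):ℝ) + 1) ^ 2 - ((1 : ℕ):ℝ) ^ 2) =
        (6 * k + 5) * (6 * k + 7) := by
        push_cast; ring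
      rw [e1, e2]
      push_cast
      field_simp
      ring
    · change (9 * (((2 * k + 1 : ℕ):ℝ) + 1) ^ 2 - ((2 : ℕ):ℝ) ^ 2) /
        ((9 * (((2 * k : ℕ):ℝ) + 1) ^ 2 - ((2 : ℕ):ℝ) ^ 2) / r 2 (2 * k)) = _
      rw [ih2]
      have e1 : (9 * (((2 * k : ℕ):ℝ) + 1) ^ 2 - ((2 : ℕ):ℝ) ^ 2) = (6 * k + 1) * (6 * k + 5) := by
        push_cast; ring
      have e2 : (9 * (((2 * k + 1 : ℕ):ℝ) + 1) ^ 2 - ((2 : ℕ):ℝ) ^ 2) =
        (6 * k + 4) * (6 * k + 8) := by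
        push_cast; ring
      rw [e1, e2]
      push_cast
      field_simp
      ring

theorem r_odd (k : ℕ) : r 1 (2 * k + 1) = 2 / √3 * BE (2 * k + 1) ∧
    r 2 (2 * k + 1) = √3 * AE (2 * k + 1) := by
  have h3 : (√3 : ℝ) * √3 = 3 := Real.mul_self_sqrt (by norm_num)
  have hs : (√3 : ℝ) ≠ 0 := by positivity
  have hW := (WE_pos k).ne'
  have hk : (0 : ℝ) ≤ k := Nat.cast_nonneg k
  rw [AE_odd', BE_odd']
  refine ⟨?_, ?_⟩
  · change (9 * (((2 * k : ℕ):ℝ) + 1) ^ 2 - ((1 : ℕ):ℝ) ^ 2) / r 1 (2 * k) = _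
    rw [(r_even k).1]
    have e1 : (9 * (((2 * k : ℕ):ℝ) + 1) ^ 2 - ((1 : ℕ):ℝ) ^ 2) = (6 * k + 2) * (6 * k + 4) := by
      push_cast; ring
    rw [e1]
    field_simp
    ring
  · change (9 * (((2 * k : ℕ):ℝ) + 1) ^ 2 - ((2 : ℕ):ℝ) ^ 2) / r 2 (2 * k) = _
    rw [(r_even k).2]
    have e1 : (9 * (((2 * k : ℕ):ℝ) + 1) ^ 2 - ((2 : ℕ):ℝ) ^ 2) = (6 * k + 1) * (6 * k + 5) := by
      push_cast; ring
    rw [e1]
    field_simp

theorem r_pE (L : ℕ) : √3 * (r 1 L - r 2 L) = pE L := by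
  have h3 : (√3 : ℝ) * √3 = 3 := Real.mul_self_sqrt (by norm_num)
  have hs : (√3 : ℝ) ≠ 0 := by positivity
  rcases Nat.even_or_odd L with ⟨k, hk⟩ | ⟨k, hk⟩
  · have e : L = 2 * k := by omega
    subst e
    rw [(r_even k).1, (r_even k).2, ← AE_even, ← BE_even]
    unfold pE
    rw [pow_mul]
    norm_num
    field_simp
    linear_combination (2 * AE (2 * k)) * h3
  · subst hk
    rw [(r_odd k).1, (r_odd k).2]
    unfold pE
    rw [pow_succ, pow_mul]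
    norm_num
    field_simp
    linear_combination (- 2 * AE (2 * k + 1)) * h3

theorem asym : Tendsto (fun L : ℕ => (L:ℝ) * (Real.sqrt 3 * (r 1 L - r 2 L))) atTop
    (𝓝 (Real.sqrt 3 / 2)) := by
  simp only [r_pE]
  exact pE_lim

end CC
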