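import Pool.Agent.Helper9.CC.Lin

/-! Reflection equations (module REFL). -/

namespace CC

/-- reflection equation at the left wall; uses the relations `DDE01`, `DDE10`, `DDE12`, `DDE21` -/
theorem refl_left (z z' : ℂ) (x : M) :
    D (D (KL 2 z (KL 0 z' (R 1 1 (z * z') (R 2 z z' x))))) =
      D (D (KL 2 z' (KL 0 z (R 1 1 (z * z') (R 0 z z' x))))) := by
  have c : ∀ y : M, E 2 (E 0 y) = E 0 (E 2 y) := fun y => (E_comm (show 0 + 2 ≤ 2 by norm_num) y).symm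
  have s0 : ∀ y : M, E 0 (E 1 (E 0 y)) = E 0 y := E_succ 0
  have p1 : ∀ y : M, E 2 (E 1 (E 2 y)) = E 2 y := E_pred 1
  simp only [KL_apply, R_apply, map_add, map_smul, E_E, c, s0, p1, DDE01, DDE10, DDE12, DDE21]
  match_scalars
  · ring
  · linear_combination (w * z - 2 * w * z * z' ^ 2 + w * z * z' ^ 3 - w * z ^ 2 + 2 * w * z ^ 2 * z' - w * z ^ 2 * z' ^ 3 - w * z ^ 3 * z' + w * z ^ 3 * z' ^ 2 - w * z' + w * z' ^ 2 - 2 * z + z * z' ^ 2 + z * z' ^ 3 + 2 * z ^ 2 - z ^ 2 * z' - z ^ 2 * z' ^ 3 - z ^ 3 * z' + z ^ 3 * z' ^ 2 + 2 * z' - 2 * z' ^ 2) * w_sq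
  · linear_combination (-w * z + 2 * w * z * z' ^ 2 - w * z * z' ^ 3 + w * z ^ 2 - 2 * w * z ^ 2 * z' + w * z ^ 2 * z' ^ 3 + w * z ^ 3 * z' - w * z ^ 3 * z' ^ 2 + w * z' - w * z' ^ 2 + 2 * z - z * z' ^ 2 - z * z' ^ 3 - 2 * z ^ 2 + z ^ 2 * z' + z ^ 2 * z' ^ 3 + z ^ 3 * z' - z ^ 3 * z' ^ 2 - 2 * z' + 2 * z' ^ 2) * w_sq
  · ring
  · ring
  · ring

/-- reflection equation at the right wall, on the vectors with a reservoir -/
theorem refl_right (L : ℕ) (z z' : ℂ) {x : M} (hx : x ∈ Rs L) :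
    R L z' z (R (L + 1) (z * z') 1 (KR (L + 2) z' (KR L z x))) =
      R (L + 2) z' z (R (L + 1) (z * z') 1 (KR (L + 2) z (KR L z' x))) := by
  obtain ⟨h1, h2, -⟩ := hx
  have c : ∀ y : M, E (L + 2) (E L y) = E L (E (L + 2) y) := fun y => (E_comm (show L + 2 ≤ L + 2 from le_rfl) y).symm
  have a1 : ∀ y : M, E L (E (L + 1) (E L y)) = E L y := E_succ L
  have a2 : ∀ y : M, E (L + 1) (E (L + 2) (E (L + 1) y)) = E (L + 1) y := E_succ (L + 1)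
  have a3 : ∀ y : M, E (L + 1) (E L (E (L + 1) y)) = E (L + 1) y := E_pred L
  have a4 : ∀ y : M, E (L + 2) (E (L + 1) (E (L + 2) y)) = E (L + 2) y := E_pred (L + 1)
  have r1 : E (L + 1) (E L x) = E (L + 1) x := h1 L le_rfl
  have r2 : E (L + 2) (E (L + 1) x) = E (L + 2) x := h1 (L + 1) (by omega)
  have r3 : E L (E (L + 1) x) = E L x := h2 L le_rfl
  have r4 : E (L + 1) (E (L + 2) x) = E (L + 1) x := h2 (L + 1) (by omega)
  have a5 : ∀ y : M, E (L + 2) (E (L + 1) (E L (E (L + 2) y))) = E L (E (L + 2) y) := fun y => by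
    rw [← c, a4]
  simp only [KR_apply, R_apply, map_add, map_smul, E_E, c, a1, a5, r1, r2, r3, r4]
  match_scalars
  · ring
  · linear_combination (-w * z + 2 * w * z * z' ^ 2 - w * z * z' ^ 3 + w * z ^ 2 - 2 * w * z ^ 2 * z' + w * z ^ 2 * z' ^ 3 + w * z ^ 3 * z' - w * z ^ 3 * z' ^ 2 + w * z' - w * z' ^ 2 - z - z * z' ^ 2 + 2 * z * z' ^ 3 + z ^ 2 + z ^ 2 * z' - 2 * z ^ 2 * z' ^ 3 - 2 * z ^ 3 * z' + 2 * z ^ 3 * z' ^ 2 + z' - z' ^ 2) * w_sq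
  · ring
  · linear_combination (w * z - 2 * w * z * z' ^ 2 + w * z * z' ^ 3 - w * z ^ 2 + 2 * w * z ^ 2 * z' - w * z ^ 2 * z' ^ 3 - w * z ^ 3 * z' + w * z ^ 3 * z' ^ 2 - w * z' + w * z' ^ 2 + z + z * z' ^ 2 - 2 * z * z' ^ 3 - z ^ 2 - z ^ 2 * z' + 2 * z ^ 2 * z' ^ 3 + 2 * z ^ 3 * z' - 2 * z ^ 3 * z' ^ 2 - z' + z' ^ 2) * w_sq
  · ring
  · ring
end CC
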