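import Pool.Agent.Helper9.CC.RR
import Pool.Agent.Helper9.CC.Refl

/-! Commutation of the transfer matrices (module COMM). -/

namespace CC

theorem KL_row_comm (j o k : ℕ) (z p q : ℂ) (h : j + 2 ≤ o) (x : M) :
    KL j z (row o p q k x) = row o p q k (KL j z x) := by
  simp only [KL_apply, map_add, map_smul, E_row_comm o k p q h]

theorem row_KR_comm (j o k : ℕ) (z p q : ℂ) (h : o + k + 1 ≤ j) (x : M) :
    row o p q k (KR j z x) = KR j z (row o p q k x) := by
  simp only [KR_apply, map_add, map_smul, row_E_comm o k p q h]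

theorem KL_KR_comm (i j : ℕ) (z z' : ℂ) (h : i + 2 ≤ j) (x : M) :
    KL i z (KR j z' x) = KR j z' (KL i z x) := by
  simp only [KL_apply, KR_apply, map_add, map_smul, E_comm h]
  module

theorem KR_comm (i j : ℕ) (z z' : ℂ) (h : i + 2 ≤ j) (x : M) :
    KR i z (KR j z' x) = KR j z' (KR i z x) := by
  simp only [KR_apply, map_add, map_smul, E_comm h]
  module

theorem D_KL (i : ℕ) (z : ℂ) (x : M) : D (KL (i + 2) z x) = KL i z (D x) := by
  simp only [KL_apply, map_add, map_smul, D_E]

theorem D_KR (i : ℕ) (z : ℂ) (x : M) : D (KR (i + 2) z x) = KR i z (D x) := by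
  simp only [KR_apply, map_add, map_smul, D_E]

theorem T_T (L : ℕ) (z z' : ℂ) (x : M) :
    T L z' (T L z x) = D (D (KL 2 z' (KL 0 z (row 3 w z' L (row 2 (w * z') 1 L (row 1 w z L
      (row 0 (w * z) 1 L (KR (L + 2) z' (KR L z x))))))))) := by
  rw [T_apply, T_apply]
  rw [← D_KR, ← D_row, ← D_row, ← D_KL]
  rw [KL_row_comm 0 3 L z _ _ (by omega), KL_row_comm 0 2 L z _ _ (by omega),
    row_KR_comm (L + 2) 0 L z' _ _ (by omega), row_KR_comm (L + 2) 1 L z' _ _ (by omega),
    KL_KR_comm 0 (L + 2) z z' (by omega)]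

theorem R_smul_arg (i : ℕ) (c p q : ℂ) (x : M) : R i (c * p) (c * q) x = c • R i p q x := by
  simp only [R_apply]
  module

/-- exchange of two neighbouring rows, in terms of the ratio of the spectral parameters -/
theorem row_exchange' (o k : ℕ) (p' q' p q c a b : ℂ) (hc : c ≠ 0) (h1 : p' * q = c * a)
    (h2 : q' * p = c * b) (x : M) :
    R o a b (row (o + 1) p' q' k (row o p q k x)) =
      row (o + 1) p q k (row o p' q' k (R (o + k) a b x)) := by
  have h := row_exchange o k p' q' p q x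
  rw [h1, h2, R_smul_arg, R_smul_arg, map_smul, map_smul] at h
  exact smul_right_injective _ hc h

/-- the transfer matrices commute on the vectors with a reservoir.  Proof: insert
`R 1 1 (z z') R 0 z z' R 0 z' z R 1 (z z') 1 = scalar`, move `R 1 (z z') 1` and `R 0 z' z` through
the rows (`row_exchange`), use `refl_left` and `refl_right`, move back. -/
theorem T_comm (L : ℕ) (z z' : ℂ) {x : M} (hx : x ∈ Rs L)
    (h1 : (w * z - (1 - w) * z') * (w * z' - (1 - w) * z) ≠ 0)
    (h2 : (w * (z * z') - (1 - w)) * (w - (1 - w) * (z * z')) ≠ 0) :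
    T L z (T L z' x) = T L z' (T L z x) := by
  set c1 := (w * z - (1 - w) * z') * (w * z' - (1 - w) * z) with hc1
  set c2 := (w * (z * z') - (1 - w)) * (w - (1 - w) * (z * z')) with hc2
  have hw := w_ne_zero
  -- the key computation
  have key : (c1 * c2) • T L z' (T L z x) = (c1 * c2) • T L z (T L z' x) := by
    rw [T_T L z z' x]
    set y := KR (L + 2) z' (KR L z x) with hy
    set y' := KR (L + 2) z (KR L z' x) with hy'
    have e1 : ∀ u : M, R 1 1 (z * z') (R 0 z z' (R 0 z' z (R 1 (z * z') 1 u))) = (c1 * c2) • u := by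
      intro u
      rw [R_inv, map_smul, R_inv, smul_smul]
      congr 1
      rw [hc1, hc2]; ring
    have e2 := e1 (row 3 w z' L (row 2 (w * z') 1 L (row 1 w z L (row 0 (w * z) 1 L y))))
    have e3 : (c1 * c2) • D (D (KL 2 z' (KL 0 z (row 3 w z' L (row 2 (w * z') 1 L (row 1 w z L
      (row 0 (w * z) 1 L y))))))) = D (D (KL 2 z' (KL 0 z (R 1 1 (z * z') (R 0 z z'
        (R 0 z' z (R 1 (z * z') 1 (row 3 w z' L (row 2 (w * z') 1 L (row 1 w z L
      (row 0 (w * z) 1 L y))))))))))) := by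
      rw [e2]; simp only [map_smul]
    rw [e3]
    -- move R 1 through rows 3; 2,1; 0
    rw [R_row_comm 3 L _ _ _ _ (by omega : 1 + 2 ≤ 3),
      row_exchange' 1 L (w * z') 1 w z w (z * z') 1 hw (by ring) (by ring),
      ← row_R_comm 0 L _ _ _ _ (by omega : 0 + L + 1 ≤ 1 + L)]
    rw [R_row_comm 3 L _ _ _ _ (by omega : 0 + 2 ≤ 3), R_row_comm 2 L _ _ _ _ (by omega : 0 + 2 ≤ 2),
      row_exchange' 0 L (w * z') 1 (w * z) 1 w z' z hw (by ring) (by ring)]
    rw [← refl_left]
    rw [row_exchange' 2 L w z' w z w z z' hw (by ring) (by ring),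
      ← row_R_comm 1 L _ _ _ _ (by omega : 1 + L + 1 ≤ 2 + L),
      ← row_R_comm 0 L _ _ _ _ (by omega : 0 + L + 1 ≤ 2 + L)]
    rw [show 0 + L = L by ring, show 1 + L = L + 1 by ring, show 2 + L = L + 2 by ring, hy,
      refl_right L z z' hx, ← hy', R_inv]
    rw [R_row_comm 3 L _ _ _ _ (by omega : 1 + 2 ≤ 3)]
    simp only [map_smul]
    rw [row_exchange' 1 L w z' (w * z) 1 w 1 (z * z') hw (by ring) (by ring),
      ← row_R_comm 0 L _ _ _ _ (by omega : 0 + L + 1 ≤ 1 + L),
      show 1 + L = L + 1 by ring, R_inv]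
    simp only [map_smul]
    rw [T_T L z' z x, ← hy', smul_smul]
    congr 1
    rw [hc1, hc2]; ring
  exact (smul_right_injective _ (mul_ne_zero h1 h2) key).symm

end CC
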