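import Mathlib
import Pool.Agent.Lead.IP.Defs

/-!
Crossing clusters (CC), definitions.

Sites of the front are natural numbers.  A front state `Fr` is a partition of the sites together
with the (saturated) set `A` of the sites whose cluster touches the left wall and the (saturated)
set `B` of the sites whose cluster touches the right wall.  A state `Q` is a front state together
with an integer, the number of finished clusters which touch both walls (finished: they do not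
contain a site of the front any more).

`act (2k)` detaches the site `k`, `act (2k+1)` joins the sites `k` and `k+1`; `Dm` marks the
cluster of the site `0` with `A` and then forgets the site `0`.

Everything is homogeneous and the spectral parameter is the complex number `z = exp (2 i v)`.
`w = exp (i π / 3)`, `w ^ 2 = w - 1`, `w⁻¹ = 1 - w`.
-/

namespace CC
open Finset

@[ext] structure Fr where
  s : Setoid ℕ
  A : Set ℕ
  B : Set ℕ
  hA : ∀ x y, s x y → x ∈ A → y ∈ A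
  hB : ∀ x y, s x y → x ∈ B → y ∈ B

abbrev Q := Fr × ℤ

/-- the site `k` is a singleton of the partition -/
def lone (X : Fr) (k : ℕ) : Prop := ∀ y, X.s k y → y = k

theorem join_sat (j k : ℕ) (s : Setoid ℕ) (C : Set ℕ) (hC : ∀ x y, s x y → x ∈ C → y ∈ C) :
    ∀ x y, IP.join j k s x y → x ∈ {x | x ∈ C ∨ (s x j ∧ k ∈ C) ∨ (s x k ∧ j ∈ C)} →
      y ∈ {x | x ∈ C ∨ (s x j ∧ k ∈ C) ∨ (s x k ∧ j ∈ C)} := by
  rintro x y (h | ⟨h1, h2⟩ | ⟨h1, h2⟩) (h' | ⟨h3, h4⟩ | ⟨h3, h4⟩)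
  · exact Or.inl (hC _ _ h h')
  · exact Or.inr (Or.inl ⟨s.trans (s.symm h) h3, h4⟩)
  · exact Or.inr (Or.inr ⟨s.trans (s.symm h) h3, h4⟩)
  · exact Or.inr (Or.inr ⟨s.symm h2, hC _ _ h1 h'⟩)
  · exact Or.inl (hC _ _ h2 h4)
  · exact Or.inl (hC _ _ (s.trans (s.trans (s.symm h1) h3) h2) h4)
  · exact Or.inr (Or.inl ⟨s.symm h2, hC _ _ h1 h'⟩)
  · exact Or.inl (hC _ _ (s.trans (s.trans (s.symm h1) h3) h2) h4)
  · exact Or.inl (hC _ _ h2 h4)

/-- the site `k` becomes an unmarked singleton -/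
def detF (k : ℕ) (X : Fr) : Fr where
  s := IP.detach k X.s
  A := {x | x ∈ X.A ∧ x ≠ k}
  B := {x | x ∈ X.B ∧ x ≠ k}
  hA := by
    rintro x y (rfl | ⟨h1, h2, h3⟩) ⟨h4, h5⟩
    · exact ⟨h4, h5⟩
    · exact ⟨X.hA _ _ h3 h4, h2⟩
  hB := by
    rintro x y (rfl | ⟨h1, h2, h3⟩) ⟨h4, h5⟩
    · exact ⟨h4, h5⟩
    · exact ⟨X.hB _ _ h3 h4, h2⟩

/-- the blocks of `j` and `k` are joined, the marks are united -/
def joinF (j k : ℕ) (X : Fr) : Fr where
  s := IP.join j k X.s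
  A := {x | x ∈ X.A ∨ (X.s x j ∧ k ∈ X.A) ∨ (X.s x k ∧ j ∈ X.A)}
  B := {x | x ∈ X.B ∨ (X.s x j ∧ k ∈ X.B) ∨ (X.s x k ∧ j ∈ X.B)}
  hA := join_sat j k X.s X.A X.hA
  hB := join_sat j k X.s X.B X.hB

/-- the cluster of the site `0` is marked with `A`, then the site `0` is forgotten -/
def dropF (X : Fr) : Fr where
  s := Setoid.comap Nat.succ X.s
  A := {x | x + 1 ∈ X.A ∨ X.s (x + 1) 0}
  B := {x | x + 1 ∈ X.B}
  hA := by
    rintro x y h (h' | h')
    · exact Or.inl (X.hA _ _ h h')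
    · exact Or.inr (X.s.trans (X.s.symm h) h')
  hB := fun x y h h' => X.hB _ _ h h'

open Classical in
/-- Temperley-Lieb generator number `i` -/
noncomputable def act (i : ℕ) (X : Q) : Q :=
  if i % 2 = 0 then
    (detF (i / 2) X.1, X.2 + if lone X.1 (i / 2) ∧ i / 2 ∈ X.1.A ∧ i / 2 ∈ X.1.B then 1 else 0)
  else (joinF (i / 2) (i / 2 + 1) X.1, X.2)

open Classical in
/-- mark the cluster of the site `0` with `A` and forget the site `0` -/
noncomputable def Dm (X : Q) : Q :=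
  (dropF X.1, X.2 + if lone X.1 0 ∧ 0 ∈ X.1.B then 1 else 0)

/-- one more finished crossing cluster -/
def sh (X : Q) : Q := (X.1, X.2 + 1)

/-- initial front: all sites are singletons, belong to `B` and not to `A` -/
def F0 : Fr where
  s := ⊥
  A := ∅
  B := Set.univ
  hA := fun _ _ _ h => h
  hB := fun _ _ _ _ => trivial

noncomputable section

/-- vectors: formal complex linear combinations of states -/
abbrev M := Q →₀ ℂ

/-- total mass -/
def tot : M →ₗ[ℂ] ℂ := Finsupp.lsum ℂ (fun _ => LinearMap.id)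
/-- the number of finished crossing clusters, integrated -/
def cn : M →ₗ[ℂ] ℂ := Finsupp.lsum ℂ (fun X : Q => (X.2 : ℂ) • LinearMap.id)

def E (i : ℕ) : M →ₗ[ℂ] M := Finsupp.lmapDomain ℂ ℂ (act i)
def D : M →ₗ[ℂ] M := Finsupp.lmapDomain ℂ ℂ Dm
def Xi : M →ₗ[ℂ] M := Finsupp.lmapDomain ℂ ℂ sh

/-- the initial vector -/
def x0 : M := Finsupp.single (F0, 0) 1

/-- `exp (i π / 3)` -/
def w : ℂ := ⟨1 / 2, Real.sqrt 3 / 2⟩

/-- the `R`-matrix with spectral parameter `p / q = exp (2 i u)` (times `2 i q exp (i u)`) -/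
def R (i : ℕ) (p q : ℂ) : M →ₗ[ℂ] M := (w * q - (1 - w) * p) • LinearMap.id + (p - q) • E i

/-- left boundary operator -/
def KL (j : ℕ) (z : ℂ) : M →ₗ[ℂ] M := ((1 + w) * z - (2 - w)) • LinearMap.id + (1 - z) • E j
/-- right boundary operator -/
def KR (j : ℕ) (z : ℂ) : M →ₗ[ℂ] M := ((1 + w) - (2 - w) * z) • LinearMap.id + (z - 1) • E j

/-- `R off p q ∘ R (off+1) p q ∘ ... ∘ R (off+k-1) p q` -/
def row (off : ℕ) (p q : ℂ) : ℕ → M →ₗ[ℂ] M
  | 0 => LinearMap.id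
  | k + 1 => row off p q k ∘ₗ R (off + k) p q

/-- `E off ∘ E (off+1) ∘ ... ∘ E (off+k-1)` -/
def Erow (off : ℕ) : ℕ → M →ₗ[ℂ] M
  | 0 => LinearMap.id
  | k + 1 => Erow off k ∘ₗ E (off + k)

/-- the double row transfer matrix of the strip of width `L` (not normalised) -/
def T (L : ℕ) (z : ℂ) : M →ₗ[ℂ] M :=
  D ∘ₗ KL 0 z ∘ₗ row 1 w z L ∘ₗ row 0 (w * z) 1 L ∘ₗ KR L z

/-- `tot (T L z x) = nT L z * tot x` -/
def nT (L : ℕ) (z : ℂ) : ℂ := (w * z - (1 - w)) * (w - (1 - w) * z) * (w ^ 2 * (1 + z)) ^ (2 * L)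

/-- the vectors with a reservoir on the right (strands `≥ L`) -/
def Rs (L : ℕ) : Submodule ℂ M where
  carrier := {x | (∀ i, L ≤ i → E (i + 1) (E i x) = E (i + 1) x) ∧
    (∀ i, L ≤ i → E i (E (i + 1) x) = E i x) ∧ ∀ m, L ≤ m → D (Erow 0 (m + 1) x) = x}
  add_mem' := by
    rintro x y ⟨h1, h2, h3⟩ ⟨h4, h5, h6⟩
    refine ⟨fun i hi => ?_, fun i hi => ?_, fun m hm => ?_⟩
    · simp only [map_add, h1 i hi, h4 i hi]
    · simp only [map_add, h2 i hi, h5 i hi]
    · simp only [map_add, h3 m hm, h6 m hm]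
  zero_mem' := by
    refine ⟨fun i hi => ?_, fun i hi => ?_, fun m hm => ?_⟩ <;> simp only [map_zero]
  smul_mem' := by
    rintro c x ⟨h1, h2, h3⟩
    refine ⟨fun i hi => ?_, fun i hi => ?_, fun m hm => ?_⟩
    · simp only [map_smul, h1 i hi]
    · simp only [map_smul, h2 i hi]
    · simp only [map_smul, h3 m hm]

/-- the stochastic transfer matrix -/
def Ts (L : ℕ) : M →ₗ[ℂ] M := (nT L 1)⁻¹ • T L 1

/-- the law after `N` double rows -/
def mu (L N : ℕ) : M := ((Ts L) ^ N) x0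

/-- polynomial families of operators -/
def PF (d : ℕ) (A : ℂ → M →ₗ[ℂ] M) : Prop :=
  ∃ c : ℕ → M →ₗ[ℂ] M, ∀ z, A z = ∑ k ∈ range (d + 1), z ^ k • c k

/-- `√3 (r 1 L - r 2 L)` is the density of the crossing clusters (per double row) -/
def r (a : ℕ) : ℕ → ℝ
  | 0 => if a = 1 then Real.sqrt 3 else 2 / Real.sqrt 3
  | L + 1 => (9 * ((L:ℝ) + 1) ^ 2 - (a:ℝ) ^ 2) / r a L

end
end CC
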