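import Pool.Agent.Helper9.CC.Doeb

/-! Percolation and states, elementary moves (module DICTA).
Compare Pool/Agent/Helper92/Perc/PercDefs.lean and Sweep.lean (there: wired right wall, no marks). -/

namespace CC
open Finset

abbrev V := ℤ × ℤ

/-- connectivity in the configuration `ω` (the set of the open edges) -/
def cl (ω : Finset (Sym2 V)) : Setoid V := Relation.EqvGen.setoid (fun u v => s(u, v) ∈ ω)

/-- the front state seen from `f`; `WL`: the vertices of the left wall already passed; the right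
wall is `x + y = L` -/
def stF (L : ℤ) (WL : Finset V) (f : ℕ → V) (ω : Finset (Sym2 V)) : Fr where
  s := Setoid.comap f (cl ω)
  A := {k | ∃ u ∈ WL, cl ω u (f k)}
  B := {k | ∃ u : V, u.1 + u.2 = L ∧ cl ω u (f k)}
  hA := fun x y h ⟨u, hu, h'⟩ => ⟨u, hu, Setoid.trans' _ h' h⟩
  hB := fun x y h ⟨u, hu, h'⟩ => ⟨u, hu, Setoid.trans' _ h' h⟩

/-- the finished crossing clusters -/
def fin (L : ℤ) (WL : Finset V) (f : ℕ → V) (ω : Finset (Sym2 V)) : Set (Set V) :=
  {S | (∃ u ∈ WL, S = {v | cl ω u v}) ∧ (∃ u ∈ S, u.1 + u.2 = L) ∧ ∀ k, f k ∉ S}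

noncomputable def stQ (L : ℤ) (WL : Finset V) (f : ℕ → V) (ω : Finset (Sym2 V)) : Q :=
  (stF L WL f ω, ((fin L WL f ω).ncard : ℤ))

theorem fin_finite (L : ℤ) (WL : Finset V) (f : ℕ → V) (ω : Finset (Sym2 V)) :
    (fin L WL f ω).Finite := by
  refine Set.Finite.subset ((WL.finite_toSet).image (fun u => {v | cl ω u v})) ?_
  rintro S ⟨⟨u, hu, rfl⟩, _⟩
  exact ⟨u, hu, rfl⟩

/-! ### connectivity after adding an edge -/

theorem dA_insert {ω : Finset (Sym2 V)} {u v x y : V} : cl (insert s(u, v) ω) x y ↔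
    (cl ω x y ∨ (cl ω x u ∧ cl ω v y) ∨ (cl ω x v ∧ cl ω u y)) := by
  constructor
  · intro h
    let R : Setoid V :=
      { r := fun x y => cl ω x y ∨ (cl ω x u ∧ cl ω v y) ∨ (cl ω x v ∧ cl ω u y)
        iseqv := by
          refine ⟨fun x => Or.inl ((cl ω).refl x), ?_, ?_⟩
          · rintro x y (h | ⟨h1, h2⟩ | ⟨h1, h2⟩)
            · exact Or.inl ((cl ω).symm h)
            · exact Or.inr (Or.inr ⟨(cl ω).symm h2, (cl ω).symm h1⟩)
            · exact Or.inr (Or.inl ⟨(cl ω).symm h2, (cl ω).symm h1⟩)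
          · rintro x y z (h | ⟨h1, h2⟩ | ⟨h1, h2⟩) (h' | ⟨h3, h4⟩ | ⟨h3, h4⟩)
            · exact Or.inl ((cl ω).trans h h')
            · exact Or.inr (Or.inl ⟨(cl ω).trans h h3, h4⟩)
            · exact Or.inr (Or.inr ⟨(cl ω).trans h h3, h4⟩)
            · exact Or.inr (Or.inl ⟨h1, (cl ω).trans h2 h'⟩)
            · exact Or.inr (Or.inl ⟨h1, h4⟩)
            · exact Or.inl ((cl ω).trans h1 h4)
            · exact Or.inr (Or.inr ⟨h1, (cl ω).trans h2 h'⟩)
            · exact Or.inl ((cl ω).trans h1 h4)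
            · exact Or.inr (Or.inr ⟨h1, h4⟩) }
    have hR : cl (insert s(u, v) ω) ≤ R := by
      apply Setoid.eqvGen_le
      intro x y hxy
      rw [mem_insert, Sym2.eq_iff] at hxy
      rcases hxy with (⟨rfl, rfl⟩ | ⟨rfl, rfl⟩) | hxy
      · exact Or.inr (Or.inl ⟨(cl ω).refl _, (cl ω).refl _⟩)
      · exact Or.inr (Or.inr ⟨(cl ω).refl _, (cl ω).refl _⟩)
      · exact Or.inl (Relation.EqvGen.rel _ _ hxy)
    exact hR h
  · have hm : cl ω ≤ cl (insert s(u, v) ω) := by
      apply Setoid.eqvGen_le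
      intro x y hxy
      exact Relation.EqvGen.rel _ _ (mem_insert_of_mem hxy)
    have he : cl (insert s(u, v) ω) u v := Relation.EqvGen.rel _ _ (mem_insert_self _ _)
    rintro (h | ⟨h1, h2⟩ | ⟨h1, h2⟩)
    · exact hm h
    · exact Setoid.trans' _ (hm h1) (Setoid.trans' _ he (hm h2))
    · exact Setoid.trans' _ (hm h1) (Setoid.trans' _ (Setoid.symm' _ he) (hm h2))

/-- a vertex that is not touched by `ω` is isolated -/
theorem dA_iso {ω : Finset (Sym2 V)} {v : V} (h1 : ∀ u, s(v, u) ∉ ω) {u : V} (h : cl ω v u) : u = v := by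
  let S : Setoid V :=
    { r := fun x y => x = y ∨ (x ≠ v ∧ y ≠ v)
      iseqv := by
        refine ⟨fun x => Or.inl rfl, ?_, ?_⟩
        · rintro x y (rfl | ⟨h1, h2⟩)
          · exact Or.inl rfl
          · exact Or.inr ⟨h2, h1⟩
        · rintro x y z (rfl | ⟨h1, h2⟩) (rfl | ⟨h3, h4⟩)
          · exact Or.inl rfl
          · exact Or.inr ⟨h3, h4⟩
          · exact Or.inr ⟨h1, h2⟩
          · exact Or.inr ⟨h1, h4⟩ }
  have hS : cl ω ≤ S := by
    apply Setoid.eqvGen_le
    intro x y he
    refine Or.inr ⟨?_, ?_⟩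
    · rintro rfl
      exact h1 _ he
    · rintro rfl
      rw [Sym2.eq_swap] at he
      exact h1 _ he
  rcases hS h with h | ⟨h, _⟩
  · exact h.symm
  · exact absurd rfl h

theorem dA_iso' {ω : Finset (Sym2 V)} {v : V} (h1 : ∀ u, s(v, u) ∉ ω) {u : V} (h : cl ω u v) : u = v :=
  dA_iso h1 ((cl ω).symm h)

open Classical in
theorem dA_ncard {α : Type*} {A B : Set α} (hA : A.Finite) (S : α) (hS : S ∉ A) (c : Prop)
    (h : ∀ x, x ∈ B ↔ (x ∈ A ∨ (c ∧ x = S))) : (B.ncard : ℤ) = A.ncard + if c then 1 else 0 := by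
  by_cases hc : c
  · have e : B = insert S A := by
      ext x
      rw [h, Set.mem_insert_iff]
      tauto
    rw [if_pos hc, e, Set.ncard_insert_of_notMem hS hA]
    push_cast
    ring
  · have e : B = A := by
      ext x
      rw [h]
      tauto
    rw [if_neg hc, e, add_zero]

theorem dA_even (k : ℕ) (X : Q) [Decidable (lone X.1 k ∧ k ∈ X.1.A ∧ k ∈ X.1.B)] : act (2 * k) X =
    (detF k X.1, X.2 + if lone X.1 k ∧ k ∈ X.1.A ∧ k ∈ X.1.B then 1 else 0) := by
  unfold act
  rw [if_pos (by omega), show 2 * k / 2 = k by omega]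
  congr

theorem dA_odd (k : ℕ) (X : Q) : act (2 * k + 1) X = (joinF k (k + 1) X.1, X.2) := by
  unfold act
  rw [if_neg (by omega), show (2 * k + 1) / 2 = k by omega]

/-- an open edge between two sites of the front -/
theorem stQ_join (L : ℤ) (WL : Finset V) (f : ℕ → V) (ω : Finset (Sym2 V)) (k : ℕ) :
    stQ L WL f (insert s(f k, f (k + 1)) ω) = act (2 * k + 1) (stQ L WL f ω) := by
  rw [dA_odd]
  refine Prod.ext ?_ ?_
  · refine Fr.ext ?_ ?_ ?_
    · ext x y
      exact dA_insert
    · ext x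
      constructor
      · rintro ⟨u, hu, h⟩
        rcases dA_insert.1 h with h | ⟨h, h'⟩ | ⟨h, h'⟩
        · exact Or.inl ⟨u, hu, h⟩
        · exact Or.inr (Or.inr ⟨(cl ω).symm h', ⟨u, hu, h⟩⟩)
        · exact Or.inr (Or.inl ⟨(cl ω).symm h', ⟨u, hu, h⟩⟩)
      · rintro (⟨u, hu, h⟩ | ⟨h', ⟨u, hu, h⟩⟩ | ⟨h', ⟨u, hu, h⟩⟩)
        · exact ⟨u, hu, dA_insert.2 (Or.inl h)⟩
        · exact ⟨u, hu, dA_insert.2 (Or.inr (Or.inr ⟨h, (cl ω).symm h'⟩))⟩
        · exact ⟨u, hu, dA_insert.2 (Or.inr (Or.inl ⟨h, (cl ω).symm h'⟩))⟩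
    · ext x
      constructor
      · rintro ⟨u, hu, h⟩
        rcases dA_insert.1 h with h | ⟨h, h'⟩ | ⟨h, h'⟩
        · exact Or.inl ⟨u, hu, h⟩
        · exact Or.inr (Or.inr ⟨(cl ω).symm h', ⟨u, hu, h⟩⟩)
        · exact Or.inr (Or.inl ⟨(cl ω).symm h', ⟨u, hu, h⟩⟩)
      · rintro (⟨u, hu, h⟩ | ⟨h', ⟨u, hu, h⟩⟩ | ⟨h', ⟨u, hu, h⟩⟩)
        · exact ⟨u, hu, dA_insert.2 (Or.inl h)⟩
        · exact ⟨u, hu, dA_insert.2 (Or.inr (Or.inr ⟨h, (cl ω).symm h'⟩))⟩
        · exact ⟨u, hu, dA_insert.2 (Or.inr (Or.inl ⟨h, (cl ω).symm h'⟩))⟩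
  · have key : ∀ u, (¬ cl ω u (f k)) → (¬ cl ω u (f (k + 1))) →
        {v | cl (insert s(f k, f (k + 1)) ω) u v} = {v | cl ω u v} := by
      intro u h1 h2
      ext v
      constructor
      · intro h
        rcases dA_insert.1 h with h | ⟨h, _⟩ | ⟨h, _⟩
        · exact h
        · exact absurd h h1
        · exact absurd h h2
      · intro h
        exact dA_insert.2 (Or.inl h)
    have e : fin L WL f (insert s(f k, f (k + 1)) ω) = fin L WL f ω := by
      ext S
      constructor
      · rintro ⟨⟨u, hu, rfl⟩, h2, h3⟩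
        have e := key u (fun h => h3 k (dA_insert.2 (Or.inl h)))
          (fun h => h3 (k + 1) (dA_insert.2 (Or.inl h)))
        rw [e] at h2 h3 ⊢
        exact ⟨⟨u, hu, rfl⟩, h2, h3⟩
      · rintro ⟨⟨u, hu, rfl⟩, h2, h3⟩
        have e := key u (h3 k) (h3 (k + 1))
        exact ⟨⟨u, hu, e.symm⟩, h2, h3⟩
    change ((fin L WL f (insert s(f k, f (k + 1)) ω)).ncard : ℤ) = ((fin L WL f ω).ncard : ℤ)
    rw [e]

/-- a closed edge from `f k` to the new vertex `v` -/
theorem stQ_detach {L : ℤ} {WL : Finset V} {f : ℕ → V} {ω : Finset (Sym2 V)} {k : ℕ} {v : V}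
    (h1 : ∀ u, s(v, u) ∉ ω) (h2 : v.1 + v.2 ≠ L) (h3 : v ∉ WL) (h4 : ∀ j, f j ≠ v) :
    stQ L WL (Function.update f k v) ω = act (2 * k) (stQ L WL f ω) := by
  classical
  rw [dA_even]
  refine Prod.ext ?_ ?_
  · refine Fr.ext ?_ ?_ ?_
    · ext x y
      change cl ω (Function.update f k v x) (Function.update f k v y) ↔
        (x = y ∨ (x ≠ k ∧ y ≠ k ∧ cl ω (f x) (f y)))
      by_cases hx : x = k
      · subst hx
        by_cases hy : y = x
        · subst hy
          simp only [true_or, iff_true]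
          exact (cl ω).refl _
        · rw [Function.update_self, Function.update_of_ne hy]
          constructor
          · intro h
            exact absurd (dA_iso h1 h) (h4 y)
          · rintro (h | ⟨h, _⟩)
            · exact absurd h.symm hy
            · exact absurd rfl h
      · by_cases hy : y = k
        · subst hy
          rw [Function.update_self, Function.update_of_ne hx]
          constructor
          · intro h
            exact absurd (dA_iso' h1 h) (h4 x)
          · rintro (h | ⟨_, h, _⟩)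
            · exact absurd h hx
            · exact absurd rfl h
        · rw [Function.update_of_ne hx, Function.update_of_ne hy]
          constructor
          · intro h
            exact Or.inr ⟨hx, hy, h⟩
          · rintro (h | ⟨_, _, h⟩)
            · rw [h]
            · exact h
    · ext x
      change (∃ u ∈ WL, cl ω u (Function.update f k v x)) ↔ ((∃ u ∈ WL, cl ω u (f x)) ∧ x ≠ k)
      by_cases hx : x = k
      · subst hx
        rw [Function.update_self]
        constructor
        · rintro ⟨u, hu, h⟩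
          rw [dA_iso' h1 h] at hu
          exact absurd hu h3
        · rintro ⟨_, h⟩
          exact absurd rfl h
      · rw [Function.update_of_ne hx]
        exact ⟨fun h => ⟨h, hx⟩, fun h => h.1⟩
    · ext x
      change (∃ u : V, u.1 + u.2 = L ∧ cl ω u (Function.update f k v x)) ↔
        ((∃ u : V, u.1 + u.2 = L ∧ cl ω u (f x)) ∧ x ≠ k)
      by_cases hx : x = k
      · subst hx
        rw [Function.update_self]
        constructor
        · rintro ⟨u, hu, h⟩
          rw [dA_iso' h1 h] at hu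
          exact absurd hu h2
        · rintro ⟨_, h⟩
          exact absurd rfl h
      · rw [Function.update_of_ne hx]
        exact ⟨fun h => ⟨h, hx⟩, fun h => h.1⟩
  · have h0 := dA_ncard (A := fin L WL f ω) (B := fin L WL (Function.update f k v) ω)
      (fin_finite L WL f ω) {z | cl ω (f k) z} ?_
      (lone (stQ L WL f ω).1 k ∧ k ∈ (stQ L WL f ω).1.A ∧ k ∈ (stQ L WL f ω).1.B) ?_
    · change ((fin L WL (Function.update f k v) ω).ncard : ℤ) = _
      rw [h0]
      simp only
      congr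
    · rintro ⟨_, _, h⟩
      exact h k ((cl ω).refl _)
    · intro S
      constructor
      · rintro ⟨⟨u, hu, rfl⟩, ⟨z, hz, hz'⟩, h5⟩
        by_cases h6 : cl ω u (f k)
        · right
          refine ⟨⟨?_, ⟨u, hu, h6⟩, ⟨z, hz', (cl ω).trans ((cl ω).symm hz) h6⟩⟩, ?_⟩
          · intro y hy
            by_contra hne
            have h7 := h5 y
            rw [Function.update_of_ne hne] at h7
            exact h7 ((cl ω).trans h6 hy)
          · ext z
            exact ⟨fun h => (cl ω).trans ((cl ω).symm h6) h, fun h => (cl ω).trans h6 h⟩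
        · left
          refine ⟨⟨u, hu, rfl⟩, ⟨z, hz, hz'⟩, fun j => ?_⟩
          by_cases hj : j = k
          · rw [hj]
            exact h6
          · have h7 := h5 j
            rwa [Function.update_of_ne hj] at h7
      · rintro (⟨⟨u, hu, rfl⟩, ⟨z, hz, hz'⟩, h5⟩ | ⟨⟨h5, ⟨u, hu, h6⟩, ⟨z, hz', hz⟩⟩, rfl⟩)
        · refine ⟨⟨u, hu, rfl⟩, ⟨z, hz, hz'⟩, fun j => ?_⟩
          by_cases hj : j = k
          · rw [hj, Function.update_self]
            intro h
            rw [dA_iso' h1 h] at hu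
            exact h3 hu
          · rw [Function.update_of_ne hj]
            exact h5 j
        · refine ⟨⟨u, hu, ?_⟩, ⟨z, (cl ω).symm hz, hz'⟩, fun j => ?_⟩
          · ext z
            exact ⟨fun h => (cl ω).trans h6 h, fun h => (cl ω).trans ((cl ω).symm h6) h⟩
          · by_cases hj : j = k
            · rw [hj, Function.update_self]
              intro h
              exact h4 k (dA_iso' h1 h)
            · rw [Function.update_of_ne hj]
              intro h
              exact hj (h5 j h)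

/-- an open edge from `f k` to the new vertex `v` -/
theorem stQ_move {L : ℤ} {WL : Finset V} {f : ℕ → V} {ω : Finset (Sym2 V)} {k : ℕ} {v : V}
    (h1 : ∀ u, s(v, u) ∉ ω) (h2 : v.1 + v.2 ≠ L) (h3 : v ∉ WL) (h4 : ∀ j, f j ≠ v) :
    stQ L WL (Function.update f k v) (insert s(f k, v) ω) = stQ L WL f ω := by
  have k1 : ∀ u z, u ≠ v → z ≠ v → (cl (insert s(f k, v) ω) u z ↔ cl ω u z) := by
    intro u z hu hz
    rw [dA_insert]
    constructor
    · rintro (h | ⟨_, h⟩ | ⟨h, _⟩)
      · exact h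
      · exact absurd (dA_iso h1 h) hz
      · exact absurd (dA_iso' h1 h) hu
    · exact fun h => Or.inl h
  have k2 : ∀ u, u ≠ v → (cl (insert s(f k, v) ω) u v ↔ cl ω u (f k)) := by
    intro u hu
    rw [dA_insert]
    constructor
    · rintro (h | ⟨h, _⟩ | ⟨h, _⟩)
      · exact absurd (dA_iso' h1 h) hu
      · exact h
      · exact absurd (dA_iso' h1 h) hu
    · exact fun h => Or.inr (Or.inl ⟨h, (cl ω).refl _⟩)
  have k3 : ∀ u x, u ≠ v → (cl (insert s(f k, v) ω) u (Function.update f k v x) ↔ cl ω u (f x)) := by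
    intro u x hu
    by_cases hx : x = k
    · rw [hx, Function.update_self]
      exact k2 u hu
    · rw [Function.update_of_ne hx]
      exact k1 u _ hu (h4 x)
  refine Prod.ext ?_ ?_
  · refine Fr.ext ?_ ?_ ?_
    · ext x y
      change cl (insert s(f k, v) ω) (Function.update f k v x) (Function.update f k v y) ↔
        cl ω (f x) (f y)
      by_cases hx : x = k
      · subst hx
        by_cases hy : y = x
        · subst hy
          exact ⟨fun _ => (cl ω).refl _, fun _ => (cl _).refl _⟩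
        · rw [Function.update_self, Function.update_of_ne hy]
          constructor
          · intro h
            exact (cl ω).symm ((k2 (f y) (h4 y)).1 ((cl _).symm h))
          · intro h
            exact (cl _).symm ((k2 (f y) (h4 y)).2 ((cl ω).symm h))
      · rw [Function.update_of_ne hx]
        exact k3 (f x) y (h4 x)
    · ext x
      change (∃ u ∈ WL, cl (insert s(f k, v) ω) u (Function.update f k v x)) ↔
        (∃ u ∈ WL, cl ω u (f x))
      constructor
      · rintro ⟨u, hu, h⟩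
        exact ⟨u, hu, (k3 u x (fun e => h3 (e ▸ hu))).1 h⟩
      · rintro ⟨u, hu, h⟩
        exact ⟨u, hu, (k3 u x (fun e => h3 (e ▸ hu))).2 h⟩
    · ext x
      change (∃ u : V, u.1 + u.2 = L ∧ cl (insert s(f k, v) ω) u (Function.update f k v x)) ↔
        (∃ u : V, u.1 + u.2 = L ∧ cl ω u (f x))
      constructor
      · rintro ⟨u, hu, h⟩
        exact ⟨u, hu, (k3 u x (fun e => h2 (e ▸ hu))).1 h⟩
      · rintro ⟨u, hu, h⟩
        exact ⟨u, hu, (k3 u x (fun e => h2 (e ▸ hu))).2 h⟩
  · have key : ∀ u ∈ WL, ¬ cl ω u (f k) → {z | cl (insert s(f k, v) ω) u z} = {z | cl ω u z} := by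
      intro u hu h
      have huv : u ≠ v := fun e => h3 (e ▸ hu)
      ext z
      by_cases hz : z = v
      · rw [hz]
        constructor
        · intro h5
          exact absurd ((k2 u huv).1 h5) h
        · intro h5
          exact absurd (dA_iso' h1 h5) huv
      · exact k1 u z huv hz
    have e : fin L WL (Function.update f k v) (insert s(f k, v) ω) = fin L WL f ω := by
      ext S
      constructor
      · rintro ⟨⟨u, hu, rfl⟩, h5, h6⟩
        have huv : u ≠ v := fun e => h3 (e ▸ hu)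
        have h7 : ∀ j, ¬ cl ω u (f j) := fun j h => h6 j ((k3 u j huv).2 h)
        have e := key u hu (h7 k)
        rw [e] at h5 ⊢
        exact ⟨⟨u, hu, rfl⟩, h5, h7⟩
      · rintro ⟨⟨u, hu, rfl⟩, h5, h6⟩
        have huv : u ≠ v := fun e => h3 (e ▸ hu)
        have e := key u hu (h6 k)
        refine ⟨⟨u, hu, e.symm⟩, h5, fun j => ?_⟩
        rw [← e]
        intro h
        exact h6 j ((k3 u j huv).1 h)
    change ((fin L WL (Function.update f k v) (insert s(f k, v) ω)).ncard : ℤ) =
      ((fin L WL f ω).ncard : ℤ)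
    rw [e]

/-- the first site reaches the left wall -/
theorem stQ_drop (L : ℤ) (WL : Finset V) (f : ℕ → V) (ω : Finset (Sym2 V)) :
    stQ L (insert (f 0) WL) (fun k => f (k + 1)) ω = Dm (stQ L WL f ω) := by
  classical
  refine Prod.ext ?_ ?_
  · refine Fr.ext ?_ ?_ ?_
    · rfl
    · ext x
      change (∃ u ∈ insert (f 0) WL, cl ω u (f (x + 1))) ↔
        ((∃ u ∈ WL, cl ω u (f (x + 1))) ∨ cl ω (f (x + 1)) (f 0))
      constructor
      · rintro ⟨u, hu, h⟩
        rw [mem_insert] at hu
        rcases hu with rfl | hu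
        · exact Or.inr ((cl ω).symm h)
        · exact Or.inl ⟨u, hu, h⟩
      · rintro (⟨u, hu, h⟩ | h)
        · exact ⟨u, mem_insert_of_mem hu, h⟩
        · exact ⟨f 0, mem_insert_self _ _, (cl ω).symm h⟩
    · rfl
  · have h0 := dA_ncard (A := fin L WL f ω) (B := fin L (insert (f 0) WL) (fun k => f (k + 1)) ω)
      (fin_finite L WL f ω) {z | cl ω (f 0) z} ?_
      (lone (stF L WL f ω) 0 ∧ 0 ∈ (stF L WL f ω).B) ?_
    · change ((fin L (insert (f 0) WL) (fun k => f (k + 1)) ω).ncard : ℤ) = _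
      rw [h0]
      unfold Dm
      simp only
      congr
    · rintro ⟨_, _, h⟩
      exact h 0 ((cl ω).refl _)
    · intro S
      constructor
      · rintro ⟨⟨u, hu, rfl⟩, ⟨z, hz, hz'⟩, h5⟩
        by_cases h6 : cl ω u (f 0)
        · right
          refine ⟨⟨?_, ⟨z, hz', (cl ω).trans ((cl ω).symm hz) h6⟩⟩, ?_⟩
          · intro y hy
            by_contra hne
            obtain ⟨y', rfl⟩ := Nat.exists_eq_succ_of_ne_zero hne
            exact h5 y' ((cl ω).trans h6 hy)
          · ext z
            exact ⟨fun h => (cl ω).trans ((cl ω).symm h6) h, fun h => (cl ω).trans h6 h⟩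
        · left
          rw [mem_insert] at hu
          rcases hu with rfl | hu
          · exact absurd ((cl ω).refl _) h6
          · refine ⟨⟨u, hu, rfl⟩, ⟨z, hz, hz'⟩, fun j => ?_⟩
            rcases Nat.eq_zero_or_pos j with rfl | hj
            · exact h6
            · obtain ⟨j', rfl⟩ := Nat.exists_eq_succ_of_ne_zero hj.ne'
              exact h5 j'
      · rintro (⟨⟨u, hu, rfl⟩, ⟨z, hz, hz'⟩, h5⟩ | ⟨⟨h5, ⟨z, hz', hz⟩⟩, rfl⟩)
        · exact ⟨⟨u, mem_insert_of_mem hu, rfl⟩, ⟨z, hz, hz'⟩, fun j => h5 (j + 1)⟩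
        · refine ⟨⟨f 0, mem_insert_self _ _, rfl⟩, ⟨z, (cl ω).symm hz, hz'⟩, fun j h => ?_⟩
          exact absurd (h5 (j + 1) h) (Nat.succ_ne_zero j)

end CC
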