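import Pool.Agent.Helper9.CC.DictA

/-! The sweep of the strip (module DICTB); compare Pool/Agent/Helper92/Perc/Sweep.lean. -/

namespace CC
open Finset

/-- the law of the state, the edges of `F` being open with probability `1/2` -/
noncomputable def law (L : ℤ) (WL : Finset V) (F : Finset (Sym2 V)) (f : ℕ → V) : M :=
  ∑ ω ∈ F.powerset, Finsupp.single (stQ L WL f ω) ((1 / 2) ^ #F)

/-- the front at the level `x - y = 2T+1` -/
def fr (L : ℕ) (T : ℤ) (k : ℕ) : V := ((k:ℤ) + T + 1, min (k:ℤ) (L - 1 - k) - T)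

/-- the points of the strip `0 ≤ x + y ≤ L` with `a ≤ x - y ≤ b` -/
def reg (L : ℕ) (a b : ℤ) : Set V := {v | 0 ≤ v.1 + v.2 ∧ v.1 + v.2 ≤ L ∧ a ≤ v.1 - v.2 ∧ v.1 - v.2 ≤ b}

theorem reg_finite (L : ℕ) (a b : ℤ) : (reg L a b).Finite := by
  refine Set.Finite.subset ((Set.finite_Icc (-(|a| + |b| + L)) (|a| + |b| + L)).prod
    (Set.finite_Icc (-(|a| + |b| + L)) (|a| + |b| + L))) ?_
  rintro ⟨x, y⟩ ⟨h1, h2, h3, h4⟩
  simp only at h1 h2 h3 h4
  rw [Set.mem_prod, Set.mem_Icc, Set.mem_Icc]
  simp only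
  rcases abs_cases a with ha | ha <;> rcases abs_cases b with hb | hb <;> omega

noncomputable def regF (L : ℕ) (a b : ℤ) : Finset V := (reg_finite L a b).toFinset

/-- the edges of `ℤ²` with both end points in `S` -/
noncomputable def edg (S : Finset V) : Finset (Sym2 V) :=
  (S ×ˢ S).filter (fun p => |p.1.1 - p.2.1| + |p.1.2 - p.2.2| = 1) |>.image (fun p => s(p.1, p.2))

/-- the vertices of the left wall at the levels `1, ..., 2T+1` -/
def lw (T : ℕ) : Finset V := (range T).image (fun t : ℕ => ((t:ℤ) + 1, -(t:ℤ) - 1))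

/-! ### auxiliary facts -/

theorem dB_mem_regF {L : ℕ} {a b : ℤ} {v : V} : v ∈ regF L a b ↔
    0 ≤ v.1 + v.2 ∧ v.1 + v.2 ≤ L ∧ a ≤ v.1 - v.2 ∧ v.1 - v.2 ≤ b := by
  unfold regF
  rw [Set.Finite.mem_toFinset]
  rfl

theorem dB_mem_edg {S : Finset V} {u v : V} : s(u, v) ∈ edg S ↔
    u ∈ S ∧ v ∈ S ∧ |u.1 - v.1| + |u.2 - v.2| = 1 := by
  unfold edg
  rw [mem_image]
  constructor
  · rintro ⟨⟨p, q⟩, h, he⟩
    rw [mem_filter, mem_product] at h
    simp only at h he
    rw [Sym2.eq_iff] at he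
    rcases he with ⟨rfl, rfl⟩ | ⟨rfl, rfl⟩
    · exact ⟨h.1.1, h.1.2, h.2⟩
    · refine ⟨h.1.2, h.1.1, ?_⟩
      rw [abs_sub_comm, abs_sub_comm q.2 p.2]
      exact h.2
  · rintro ⟨h1, h2, h3⟩
    refine ⟨(u, v), ?_, rfl⟩
    rw [mem_filter, mem_product]
    exact ⟨⟨h1, h2⟩, h3⟩

theorem dB_mem_lw {T : ℕ} {v : V} : v ∈ lw T ↔ ∃ t : ℕ, t < T ∧ v = ((t:ℤ) + 1, -(t:ℤ) - 1) := by
  unfold lw
  rw [mem_image]
  constructor
  · rintro ⟨t, ht, rfl⟩
    exact ⟨t, mem_range.1 ht, rfl⟩
  · rintro ⟨t, ht, rfl⟩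
    exact ⟨t, mem_range.2 ht, rfl⟩

/-! ### the moves on laws -/

theorem dB_E_law (i : ℕ) (L : ℤ) (WL : Finset V) (F : Finset (Sym2 V)) (f : ℕ → V) :
    E i (law L WL F f) = ∑ ω ∈ F.powerset, Finsupp.single (act i (stQ L WL f ω)) ((1 / 2) ^ #F) := by
  unfold law
  rw [map_sum]
  refine sum_congr rfl fun ω _ => ?_
  rw [E_single]

theorem dB_half_law (L : ℤ) (WL : Finset V) (F : Finset (Sym2 V)) (f : ℕ → V) :
    (1 / 2 : ℂ) • law L WL F f =
      ∑ ω ∈ F.powerset, Finsupp.single (stQ L WL f ω) ((1 / 2) ^ (#F + 1)) := by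
  unfold law
  rw [smul_sum]
  refine sum_congr rfl fun ω _ => ?_
  rw [Finsupp.smul_single, smul_eq_mul, pow_succ, mul_comm]

theorem dB_half_E_law (i : ℕ) (L : ℤ) (WL : Finset V) (F : Finset (Sym2 V)) (f : ℕ → V) :
    (1 / 2 : ℂ) • E i (law L WL F f) =
      ∑ ω ∈ F.powerset, Finsupp.single (act i (stQ L WL f ω)) ((1 / 2) ^ (#F + 1)) := by
  rw [dB_E_law, smul_sum]
  refine sum_congr rfl fun ω _ => ?_
  rw [Finsupp.smul_single, smul_eq_mul, pow_succ, mul_comm]

theorem dB_law_insert {L : ℤ} {WL : Finset V} {F : Finset (Sym2 V)} {e : Sym2 V} (he : e ∉ F)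
    (f : ℕ → V) : law L WL (insert e F) f =
      ∑ ω ∈ F.powerset, Finsupp.single (stQ L WL f ω) ((1 / 2) ^ (#F + 1)) +
        ∑ ω ∈ F.powerset, Finsupp.single (stQ L WL f (insert e ω)) ((1 / 2) ^ (#F + 1)) := by
  unfold law
  rw [sum_powerset_insert he, card_insert_of_notMem he]

theorem dB_law_join {L : ℤ} {WL : Finset V} {F : Finset (Sym2 V)} {f : ℕ → V} {k : ℕ}
    (he : s(f k, f (k + 1)) ∉ F) : law L WL (insert s(f k, f (k + 1)) F) f =
      (1 / 2 : ℂ) • (law L WL F f + E (2 * k + 1) (law L WL F f)) := by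
  rw [smul_add, dB_law_insert he, dB_half_law, dB_half_E_law]
  congr 1
  refine sum_congr rfl fun ω _ => ?_
  rw [stQ_join]

theorem dB_law_detach {L : ℤ} {WL : Finset V} {F : Finset (Sym2 V)} {f : ℕ → V} {k : ℕ} {v : V}
    (h1 : ∀ u, s(v, u) ∉ F) (h2 : v.1 + v.2 ≠ L) (h3 : v ∉ WL) (h4 : ∀ j, f j ≠ v) :
    law L WL (insert s(f k, v) F) (Function.update f k v) =
      (1 / 2 : ℂ) • (law L WL F f + E (2 * k) (law L WL F f)) := by
  have he : s(f k, v) ∉ F := by
    rw [Sym2.eq_swap]
    exact h1 _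
  rw [smul_add, dB_law_insert he, dB_half_law, dB_half_E_law, add_comm]
  congr 1
  · refine sum_congr rfl fun ω hω => ?_
    rw [mem_powerset] at hω
    rw [stQ_move (fun u h => h1 u (hω h)) h2 h3 h4]
  · refine sum_congr rfl fun ω hω => ?_
    rw [mem_powerset] at hω
    rw [stQ_detach (fun u h => h1 u (hω h)) h2 h3 h4]

theorem dB_D_law (L : ℤ) (WL : Finset V) (F : Finset (Sym2 V)) (f : ℕ → V) :
    D (law L WL F f) = law L (insert (f 0) WL) F (fun k => f (k + 1)) := by
  unfold law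
  rw [map_sum]
  refine sum_congr rfl fun ω _ => ?_
  rw [D_single, stQ_drop]

/-! ### a sweep -/

/-- the front during a sweep -/
def dB_stg (f g : ℕ → V) (j : ℕ) : ℕ → V := fun k => if j ≤ 2 * k then g k else f k

/-- the edges of a sweep -/
def dB_ed (f g : ℕ → V) (i : ℕ) : Sym2 V := s(f (i / 2), g ((i + 1) / 2))

/-- admissible sweeps -/
structure DBAdm (L : ℤ) (WL : Finset V) (f g : ℕ → V) (off top : ℕ) (F : Finset (Sym2 V)) : Prop where
  h1 : ∀ i j, off ≤ i → i < top → off ≤ j → j < top → f (i / 2) ≠ g ((j + 1) / 2)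
  h2 : ∀ i j, off ≤ i → i < top → off ≤ j → j < top → i / 2 ≠ j / 2 → f (i / 2) ≠ f (j / 2)
  h3 : ∀ i, off ≤ i → i < top → dB_ed f g i ∉ F
  h4 : ∀ k, off ≤ 2 * k → 2 * k < top → (∀ u, s(g k, u) ∉ F) ∧ (g k).1 + (g k).2 ≠ L ∧
    (∀ j, j ≠ k → g j ≠ g k) ∧ (∀ j, f j ≠ g k) ∧ g k ∉ WL

theorem dB_step {L : ℤ} {WL : Finset V} {f g : ℕ → V} {off i : ℕ} {F : Finset (Sym2 V)}
    (hi : off ≤ i) (h : DBAdm L WL f g off (i + 1) F) :
    (1 / 2 : ℂ) • (law L WL F (dB_stg f g (i + 1)) + E i (law L WL F (dB_stg f g (i + 1)))) =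
      law L WL (insert (dB_ed f g i) F) (dB_stg f g i) := by
  rcases Nat.even_or_odd' i with ⟨k, hk | hk⟩
  · subst hk
    obtain ⟨a1, a2, a3, a4, a5⟩ := h.h4 k hi (by omega)
    have e1 : dB_stg f g (2 * k + 1) k = f k := by
      unfold dB_stg; rw [if_neg (by omega)]
    have e2 : dB_stg f g (2 * k) = Function.update (dB_stg f g (2 * k + 1)) k (g k) := by
      funext j
      by_cases hj : j = k
      · subst hj
        rw [Function.update_self]
        unfold dB_stg
        rw [if_pos le_rfl]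
      · rw [Function.update_of_ne hj]
        unfold dB_stg
        by_cases hj2 : k < j
        · rw [if_pos (by omega), if_pos (by omega)]
        · rw [if_neg (by omega), if_neg (by omega)]
    have e3 : dB_ed f g (2 * k) = s(dB_stg f g (2 * k + 1) k, g k) := by
      rw [e1]
      unfold dB_ed
      rw [show 2 * k / 2 = k by omega, show (2 * k + 1) / 2 = k by omega]
    rw [e2, e3, dB_law_detach a1 a2 a5]
    intro j
    unfold dB_stg
    by_cases hj : 2 * k + 1 ≤ 2 * j
    · rw [if_pos hj]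
      exact a3 j (by omega)
    · rw [if_neg hj]
      exact a4 j
  · subst hk
    have e1 : dB_stg f g (2 * k + 1 + 1) k = f k := by
      unfold dB_stg; rw [if_neg (by omega)]
    have e2 : dB_stg f g (2 * k + 1 + 1) (k + 1) = g (k + 1) := by
      unfold dB_stg; rw [if_pos (by omega)]
    have e3 : dB_stg f g (2 * k + 1) = dB_stg f g (2 * k + 1 + 1) := by
      funext j
      unfold dB_stg
      by_cases hj : k < j
      · rw [if_pos (by omega), if_pos (by omega)]
      · rw [if_neg (by omega), if_neg (by omega)]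
    have e4 : dB_ed f g (2 * k + 1) =
        s(dB_stg f g (2 * k + 1 + 1) k, dB_stg f g (2 * k + 1 + 1) (k + 1)) := by
      rw [e1, e2]
      unfold dB_ed
      rw [show (2 * k + 1) / 2 = k by omega, show (2 * k + 1 + 1) / 2 = k + 1 by omega]
    have h3 := h.h3 (2 * k + 1) hi (by omega)
    rw [e4] at h3 ⊢
    rw [e3, dB_law_join h3]

theorem DBAdm.pred {L : ℤ} {WL : Finset V} {f g : ℕ → V} {off i : ℕ} {F : Finset (Sym2 V)}
    (hi : off ≤ i) (h : DBAdm L WL f g off (i + 1) F) :
    DBAdm L WL f g off i (insert (dB_ed f g i) F) where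
  h1 := fun a b ha ha' hb hb' => h.h1 a b ha (by omega) hb (by omega)
  h2 := fun a b ha ha' hb hb' => h.h2 a b ha (by omega) hb (by omega)
  h3 := by
    intro a ha ha'
    rw [mem_insert, not_or]
    refine ⟨?_, h.h3 a ha (by omega)⟩
    intro he
    unfold dB_ed at he
    rw [Sym2.eq_iff] at he
    rcases he with ⟨h5, h6⟩ | ⟨h5, _⟩
    · by_cases hai : a / 2 = i / 2
      · have h7 := (h.h4 (a / 2) (by omega) (by omega)).2.2.1 ((i + 1) / 2) (by omega)
        rw [show (a + 1) / 2 = a / 2 by omega] at h6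
        exact h7 h6.symm
      · exact h.h2 a i ha (by omega) hi (by omega) hai h5
    · exact h.h1 a i ha (by omega) hi (by omega) h5
  h4 := by
    intro k hk hk'
    obtain ⟨a1, a2, a3, a4, a5⟩ := h.h4 k hk (by omega)
    refine ⟨?_, a2, a3, a4, a5⟩
    intro u
    rw [mem_insert, not_or]
    refine ⟨?_, a1 u⟩
    intro he
    unfold dB_ed at he
    rw [Sym2.eq_iff] at he
    rcases he with ⟨h5, _⟩ | ⟨h5, _⟩
    · exact a4 _ h5.symm
    · exact a3 ((i + 1) / 2) (by omega) h5.symm

theorem dB_sweep {L : ℤ} {WL : Finset V} {f g : ℕ → V} {off : ℕ} (m : ℕ) :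
    ∀ F : Finset (Sym2 V), DBAdm L WL f g off (off + m) F →
      hrow off m (law L WL F (dB_stg f g (off + m))) =
        law L WL (F ∪ (Ico off (off + m)).image (dB_ed f g)) (dB_stg f g off) := by
  induction m with
  | zero =>
    intro F _
    simp [hrow]
  | succ m ih =>
    intro F h
    have h' : DBAdm L WL f g off ((off + m) + 1) F := h
    have e1 : hrow off (m + 1) (law L WL F (dB_stg f g (off + (m + 1)))) =
        hrow off m ((1 / 2 : ℂ) • (law L WL F (dB_stg f g ((off + m) + 1)) +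
          E (off + m) (law L WL F (dB_stg f g ((off + m) + 1))))) := rfl
    rw [e1, dB_step (by omega) h', ih _ (h'.pred (by omega))]
    congr 1
    ext e
    rw [mem_union, mem_union, mem_insert, mem_image, mem_image]
    constructor
    · rintro ((rfl | h) | ⟨a, ha, rfl⟩)
      · right
        exact ⟨off + m, by rw [mem_Ico]; omega, rfl⟩
      · left
        exact h
      · right
        exact ⟨a, by rw [mem_Ico] at ha ⊢; omega, rfl⟩
    · rintro (h | ⟨a, ha, rfl⟩)
      · left; right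
        exact h
      · rw [mem_Ico] at ha
        by_cases ham : a = off + m
        · left; left
          rw [ham]
        · right
          exact ⟨a, by rw [mem_Ico]; omega, rfl⟩

/-! ### one double layer -/

/-- the front at the level `x - y = 2T+2` -/
def dB_g (L : ℕ) (T : ℤ) (k : ℕ) : V := ((k:ℤ) + T + 1, min (k:ℤ) (L - k) - T - 1)

/-- the front at the level `x - y = 2T+3`, before relabelling -/
def dB_h (L : ℕ) (T : ℤ) (k : ℕ) : V := ((k:ℤ) + T + 1, min (k:ℤ) (L + 1 - k) - T - 2)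

theorem dB_fr_in {L : ℕ} {T : ℤ} {k : ℕ} (h : 2 * k + 1 ≤ L) : fr L T k = ((k:ℤ) + T + 1, (k:ℤ) - T) := by
  unfold fr
  rw [min_eq_left (by omega)]

theorem dB_fr_out {L : ℕ} {T : ℤ} {k : ℕ} (h : L ≤ 2 * k + 1) :
    fr L T k = ((k:ℤ) + T + 1, (L:ℤ) - 1 - k - T) := by
  unfold fr
  rw [min_eq_right (by omega)]

theorem dB_g_in {L : ℕ} {T : ℤ} {k : ℕ} (h : 2 * k ≤ L) : dB_g L T k = ((k:ℤ) + T + 1, (k:ℤ) - T - 1) := by
  unfold dB_g
  rw [min_eq_left (by omega)]

theorem dB_g_out {L : ℕ} {T : ℤ} {k : ℕ} (h : L ≤ 2 * k) :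
    dB_g L T k = ((k:ℤ) + T + 1, (L:ℤ) - k - T - 1) := by
  unfold dB_g
  rw [min_eq_right (by omega)]

theorem dB_h_in {L : ℕ} {T : ℤ} {k : ℕ} (h : 2 * k ≤ L + 1) :
    dB_h L T k = ((k:ℤ) + T + 1, (k:ℤ) - T - 2) := by
  unfold dB_h
  rw [min_eq_left (by omega)]

theorem dB_h_out {L : ℕ} {T : ℤ} {k : ℕ} (h : L + 1 ≤ 2 * k) :
    dB_h L T k = ((k:ℤ) + T + 1, (L:ℤ) + 1 - k - T - 2) := by
  unfold dB_h
  rw [min_eq_right (by omega)]

theorem dB_fr_inj {L : ℕ} {T : ℤ} {j k : ℕ} (h : fr L T j = fr L T k) : j = k := by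
  unfold fr at h
  rw [Prod.mk.injEq] at h
  omega

theorem dB_g_inj {L : ℕ} {T : ℤ} {j k : ℕ} (h : dB_g L T j = dB_g L T k) : j = k := by
  unfold dB_g at h
  rw [Prod.mk.injEq] at h
  omega

theorem dB_h_inj {L : ℕ} {T : ℤ} {j k : ℕ} (h : dB_h L T j = dB_h L T k) : j = k := by
  unfold dB_h at h
  rw [Prod.mk.injEq] at h
  omega

theorem dB_adm0 (L T : ℕ) {F : Finset (Sym2 V)}
    (hF : ∀ u v, s(u, v) ∈ F → u.1 - u.2 ≤ 2 * T + 1) :
    DBAdm L (lw T) (fr L T) (dB_g L T) 0 (0 + L) F where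
  h1 := by
    intro i j _ hi _ hj
    rw [dB_fr_in (by omega), dB_g_in (by omega)]
    intro h
    rw [Prod.mk.injEq] at h
    omega
  h2 := by
    intro i j _ hi _ hj hij h
    exact hij (dB_fr_inj h)
  h3 := by
    intro i _ hi h
    unfold dB_ed at h
    rw [Sym2.eq_swap, dB_g_in (by omega)] at h
    have := hF _ _ h
    simp only at this
    omega
  h4 := by
    intro k _ hk
    refine ⟨?_, ?_, ?_, ?_, ?_⟩
    · intro u h
      rw [dB_g_in (by omega)] at h
      have := hF _ _ h
      simp only at this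
      omega
    · rw [dB_g_in (by omega)]
      simp only
      omega
    · intro j hj h
      exact hj (dB_g_inj h)
    · intro j h
      rw [dB_g_in (by omega)] at h
      rcases Nat.lt_or_ge (2 * j + 1) L with h5 | h5
      · rw [dB_fr_in (by omega), Prod.mk.injEq] at h
        omega
      · rw [dB_fr_out (by omega), Prod.mk.injEq] at h
        omega
    · rw [dB_mem_lw]
      rintro ⟨t, ht, h⟩
      rw [dB_g_in (by omega), Prod.mk.injEq] at h
      omega

theorem dB_adm1 (L T : ℕ) {F : Finset (Sym2 V)}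
    (hF : ∀ u v, s(u, v) ∈ F → u.1 - u.2 ≤ 2 * T + 2) :
    DBAdm L (lw T) (dB_g L T) (dB_h L T) 1 (1 + L) F where
  h1 := by
    intro i j _ hi _ hj
    rw [dB_g_in (by omega), dB_h_in (by omega)]
    intro h
    rw [Prod.mk.injEq] at h
    omega
  h2 := by
    intro i j _ hi _ hj hij h
    exact hij (dB_g_inj h)
  h3 := by
    intro i _ hi h
    unfold dB_ed at h
    rw [Sym2.eq_swap, dB_h_in (by omega)] at h
    have := hF _ _ h
    simp only at this
    omega
  h4 := by
    intro k hk1 hk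
    refine ⟨?_, ?_, ?_, ?_, ?_⟩
    · intro u h
      rw [dB_h_in (by omega)] at h
      have := hF _ _ h
      simp only at this
      omega
    · rw [dB_h_in (by omega)]
      simp only
      omega
    · intro j hj h
      exact hj (dB_h_inj h)
    · intro j h
      rw [dB_h_in (by omega)] at h
      rcases Nat.lt_or_ge (2 * j) L with h5 | h5
      · rw [dB_g_in (by omega), Prod.mk.injEq] at h
        omega
      · rw [dB_g_out (by omega), Prod.mk.injEq] at h
        omega
    · rw [dB_mem_lw]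
      rintro ⟨t, ht, h⟩
      rw [dB_h_in (by omega), Prod.mk.injEq] at h
      omega

/-- the edges between the levels `2T+1` and `2T+2` -/
def dB_E0 (L : ℕ) (T : ℤ) : Finset (Sym2 V) := (Ico 0 (0 + L)).image (dB_ed (fr L T) (dB_g L T))

/-- the edges between the levels `2T+2` and `2T+3` -/
def dB_E1 (L : ℕ) (T : ℤ) : Finset (Sym2 V) := (Ico 1 (1 + L)).image (dB_ed (dB_g L T) (dB_h L T))

theorem dB_double_row (L T : ℕ) {F : Finset (Sym2 V)}
    (hF : ∀ u v, s(u, v) ∈ F → u.1 - u.2 ≤ 2 * T + 1) :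
    Ts L (law L (lw T) F (fr L T)) =
      law L (lw (T + 1)) (F ∪ dB_E0 L T ∪ dB_E1 L T) (fr L ((T : ℤ) + 1)) := by
  have hF' : ∀ u v, s(u, v) ∈ F ∪ dB_E0 L T → u.1 - u.2 ≤ 2 * T + 2 := by
    intro u v h
    rw [mem_union] at h
    rcases h with h | h
    · have := hF u v h
      omega
    · unfold dB_E0 at h
      rw [mem_image] at h
      obtain ⟨i, hi, he⟩ := h
      rw [mem_Ico] at hi
      unfold dB_ed at he
      rw [dB_g_in (by omega), dB_fr_in (by omega), Sym2.eq_iff] at he
      rcases he with ⟨rfl, rfl⟩ | ⟨rfl, rfl⟩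
      · simp only
        omega
      · simp only
        omega
  have s0 : dB_stg (fr L T) (dB_g L T) (0 + L) = fr L T := by
    funext k
    unfold dB_stg
    by_cases hk : L ≤ 2 * k
    · rw [if_pos (by omega), dB_g_out hk, dB_fr_out (by omega), Prod.mk.injEq]
      omega
    · rw [if_neg (by omega)]
  have s1 : dB_stg (fr L T) (dB_g L T) 0 = dB_g L T := by
    funext k
    unfold dB_stg
    rw [if_pos (by omega)]
  have r0 := dB_sweep L F (dB_adm0 L T hF)
  rw [s0, s1] at r0
  have r1 := dB_sweep L (F ∪ dB_E0 L T) (dB_adm1 L T hF')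
  have s2 : dB_stg (dB_g L T) (dB_h L T) (1 + L) = dB_g L T := by
    funext k
    unfold dB_stg
    by_cases hk : L + 1 ≤ 2 * k
    · rw [if_pos (by omega), dB_h_out hk, dB_g_out (by omega), Prod.mk.injEq]
      omega
    · rw [if_neg (by omega)]
  rw [s2] at r1
  have w2 : (fun k => dB_stg (dB_g L T) (dB_h L T) 1 (k + 1)) = fr L ((T : ℤ) + 1) := by
    funext k
    unfold dB_stg
    rw [if_pos (by omega)]
    unfold dB_h fr
    rw [Prod.mk.injEq]
    refine ⟨by push_cast; ring, ?_⟩
    push_cast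
    omega
  have w3 : insert (dB_stg (dB_g L T) (dB_h L T) 1 0) (lw T) = lw (T + 1) := by
    have e : dB_stg (dB_g L T) (dB_h L T) 1 0 = ((T:ℤ) + 1, -(T:ℤ) - 1) := by
      unfold dB_stg
      rw [if_neg (by omega), dB_g_in (by omega), Prod.mk.injEq]
      push_cast
      constructor <;> ring
    rw [e]
    ext v
    rw [mem_insert, dB_mem_lw, dB_mem_lw]
    constructor
    · rintro (rfl | ⟨t, ht, rfl⟩)
      · exact ⟨T, by omega, rfl⟩
      · exact ⟨t, by omega, rfl⟩
    · rintro ⟨t, ht, rfl⟩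
      by_cases h : t = T
      · left
        rw [h]
      · exact Or.inr ⟨t, by omega, rfl⟩
  rw [Ts_apply, r0]
  change D (hrow 1 L (law L (lw T) (F ∪ dB_E0 L T) (dB_g L T))) = _
  rw [r1, dB_D_law, w2, w3]
  rfl

theorem dB_adj {u v : V} (h : |u.1 - v.1| + |u.2 - v.2| = 1) :
    (v = (u.1 + 1, u.2)) ∨ (v = (u.1 - 1, u.2)) ∨ (v = (u.1, u.2 + 1)) ∨ (v = (u.1, u.2 - 1)) := by
  obtain ⟨a, b⟩ := u
  obtain ⟨c, d⟩ := v
  simp only [Prod.mk.injEq] at h ⊢
  rcases abs_cases (a - c) with h1 | h1 <;> rcases abs_cases (b - d) with h2 | h2 <;> omega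

/-- the edges of the strip -/
theorem dB_edges_step (L : ℕ) {a : ℤ} (T : ℕ) (ha : a ≤ 2 * T + 1) :
    edg (regF L a (2 * T + 1)) ∪ dB_E0 L T ∪ dB_E1 L T = edg (regF L a (2 * ((T + 1 : ℕ) : ℤ) + 1)) := by
  ext e
  constructor
  · intro h
    rw [mem_union, mem_union] at h
    rcases h with (h | h) | h
    · induction e using Sym2.ind with
      | _ u v =>
        rw [dB_mem_edg, dB_mem_regF, dB_mem_regF] at h ⊢
        push_cast
        refine ⟨by omega, by omega, h.2.2⟩
    · unfold dB_E0 at h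
      rw [mem_image] at h
      obtain ⟨i, hi, rfl⟩ := h
      rw [mem_Ico] at hi
      unfold dB_ed
      rw [dB_fr_in (by omega), dB_g_in (by omega), dB_mem_edg, dB_mem_regF, dB_mem_regF]
      simp only
      push_cast
      refine ⟨by omega, by omega, ?_⟩
      rcases Nat.even_or_odd' i with ⟨k, hk | hk⟩
      · have e1 : i / 2 = k := by omega
        have e2 : (i + 1) / 2 = k := by omega
        have e3 : ((i:ℤ) + 1) / 2 = k := by omega
        have e4 : (i:ℤ) / 2 = k := by omega
        rw [e3, e4, show (k:ℤ) + T + 1 - (k + T + 1) = 0 by ring,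
          show (k:ℤ) - T - (k - T - 1) = 1 by ring]
        simp
      · have e3 : ((i:ℤ) + 1) / 2 = k + 1 := by omega
        have e4 : (i:ℤ) / 2 = k := by omega
        rw [e3, e4, show (k:ℤ) + T + 1 - (k + 1 + T + 1) = -1 by ring,
          show (k:ℤ) - T - (k + 1 - T - 1) = 0 by ring]
        simp
    · unfold dB_E1 at h
      rw [mem_image] at h
      obtain ⟨i, hi, rfl⟩ := h
      rw [mem_Ico] at hi
      unfold dB_ed
      rw [dB_g_in (by omega), dB_h_in (by omega), dB_mem_edg, dB_mem_regF, dB_mem_regF]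
      simp only
      push_cast
      refine ⟨by omega, by omega, ?_⟩
      rcases Nat.even_or_odd' i with ⟨k, hk | hk⟩
      · have e3 : ((i:ℤ) + 1) / 2 = k := by omega
        have e4 : (i:ℤ) / 2 = k := by omega
        rw [e3, e4, show (k:ℤ) + T + 1 - (k + T + 1) = 0 by ring,
          show (k:ℤ) - T - 1 - (k - T - 2) = 1 by ring]
        simp
      · have e3 : ((i:ℤ) + 1) / 2 = k + 1 := by omega
        have e4 : (i:ℤ) / 2 = k := by omega
        rw [e3, e4, show (k:ℤ) + T + 1 - (k + 1 + T + 1) = -1 by ring,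
          show (k:ℤ) - T - 1 - (k + 1 - T - 2) = 0 by ring]
        simp
  · intro h
    rw [mem_union, mem_union]
    have key : ∀ x y : ℤ, ∀ v : V, (v = (x + 1, y) ∨ v = (x, y - 1)) →
        s((x, y), v) ∈ edg (regF L a (2 * ((T + 1 : ℕ) : ℤ) + 1)) →
        (s((x, y), v) ∈ edg (regF L a (2 * T + 1)) ∨ s((x, y), v) ∈ dB_E0 L T) ∨
          s((x, y), v) ∈ dB_E1 L T := by
      intro x y v hv h
      rw [dB_mem_edg, dB_mem_regF, dB_mem_regF] at h
      obtain ⟨h1, h2, h3⟩ := h
      simp only at h1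
      push_cast at h1 h2
      by_cases c1 : x - y + 1 ≤ 2 * T + 1
      · left; left
        rw [dB_mem_edg, dB_mem_regF, dB_mem_regF]
        refine ⟨by simp only; omega, ?_, h3⟩
        rcases hv with rfl | rfl
        · simp only at h2 ⊢; omega
        · simp only at h2 ⊢; omega
      · by_cases c2 : x - y = 2 * T + 1
        · left; right
          unfold dB_E0
          rw [mem_image]
          obtain ⟨k, hk⟩ : ∃ k : ℕ, x + y = 2 * (k:ℤ) + 1 := ⟨((x + y) / 2).toNat, by omega⟩
          rcases hv with rfl | rfl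
          · simp only at h2
            refine ⟨2 * k + 1, by rw [mem_Ico]; omega, ?_⟩
            unfold dB_ed
            rw [show (2 * k + 1) / 2 = k by omega, show (2 * k + 1 + 1) / 2 = k + 1 by omega,
              dB_fr_in (by omega), dB_g_in (by omega)]
            have e1 : (k:ℤ) + T + 1 = x := by omega
            have e2 : (k:ℤ) - T = y := by omega
            have e3 : ((k + 1 : ℕ):ℤ) + T + 1 = x + 1 := by push_cast; omega
            have e4 : ((k + 1 : ℕ):ℤ) - T - 1 = y := by push_cast; omega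
            rw [e1, e2, e3, e4]
          · simp only at h2
            refine ⟨2 * k, by rw [mem_Ico]; omega, ?_⟩
            unfold dB_ed
            rw [show (2 * k) / 2 = k by omega, show (2 * k + 1) / 2 = k by omega,
              dB_fr_in (by omega), dB_g_in (by omega)]
            have e1 : (k:ℤ) + T + 1 = x := by omega
            have e2 : (k:ℤ) - T = y := by omega
            have e4 : (k:ℤ) - T - 1 = y - 1 := by omega
            rw [e4, e1, e2]
        · right
          unfold dB_E1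
          rw [mem_image]
          obtain ⟨k, hk⟩ : ∃ k : ℕ, x + y = 2 * (k:ℤ) := ⟨((x + y) / 2).toNat, by
            rcases hv with rfl | rfl
            · simp only at h2; omega
            · simp only at h2; omega⟩
          rcases hv with rfl | rfl
          · simp only at h2
            refine ⟨2 * k + 1, by rw [mem_Ico]; omega, ?_⟩
            unfold dB_ed
            rw [show (2 * k + 1) / 2 = k by omega, show (2 * k + 1 + 1) / 2 = k + 1 by omega,
              dB_g_in (by omega), dB_h_in (by omega)]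
            have e1 : (k:ℤ) + T + 1 = x := by omega
            have e2 : (k:ℤ) - T - 1 = y := by omega
            have e3 : ((k + 1 : ℕ):ℤ) + T + 1 = x + 1 := by push_cast; omega
            have e4 : ((k + 1 : ℕ):ℤ) - T - 2 = y := by push_cast; omega
            rw [e1, e2, e3, e4]
          · simp only at h2
            refine ⟨2 * k, by rw [mem_Ico]; omega, ?_⟩
            unfold dB_ed
            rw [show (2 * k) / 2 = k by omega, show (2 * k + 1) / 2 = k by omega,
              dB_g_in (by omega), dB_h_in (by omega)]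
            have e1 : (k:ℤ) + T + 1 = x := by omega
            have e2 : (k:ℤ) - T - 1 = y := by omega
            have e4 : (k:ℤ) - T - 2 = y - 1 := by omega
            rw [e4, e1, e2]
    induction e using Sym2.ind with
    | _ u v =>
      have h' := h
      rw [dB_mem_edg] at h'
      obtain ⟨x, y⟩ := u
      rcases dB_adj h'.2.2 with hv | hv | hv | hv
      · exact key x y v (Or.inl hv) h
      · have hv' : (x, y) = (v.1 + 1, v.2) := by
          rw [hv, Prod.mk.injEq]; simp
        rw [Sym2.eq_swap] at h ⊢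
        exact key v.1 v.2 (x, y) (Or.inl hv') h
      · have hv' : (x, y) = (v.1, v.2 - 1) := by
          rw [hv, Prod.mk.injEq]; simp
        rw [Sym2.eq_swap] at h ⊢
        exact key v.1 v.2 (x, y) (Or.inr hv') h
      · exact key x y v (Or.inr hv) h

theorem dB_edges_line (L : ℕ) (a : ℤ) : edg (regF L a a) = ∅ := by
  rw [eq_empty_iff_forall_notMem]
  intro e h
  induction e using Sym2.ind with
  | _ u v =>
    rw [dB_mem_edg, dB_mem_regF, dB_mem_regF] at h
    obtain ⟨x, y⟩ := u
    rcases dB_adj h.2.2 with hv | hv | hv | hv <;>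
    · rw [hv] at h
      simp only at h
      omega

theorem law_strip (L : ℕ) (hL : 1 ≤ L) (N : ℕ) :
    law L (lw N) (edg (regF L 1 (2 * N + 1))) (fr L N) =
      ((Ts L) ^ N) (Finsupp.single (stQ L ∅ (fr L 0) ∅) 1) := by
  have _ := hL
  induction N with
  | zero =>
    rw [pow_zero, Nat.cast_zero, mul_zero, zero_add, dB_edges_line]
    unfold law lw
    simp
  | succ N ih =>
    rw [pow_succ', Module.End.mul_apply, ← ih, dB_double_row, dB_edges_step L N (by omega)]
    · push_cast
      rfl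
    · intro u v h
      rw [dB_mem_edg, dB_mem_regF] at h
      exact h.1.2.2.2

theorem init_mem (L : ℕ) (hL : 1 ≤ L) : stQ L ∅ (fr L 0) ∅ ∈ Rset L := by
  have _ := hL
  intro k
  have hcl : ∀ u v : V, cl ∅ u v → u = v := by
    intro u v h
    have hle : cl ∅ ≤ (⊥ : Setoid V) := by
      apply Setoid.eqvGen_le
      intro x y h
      exact absurd h (notMem_empty _)
    exact hle h
  refine ⟨fun _ => ⟨?_, ?_⟩, fun h => ?_⟩
  · intro y hy
    exact (dB_fr_inj (hcl _ _ hy)).symm
  · rintro ⟨u, hu, _⟩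
    exact absurd hu (notMem_empty _)
  · refine ⟨fr L 0 k, ?_, (cl ∅).refl _⟩
    rw [dB_fr_out (by omega)]
    simp only
    ring

end CC
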