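import Pool.Agent.Helper9.CC.DictB

/-! Crossing clusters of rectangles (module DICTC). -/

namespace CC
open Finset Filter Topology

/-- the clusters of `ω` which touch both walls of the rectangle `0 ≤ x + y ≤ L`, `0 ≤ x - y ≤ H` -/
def crossing (L H : ℕ) (ω : Finset (Sym2 V)) : Set (Set V) :=
  {S | ∃ u ∈ reg L 0 H, u.1 + u.2 = 0 ∧ S = {v | cl ω u v} ∧ ∃ v ∈ reg L 0 H, v.1 + v.2 = L ∧ v ∈ S}

/-- the expected number of crossing clusters of the rectangle -/
noncomputable def EN (L H : ℕ) : ℝ :=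
  ∑ ω ∈ (edg (regF L 0 H)).powerset, ((crossing L H ω).ncard : ℝ) * (1 / 2) ^ #(edg (regF L 0 H))

/-! ### clusters -/

theorem dC_cl_le {ω : Finset (Sym2 V)} {S : Setoid V} (h : ∀ u v, s(u, v) ∈ ω → S u v) : cl ω ≤ S :=
  Setoid.eqvGen_le h

theorem dC_cl_mem {ω : Finset (Sym2 V)} {S : Finset V} (hω : ω ⊆ edg S) {u v : V} (h : cl ω u v) :
    u = v ∨ (u ∈ S ∧ v ∈ S) := by
  let R : Setoid V :=
    { r := fun x y => x = y ∨ (x ∈ S ∧ y ∈ S)
      iseqv := by
        refine ⟨fun x => Or.inl rfl, ?_, ?_⟩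
        · rintro x y (rfl | ⟨h1, h2⟩)
          · exact Or.inl rfl
          · exact Or.inr ⟨h2, h1⟩
        · rintro x y z (rfl | ⟨h1, h2⟩) (rfl | ⟨h3, h4⟩)
          · exact Or.inl rfl
          · exact Or.inr ⟨h3, h4⟩
          · exact Or.inr ⟨h1, h2⟩
          · exact Or.inr ⟨h1, h4⟩ }
  have hR : cl ω ≤ R := dC_cl_le fun x y hxy => by
    have := hω hxy
    rw [dB_mem_edg] at this
    exact Or.inr ⟨this.1, this.2.1⟩
  exact hR h

theorem dC_cl_mono {ω ω' : Finset (Sym2 V)} (h : ω ⊆ ω') {u v : V} (h' : cl ω u v) : cl ω' u v :=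
  (dC_cl_le (ω := ω) (S := cl ω') fun x y hxy => Relation.EqvGen.rel _ _ (h hxy)) h'

/-- if the additional edges live on `P`, only the clusters of the points of `P` change -/
theorem dC_cl_change {ω ω' : Finset (Sym2 V)} {P : Finset V}
    (hP : ∀ x y, s(x, y) ∈ ω' → s(x, y) ∈ ω ∨ (x ∈ P ∧ y ∈ P)) {u v : V} (h : cl ω' u v) :
    cl ω u v ∨ ∃ p ∈ P, cl ω u p := by
  let R : Setoid V :=
    { r := fun x y => cl ω x y ∨ ((∃ p ∈ P, cl ω x p) ∧ ∃ p ∈ P, cl ω y p)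
      iseqv := by
        refine ⟨fun x => Or.inl ((cl ω).refl _), ?_, ?_⟩
        · rintro x y (h1 | ⟨h1, h2⟩)
          · exact Or.inl ((cl ω).symm h1)
          · exact Or.inr ⟨h2, h1⟩
        · rintro x y z (h1 | ⟨h1, h2⟩) (h3 | ⟨h3, h4⟩)
          · exact Or.inl ((cl ω).trans h1 h3)
          · obtain ⟨p, hp, h5⟩ := h3
            exact Or.inr ⟨⟨p, hp, (cl ω).trans h1 h5⟩, h4⟩
          · obtain ⟨p, hp, h5⟩ := h2
            exact Or.inr ⟨h1, ⟨p, hp, (cl ω).trans ((cl ω).symm h3) h5⟩⟩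
          · exact Or.inr ⟨h1, h4⟩ }
  have hR : cl ω' ≤ R := dC_cl_le fun x y hxy => by
    rcases hP x y hxy with h1 | ⟨h1, h2⟩
    · exact Or.inl (Relation.EqvGen.rel _ _ h1)
    · exact Or.inr ⟨⟨x, h1, (cl ω).refl _⟩, ⟨y, h2, (cl ω).refl _⟩⟩
  rcases hR h with h1 | ⟨h1, _⟩
  · exact Or.inl h1
  · exact Or.inr h1

/-- the clusters which touch both lines -/
def dC_X (L : ℕ) (ω : Finset (Sym2 V)) : Set (Set V) :=
  {S | ∃ u v : V, u.1 + u.2 = 0 ∧ v.1 + v.2 = L ∧ cl ω u v ∧ S = {z | cl ω u z}}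

theorem dC_X_finite {L : ℕ} (hL : 1 ≤ L) {ω : Finset (Sym2 V)} {S : Finset V} (hω : ω ⊆ edg S) :
    (dC_X L ω).Finite := by
  refine Set.Finite.subset ((S.finite_toSet).image (fun u => {z | cl ω u z})) ?_
  rintro A ⟨u, v, h1, h2, h3, rfl⟩
  refine ⟨u, ?_, rfl⟩
  rcases dC_cl_mem hω h3 with rfl | h
  · omega
  · exact h.1

theorem dC_crossing {L H : ℕ} (hL : 1 ≤ L) {ω : Finset (Sym2 V)} (hω : ω ⊆ edg (regF L 0 H)) :
    crossing L H ω = dC_X L ω := by
  ext A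
  constructor
  · rintro ⟨u, _, h1, h2, v, _, h3, h4⟩
    refine ⟨u, v, h1, h3, ?_, h2⟩
    rw [h2] at h4
    exact h4
  · rintro ⟨u, v, h1, h2, h3, h4⟩
    rcases dC_cl_mem hω h3 with rfl | ⟨h5, h6⟩
    · omega
    · rw [dB_mem_regF] at h5 h6
      exact ⟨u, h5, h1, h4, v, h6, h2, by rw [h4]; exact h3⟩

theorem dC_ncard_image {ι α : Type*} (f : ι → α) (P : Finset ι) : (f '' (P : Set ι)).ncard ≤ #P := by
  have := Set.ncard_image_le (f := f) (P.finite_toSet)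
  rwa [Set.ncard_coe_finset] at this

theorem dC_ncard_le {α ι : Type*} {A B : Set α} {f : ι → α} {P : Finset ι} (hB : B.Finite)
    (h : A ⊆ B ∪ f '' (P : Set ι)) : A.ncard ≤ B.ncard + #P := by
  have h1 : (f '' (P : Set ι)).Finite := (P.finite_toSet).image f
  calc A.ncard ≤ (B ∪ f '' (P : Set ι)).ncard := Set.ncard_le_ncard h (hB.union h1)
    _ ≤ B.ncard + (f '' (P : Set ι)).ncard := Set.ncard_union_le _ _
    _ ≤ B.ncard + #P := by
      have := dC_ncard_image f P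
      omega

theorem dC_X_change {L : ℕ} (hL : 1 ≤ L) {ω ω' : Finset (Sym2 V)} {S P : Finset V} (hω' : ω' ⊆ edg S)
    (h : ω ⊆ ω') (hP : ∀ x y, s(x, y) ∈ ω' → s(x, y) ∈ ω ∨ (x ∈ P ∧ y ∈ P)) :
    (dC_X L ω).ncard ≤ (dC_X L ω').ncard + #P ∧ (dC_X L ω').ncard ≤ (dC_X L ω).ncard + #P := by
  have key : ∀ u v, cl ω' u v → (∀ p ∈ P, ¬ cl ω u p) → cl ω u v := by
    intro u v h1 h2
    rcases dC_cl_change hP h1 with h3 | ⟨p, hp, h3⟩
    · exact h3
    · exact absurd h3 (h2 p hp)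
  constructor
  · refine dC_ncard_le (f := fun p => {z | cl ω p z}) (dC_X_finite hL hω') ?_
    rintro A ⟨u, v, h1, h2, h3, rfl⟩
    by_cases hp : ∃ p ∈ P, cl ω u p
    · obtain ⟨p, hp, h4⟩ := hp
      right
      refine ⟨p, hp, ?_⟩
      ext z
      exact ⟨fun h5 => (cl ω).trans h4 h5, fun h5 => (cl ω).trans ((cl ω).symm h4) h5⟩
    · left
      refine ⟨u, v, h1, h2, dC_cl_mono h h3, ?_⟩
      ext z
      exact ⟨fun h5 => dC_cl_mono h h5, fun h5 => key u z h5 (fun p hp' h6 => hp ⟨p, hp', h6⟩)⟩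
  · refine dC_ncard_le (f := fun p => {z | cl ω' p z}) (dC_X_finite hL (h.trans hω')) ?_
    rintro A ⟨u, v, h1, h2, h3, rfl⟩
    by_cases hp : ∃ p ∈ P, cl ω' u p
    · obtain ⟨p, hp, h4⟩ := hp
      right
      refine ⟨p, hp, ?_⟩
      ext z
      exact ⟨fun h5 => (cl ω').trans h4 h5, fun h5 => (cl ω').trans ((cl ω').symm h4) h5⟩
    · left
      have hp' : ∀ p ∈ P, ¬ cl ω u p := fun p hp' h6 => hp ⟨p, hp', dC_cl_mono h h6⟩
      refine ⟨u, v, h1, h2, key u v h3 hp', ?_⟩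
      ext z
      exact ⟨fun h5 => key u z h5 hp', fun h5 => dC_cl_mono h h5⟩

theorem dC_fin {L N : ℕ} (hL : 1 ≤ L) {ω : Finset (Sym2 V)} (hω : ω ⊆ edg (regF L 1 (2 * N + 1))) :
    (fin L (lw N) (fr L N) ω).ncard ≤ (dC_X L ω).ncard ∧
      (dC_X L ω).ncard ≤ (fin L (lw N) (fr L N) ω).ncard + L := by
  constructor
  · refine Set.ncard_le_ncard ?_ (dC_X_finite hL hω)
    rintro A ⟨⟨u, hu, rfl⟩, ⟨v, hv, h2⟩, _⟩
    rw [dB_mem_lw] at hu
    obtain ⟨t, ht, rfl⟩ := hu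
    exact ⟨_, v, by simp only; ring, h2, hv, rfl⟩
  · have h0 := dC_ncard_le (A := dC_X L ω) (f := fun k : ℕ => {z | cl ω (fr L N k) z}) (P := range L)
      (fin_finite L (lw N) (fr L N) ω) ?_
    · rwa [card_range] at h0
    · rintro A ⟨u, v, h1, h2, h3, rfl⟩
      rcases dC_cl_mem hω h3 with rfl | ⟨h5, h6⟩
      · omega
      · by_cases hk : ∃ k, cl ω u (fr L N k)
        · obtain ⟨k, hk⟩ := hk
          right
          refine ⟨k, ?_, ?_⟩
          · rw [Finset.mem_coe, mem_range]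
            by_contra hlt
            rw [not_lt] at hlt
            rcases dC_cl_mem hω hk with h7 | ⟨_, h7⟩
            · rw [h7, dB_fr_out (by omega)] at h1
              simp only at h1
              omega
            · rw [dB_fr_out (by omega), dB_mem_regF] at h7
              simp only at h7
              omega
          · ext z
            exact ⟨fun h5 => (cl ω).trans hk h5, fun h5 => (cl ω).trans ((cl ω).symm hk) h5⟩
        · left
          refine ⟨⟨u, ?_, rfl⟩, ⟨v, h3, h2⟩, fun k hk' => hk ⟨k, hk'⟩⟩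
          rw [dB_mem_regF] at h5
          rw [dB_mem_lw]
          obtain ⟨x, y⟩ := u
          simp only at h1 h5
          refine ⟨(x - 1).toNat, by omega, ?_⟩
          rw [Prod.mk.injEq]
          omega

/-! ### expectations -/

theorem dC_restrict {α : Type*} [DecidableEq α] (f : Finset α → ℝ) (F D : Finset α) (h : Disjoint F D) :
    ∑ ω ∈ (F ∪ D).powerset, f (ω ∩ F) = 2 ^ #D * ∑ ω ∈ F.powerset, f ω := by
  induction D using Finset.induction_on with
  | empty =>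
    rw [union_empty, card_empty, pow_zero, one_mul]
    refine sum_congr rfl fun ω hω => ?_
    rw [mem_powerset] at hω
    rw [inter_eq_left.2 hω]
  | insert e D he ih =>
    rw [disjoint_insert_right] at h
    rw [union_insert, sum_powerset_insert (by rw [mem_union, not_or]; exact ⟨h.1, he⟩), ih h.2,
      card_insert_of_notMem he, pow_succ]
    have e1 : ∑ ω ∈ (F ∪ D).powerset, f (insert e ω ∩ F) = ∑ ω ∈ (F ∪ D).powerset, f (ω ∩ F) := by
      refine sum_congr rfl fun ω _ => ?_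
      rw [insert_inter_of_notMem h.1]
    rw [e1, ih h.2]
    ring

theorem dC_expect {α : Type*} [DecidableEq α] (f : Finset α → ℝ) {F G : Finset α} (h : F ⊆ G) :
    ∑ ω ∈ F.powerset, f ω * (1 / 2) ^ #F = ∑ ω ∈ G.powerset, f (ω ∩ F) * (1 / 2) ^ #G := by
  have h1 := dC_restrict f F (G \ F) disjoint_sdiff
  rw [union_sdiff_of_subset h] at h1
  rw [← sum_mul, ← sum_mul, h1]
  have h2 : #G = #(G \ F) + #F := by
    rw [card_sdiff_add_card_eq_card h]
  rw [h2, pow_add]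
  have h3 : (2:ℝ) ^ #(G \ F) * (1 / 2) ^ #(G \ F) = 1 := by
    rw [← mul_pow]; norm_num
  linear_combination (-(∑ ω ∈ F.powerset, f ω) * (1 / 2) ^ #F) * h3

theorem dC_sum_one {α : Type*} [DecidableEq α] (G : Finset α) :
    ∑ _ω ∈ G.powerset, ((1:ℝ) / 2) ^ #G = 1 := by
  rw [sum_const, card_powerset, nsmul_eq_mul]
  push_cast
  rw [← mul_pow]
  norm_num

theorem dC_card_reg (L : ℕ) (a : ℤ) : #(regF L a (a + 1)) ≤ 2 * (L + 1) := by
  have h1 : #(regF L a (a + 1)) ≤ #((range (L + 1)) ×ˢ (range 2)) := by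
    refine card_le_card_of_injOn (fun v : V => ((v.1 + v.2).toNat, (v.1 - v.2 - a).toNat)) ?_ ?_
    · intro v hv
      rw [Finset.mem_coe, dB_mem_regF] at hv
      rw [Finset.mem_coe, mem_product, mem_range, mem_range]
      simp only
      omega
    · intro u hu v hv h
      rw [Finset.mem_coe, dB_mem_regF] at hu hv
      simp only [Prod.mk.injEq] at h
      obtain ⟨x, y⟩ := u
      obtain ⟨x', y'⟩ := v
      simp only at hu hv h
      rw [Prod.mk.injEq]
      omega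
  rw [card_product, card_range, card_range] at h1
  omega

theorem dC_cn_law (L : ℤ) (WL : Finset V) (F : Finset (Sym2 V)) (f : ℕ → V) :
    cn (law L WL F f) = ((∑ ω ∈ F.powerset, ((fin L WL f ω).ncard : ℝ) * (1 / 2) ^ #F : ℝ) : ℂ) := by
  unfold law
  rw [map_sum]
  push_cast
  refine sum_congr rfl fun ω _ => ?_
  rw [cn_single]
  unfold stQ
  simp

/-- comparison with the counter -/
theorem EN_cn (L : ℕ) (hL : 1 ≤ L) : ∃ C : ℝ, ∀ N : ℕ, ∀ H : ℕ, 2 * N ≤ H → H ≤ 2 * N + 1 →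
    ‖(EN L H : ℂ) - cn (((Ts L) ^ N) (Finsupp.single (stQ L ∅ (fr L 0) ∅) 1))‖ ≤ C := by
  refine ⟨5 * L + 4, fun N H h1 h2 => ?_⟩
  rw [← law_strip L hL N, dC_cn_law]
  set G : Finset (Sym2 V) := edg (regF L 0 (2 * N + 1)) with hG
  set F1 : Finset (Sym2 V) := edg (regF L 0 H) with hF1
  set F2 : Finset (Sym2 V) := edg (regF L 1 (2 * N + 1)) with hF2
  have hsub : ∀ a b a' b' : ℤ, a' ≤ a → b ≤ b' → edg (regF L a b) ⊆ edg (regF L a' b') := by
    intro a b a' b' h3 h4 e he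
    induction e using Sym2.ind with
    | _ u v =>
      rw [dB_mem_edg, dB_mem_regF, dB_mem_regF] at he ⊢
      exact ⟨by omega, by omega, he.2.2⟩
  have s1 : F1 ⊆ G := hsub _ _ _ _ le_rfl (by push_cast; omega)
  have s2 : F2 ⊆ G := hsub _ _ _ _ (by omega) le_rfl
  have e1 : EN L H = ∑ ω ∈ G.powerset, ((crossing L H (ω ∩ F1)).ncard : ℝ) * (1 / 2) ^ #G := by
    unfold EN
    exact dC_expect (fun ω => ((crossing L H ω).ncard : ℝ)) s1
  have e2 : ∑ ω ∈ F2.powerset, ((fin L (lw N) (fr L N) ω).ncard : ℝ) * (1 / 2) ^ #F2 =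
      ∑ ω ∈ G.powerset, ((fin L (lw N) (fr L N) (ω ∩ F2)).ncard : ℝ) * (1 / 2) ^ #G :=
    dC_expect (fun ω => ((fin L (lw N) (fr L N) ω).ncard : ℝ)) s2
  rw [e1, e2, ← Complex.ofReal_sub, Complex.norm_real, ← sum_sub_distrib, Real.norm_eq_abs]
  refine (abs_sum_le_sum_abs _ _).trans ?_
  have e3 : ((5 * L + 4 : ℕ) : ℝ) = ∑ _ω ∈ G.powerset, ((5 * L + 4 : ℕ) : ℝ) * ((1:ℝ) / 2) ^ #G := by
    rw [← mul_sum, dC_sum_one, mul_one]
  have e4 : (5 * (L:ℝ) + 4) = ((5 * L + 4 : ℕ) : ℝ) := by push_cast; ring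
  rw [e4, e3]
  refine sum_le_sum fun ω hω => ?_
  rw [mem_powerset] at hω
  rw [← sub_mul, abs_mul, abs_of_nonneg (show (0:ℝ) ≤ (1 / 2) ^ #G by positivity)]
  refine mul_le_mul_of_nonneg_right ?_ (by positivity)
  have i1 : ω ∩ F1 ⊆ edg (regF L 0 H) := inter_subset_right
  have i2 : ω ∩ F2 ⊆ edg (regF L 1 (2 * N + 1)) := inter_subset_right
  rw [dC_crossing hL i1]
  have j1 := dC_fin hL i2
  have j2 := dC_X_change (L := L) hL (ω := ω ∩ F1) (ω' := ω) (S := regF L 0 (2 * N + 1))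
    (P := regF L (2 * N) (2 * N + 1)) hω inter_subset_left (by
      intro x y hxy
      have h3 := hω hxy
      rw [hG, dB_mem_edg, dB_mem_regF, dB_mem_regF] at h3
      by_cases h4 : x.1 - x.2 ≤ H ∧ y.1 - y.2 ≤ H
      · left
        rw [mem_inter]
        refine ⟨hxy, ?_⟩
        rw [hF1, dB_mem_edg, dB_mem_regF, dB_mem_regF]
        exact ⟨by omega, by omega, h3.2.2⟩
      · right
        rw [dB_mem_regF, dB_mem_regF]
        obtain ⟨x1, x2⟩ := x
        rcases dB_adj h3.2.2 with hv | hv | hv | hv <;>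
        · rw [hv] at h3 h4 ⊢
          simp only at h3 h4 ⊢
          omega)
  have j3 := dC_X_change (L := L) hL (ω := ω ∩ F2) (ω' := ω) (S := regF L 0 (2 * N + 1))
    (P := regF L 0 (0 + 1)) hω inter_subset_left (by
      intro x y hxy
      have h3 := hω hxy
      rw [hG, dB_mem_edg, dB_mem_regF, dB_mem_regF] at h3
      by_cases h4 : 1 ≤ x.1 - x.2 ∧ 1 ≤ y.1 - y.2
      · left
        rw [mem_inter]
        refine ⟨hxy, ?_⟩
        rw [hF2, dB_mem_edg, dB_mem_regF, dB_mem_regF]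
        exact ⟨by omega, by omega, h3.2.2⟩
      · right
        rw [dB_mem_regF, dB_mem_regF]
        obtain ⟨x1, x2⟩ := x
        rcases dB_adj h3.2.2 with hv | hv | hv | hv <;>
        · rw [hv] at h3 h4 ⊢
          simp only at h3 h4 ⊢
          omega)
  have k1 := dC_card_reg L (2 * N)
  have k2 := dC_card_reg L 0
  have m1 : (dC_X L (ω ∩ F1)).ncard ≤ (fin L (lw N) (fr L N) (ω ∩ F2)).ncard + (5 * L + 4) := by omega
  have m2 : (fin L (lw N) (fr L N) (ω ∩ F2)).ncard ≤ (dC_X L (ω ∩ F1)).ncard + (5 * L + 4) := by omega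
  have m1' : ((dC_X L (ω ∩ F1)).ncard : ℝ) ≤
      (fin L (lw N) (fr L N) (ω ∩ F2)).ncard + ((5 * L + 4 : ℕ) : ℝ) := by exact_mod_cast m1
  have m2' : ((fin L (lw N) (fr L N) (ω ∩ F2)).ncard : ℝ) ≤
      (dC_X L (ω ∩ F1)).ncard + ((5 * L + 4 : ℕ) : ℝ) := by exact_mod_cast m2
  rw [abs_le]
  constructor <;> linarith

end CC
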