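import Pool.Agent.Helper9.CC.RR

/-! Special values of the transfer matrix and the reservoir space (module SPEC). -/

namespace CC

theorem Erow_x0 (m : ℕ) : Erow 0 (m + 1) x0 = E 0 x0 := by
  induction m with
  | zero => rfl
  | succ m ih =>
    rw [Erow_succ, Erow_succ, show 0 + (m + 1) = 0 + m + 1 by ring, E_x0', ← Erow_succ, ih]

theorem x0_mem (L : ℕ) : x0 ∈ Rs L := by
  refine ⟨fun i _ => E_x0 i, fun i _ => E_x0' i, fun m _ => ?_⟩
  rw [Erow_x0, DE_x0]

theorem Erow_E_far (o k : ℕ) {j : ℕ} (h : o + k + 1 ≤ j) (x : M) :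
    Erow o k (E j x) = E j (Erow o k x) := by
  induction k generalizing x with
  | zero => rfl
  | succ k ih => rw [Erow_succ, Erow_succ, E_comm (by omega), ih (by omega)]

/-- `E_0 ... E_m E_i = E_{i+2} E_0 ... E_m` -/
theorem Erow_E_shift (m : ℕ) {i : ℕ} (h : i + 2 ≤ m) (x : M) :
    Erow 0 (m + 1) (E i x) = E (i + 2) (Erow 0 (m + 1) x) := by
  induction m generalizing x with
  | zero => omega
  | succ m ih =>
    rcases Nat.lt_or_ge m (i + 2) with h1 | h1
    · obtain rfl : m = i + 1 := by omega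
      have e1 : Erow 0 (i + 1 + 1 + 1) (E i x) = Erow 0 i (E i (E (i + 2) x)) := by
        rw [Erow_succ, Erow_succ, Erow_succ]
        rw [show 0 + (i + 1 + 1) = i + 2 by ring, show 0 + (i + 1) = i + 1 by ring,
          show 0 + i = i by ring]
        rw [← E_comm (show i + 2 ≤ i + 2 by omega), E_succ]
      have e2 : E (i + 2) (Erow 0 (i + 1 + 1 + 1) x) = Erow 0 i (E i (E (i + 2) x)) := by
        rw [Erow_succ, Erow_succ, Erow_succ]
        rw [show 0 + (i + 1 + 1) = i + 2 by ring, show 0 + (i + 1) = i + 1 by ring,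
          show 0 + i = i by ring]
        rw [← Erow_E_far 0 i (by omega), ← E_comm (show i + 2 ≤ i + 2 by omega)]
        rw [show i + 2 = i + 1 + 1 by ring, E_pred]
      rw [e1, e2]
    · rw [Erow_succ 0 (m + 1), Erow_succ 0 (m + 1), ← E_comm (show i + 2 ≤ 0 + (m + 1) by omega),
        ih (by omega)]

/-- the operators of the shape polynomial in `E 0, ..., E n` -/
structure Pol (n : ℕ) (A : M → M) : Prop where
  comm : ∀ j, n + 2 ≤ j → ∀ x, E j (A x) = A (E j x)
  row : ∀ m, n + 2 ≤ m → ∀ x, D (Erow 0 (m + 1) (A x)) = A (D (Erow 0 (m + 1) x))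

theorem Pol.comp {n : ℕ} {A B : M → M} (hA : Pol n A) (hB : Pol n B) :
    Pol n (fun x => A (B x)) where
  comm j hj x := by rw [hA.comm j hj, hB.comm j hj]
  row m hm x := by rw [hA.row m hm, hB.row m hm]

theorem Pol.lin {n i : ℕ} (h : i ≤ n) (a b : ℂ) : Pol n (fun x => a • x + b • E i x) where
  comm j hj x := by simp only [map_add, map_smul, E_comm (show i + 2 ≤ j by omega)]
  row m hm x := by
    simp only [map_add, map_smul, Erow_E_shift m (show i + 2 ≤ m by omega), D_E]

theorem Pol.ofR {n i : ℕ} (h : i ≤ n) (p q : ℂ) : Pol n (fun x => R i p q x) := by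
  simp only [R_apply]
  exact Pol.lin h _ _

theorem Pol.ofKL {n i : ℕ} (h : i ≤ n) (z : ℂ) : Pol n (fun x => KL i z x) := by
  simp only [KL_apply]
  exact Pol.lin h _ _

theorem Pol.ofKR {n i : ℕ} (h : i ≤ n) (z : ℂ) : Pol n (fun x => KR i z x) := by
  simp only [KR_apply]
  exact Pol.lin h _ _

theorem Pol.ofId (n : ℕ) : Pol n (fun x => x) where
  comm _ _ _ := rfl
  row _ _ _ := rfl

theorem Pol.ofRow {n o k : ℕ} (h : o + k ≤ n + 1) (p q : ℂ) :
    Pol n (fun x => CC.row o p q k x) := by
  induction k with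
  | zero => exact Pol.ofId n
  | succ k ih =>
    simp only [row_succ]
    exact (ih (by omega)).comp (Pol.ofR (by omega) p q)

theorem DDErow (m : ℕ) (y : M) : D (D (Erow 2 (m + 1) y)) = D (D (Erow 0 (m + 3) y)) := by
  rw [show m + 3 = m + 1 + 1 + 1 by ring, Erow_succ' 0 (m + 1 + 1), Erow_succ' (0 + 1) (m + 1)]
  rw [show 0 + 1 + 1 = 2 by ring, show 0 + 1 = 1 by ring, DDE01, Erow_succ' 2, DDE12]

/-- Proof: `T L z x = D y` with `y` = a polynomial in `E 0, ..., E L` applied to `x`; `E j`, `j ≥ L + 2`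
commutes with it; `Erow 0 (m+1) (E i x) = E (i+2) (Erow 0 (m+1) x)` for `i + 2 ≤ m`, and
`D (D (Erow 2 (m+1) y)) = D (D (Erow 0 (m+3) y))` by `DDE12`, `DDE01`. -/
theorem T_mem (L : ℕ) (z : ℂ) {x : M} (hx : x ∈ Rs L) : T L z x ∈ Rs L := by
  obtain ⟨h1, h2, h3⟩ := hx
  have hP : Pol L (fun x => KL 0 z (CC.row 1 w z L (CC.row 0 (w * z) 1 L (KR L z x)))) :=
    (Pol.ofKL (Nat.zero_le L) z).comp ((Pol.ofRow (by omega) w z).comp
      ((Pol.ofRow (by omega) (w * z) 1).comp (Pol.ofKR le_rfl z)))
  rw [T_apply]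
  set P : M → M := fun x => KL 0 z (CC.row 1 w z L (CC.row 0 (w * z) 1 L (KR L z x))) with hPd
  have hPx : KL 0 z (CC.row 1 w z L (CC.row 0 (w * z) 1 L (KR L z x))) = P x := rfl
  rw [hPx]
  refine ⟨fun i hi => ?_, fun i hi => ?_, fun m hm => ?_⟩
  · rw [← D_E, ← D_E, ← D_E, hP.comm _ (by omega), hP.comm _ (by omega), hP.comm _ (by omega),
      show i + 1 + 2 = i + 2 + 1 by ring, h1 _ (by omega)]
  · rw [← D_E, ← D_E, ← D_E, hP.comm _ (by omega), hP.comm _ (by omega), hP.comm _ (by omega),
      show i + 1 + 2 = i + 2 + 1 by ring, h2 _ (by omega)]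
  · have e : ∀ (k : ℕ) (y : M), Erow 0 k (D y) = D (Erow 2 k y) := by
      intro k
      induction k with
      | zero => intro y; rfl
      | succ k ih =>
        intro y
        rw [Erow_succ, Erow_succ, ← D_E, ih, show 2 + k = 0 + k + 2 by ring]
    rw [e, DDErow, show m + 3 = m + 2 + 1 by ring, hP.row _ (by omega), h3 _ (by omega)]

/-- at `z = w` the transfer matrix is a multiple of the identity:
`R i (w * w) 1 = (w - 2) E i`, `R i w w = (w - 2)`, `KR L w = .. E L` -/
theorem T_w (L : ℕ) {x : M} (hx : x ∈ Rs L) : T L w x = nT L w • x := by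
  obtain ⟨h1, h2, h3⟩ := hx
  have a1 : KR L w x = (w - 1) • E L x := by
    rw [KR_apply]
    match_scalars
    · linear_combination w_sq
    · ring
  have a2 : ∀ (k : ℕ) (y : M), CC.row 0 (w * w) 1 k y = (w - 2) ^ k • Erow 0 k y := by
    intro k
    induction k with
    | zero => intro y; simp [row_zero, Erow_zero]
    | succ k ih =>
      intro y
      have : R (0 + k) (w * w) 1 y = (w - 2) • E (0 + k) y := by
        rw [R_apply]
        match_scalars
        · linear_combination (w - 1 + 1) * w_sq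
        · linear_combination w_sq
      rw [row_succ, this, ih, Erow_succ, map_smul, smul_smul, pow_succ]
  have a3 : ∀ (k : ℕ) (y : M), CC.row 1 w w k y = (w - 2) ^ k • y := by
    intro k
    induction k with
    | zero => intro y; simp [row_zero]
    | succ k ih =>
      intro y
      have : R (1 + k) w w y = (w - 2) • y := by
        rw [R_apply]
        match_scalars
        · linear_combination 2 * w_sq
        · ring
      rw [row_succ, this, ih, smul_smul, pow_succ]
  have a4 : ∀ y : M, KL 0 w (E 0 y) = (2 * w - 2) • E 0 y := by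
    intro y
    rw [KL_apply, E_E]
    match_scalars
    linear_combination w_sq
  have e : Erow 0 L (E L x) = E 0 (Erow 1 L x) := by
    have := Erow_succ 0 L x
    rw [zero_add] at this
    rw [← this, Erow_succ']
  have e' : D (Erow 0 L (E L x)) = x := by
    have := h3 L le_rfl
    rwa [Erow_succ, zero_add] at this
  have b1 : w ^ 2 * (1 + w) = w - 2 := by linear_combination (w + 2) * w_sq
  have b2 : w * w - (1 - w) = 2 * w - 2 := by linear_combination w_sq
  have b3 : w - (1 - w) * w = w - 1 := by linear_combination w_sq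
  rw [T_apply, a1]
  simp only [map_smul, a2, a3]
  rw [e, a4, ← e]
  simp only [map_smul]
  rw [e']
  simp only [smul_smul]
  congr 1
  unfold nT
  rw [b1, b2, b3]
  ring

theorem T_winv (L : ℕ) {x : M} (hx : x ∈ Rs L) : T L (1 - w) x = nT L (1 - w) • x := by
  obtain ⟨h1, h2, h3⟩ := hx
  have a2 : ∀ (k : ℕ) (y : M), CC.row 0 (w * (1 - w)) 1 k y = (2 * w - 1) ^ k • y := by
    intro k
    induction k with
    | zero => intro y; simp [row_zero]
    | succ k ih =>
      intro y
      have : R (0 + k) (w * (1 - w)) 1 y = (2 * w - 1) • y := by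
        rw [R_apply, w_mul]
        match_scalars <;> ring
      rw [row_succ, this, ih, smul_smul, pow_succ]
  have a3 : ∀ (k : ℕ) (y : M), CC.row 1 w (1 - w) k y = (2 * w - 1) ^ k • Erow 1 k y := by
    intro k
    induction k with
    | zero => intro y; simp [row_zero, Erow_zero]
    | succ k ih =>
      intro y
      have : R (1 + k) w (1 - w) y = (2 * w - 1) • E (1 + k) y := by
        rw [R_apply]
        match_scalars <;> ring
      rw [row_succ, this, ih, Erow_succ, map_smul, smul_smul, pow_succ]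
  have a4 : ∀ y : M, KL 0 (1 - w) y = w • E 0 y := by
    intro y
    rw [KL_apply]
    match_scalars
    · linear_combination (-1) * w_sq
    · ring
  have a1 : KR L (1 - w) x = (3 * w) • x - w • E L x := by
    rw [KR_apply]
    match_scalars
    · linear_combination (-1) * w_sq
    · ring
  have e : E 0 (Erow 1 L x) = Erow 0 L (E L x) := by
    have := Erow_succ 0 L x
    rw [zero_add] at this
    rw [← this, Erow_succ']
  have e1 : E 0 (Erow 1 L (E L x)) = Erow 0 L (E L x) := by
    have := Erow_succ 0 L (E L x)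
    rw [zero_add, E_E] at this
    rw [← this, Erow_succ']
  have e' : D (Erow 0 L (E L x)) = x := by
    have := h3 L le_rfl
    rwa [Erow_succ, zero_add] at this
  have b1 : w ^ 2 * (1 + (1 - w)) = 2 * w - 1 := by linear_combination (1 - w) * w_sq
  rw [T_apply, a1]
  simp only [a2, a3, a4, map_smul, map_sub]
  rw [e, e1]
  simp only [e', smul_smul]
  have b2 : w * (1 - w) - (1 - w) = w := by linear_combination (-1) * w_sq
  have b3 : w - (1 - w) * (1 - w) = 2 * w := by linear_combination (-1) * w_sq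
  unfold nT
  rw [b1, b2, b3]
  match_scalars
  ring

/-- at `z = 0`: `R (k+1) w 0 (R k 0 1 (KR (k+1) 0 x0)) = (-w) • KR k 0 x0` -/
theorem T_zero (L : ℕ) : T L 0 x0 = nT L 0 • ((3:ℂ) • Xi x0 - (2:ℂ) • x0) := by
  have a1 : ∀ k : ℕ, R (k + 1) w 0 (R k 0 1 (KR (k + 1) 0 x0)) = (-w) • KR k 0 x0 := by
    intro k
    simp only [KR_apply, R_apply, map_add, map_smul, E_x0', E_x0, E_E]
    match_scalars
    · linear_combination (w * (1 + w)) * w_sq
    · ring
    · linear_combination (-w) * w_sq
  have a2 : ∀ k : ℕ, prow 0 w 0 0 1 k (KR k 0 x0) = (-w) ^ k • KR 0 0 x0 := by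
    intro k
    induction k with
    | zero => simp [prow]
    | succ k ih =>
      have a3 : ∀ (j : ℕ) (c : ℂ) (y : M), prow 0 w 0 0 1 j (c • y) = c • prow 0 w 0 0 1 j y := by
        intro j c y
        rw [← row_row, ← row_row, map_smul, map_smul]
      change prow 0 w 0 0 1 k (R (0 + k + 1) w 0 (R (0 + k) 0 1 (KR (k + 1) 0 x0))) = _
      rw [zero_add, a1, a3, ih, smul_smul, pow_succ']
  have b1 : nT L 0 = -(-w) ^ L := by
    unfold nT
    rw [pow_mul]
    have : (w ^ 2 * (1 + 0)) ^ 2 = -w := by linear_combination w * w_cube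
    rw [this]
    linear_combination (-(-w) ^ L) * w_mul
  rw [T_apply, mul_zero, row_row 0 L, a2, b1]
  simp only [map_smul, KR_apply, KL_apply, map_add, E_E, D_x0, DE_x0]
  match_scalars
  · linear_combination ((-w) ^ L) * w_sq
  · ring

end CC
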