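import Pool.Agent.Helper9.CC.Comm
import Pool.Agent.Helper9.CC.Spec

/-! Ergodicity (module DOEB). -/

namespace CC
open Filter Topology

/-- integration of a function on the states -/
noncomputable def itg (g : Q → ℂ) : M →ₗ[ℂ] ℂ := Finsupp.lsum ℂ (fun X => g X • LinearMap.id)

/-- the states with a reservoir: all states which occur have this property -/
def Rset (L : ℕ) : Set Q := {X | ∀ k, (L ≤ 2 * k → lone X.1 k ∧ k ∉ X.1.A) ∧
  (L ≤ 2 * k + 1 → k ∈ X.1.B)}

theorem F0_mem (L : ℕ) (c : ℤ) : (F0, c) ∈ Rset L := by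
  intro k
  refine ⟨fun _ => ⟨fun y hy => ?_, fun h => h⟩, fun _ => trivial⟩
  exact hy.symm

/-- a half-open row: `hrow o k = ½(1 + E o) ∘ ... ∘ ½(1 + E (o+k-1))` -/
noncomputable def hrow (o : ℕ) : ℕ → M →ₗ[ℂ] M
  | 0 => LinearMap.id
  | k + 1 => hrow o k ∘ₗ ((1 / 2 : ℂ) • (LinearMap.id + E (o + k)))

theorem hrow_zero (o : ℕ) (x : M) : hrow o 0 x = x := rfl

theorem hrow_succ (o k : ℕ) (x : M) :
    hrow o (k + 1) x = hrow o k ((1 / 2 : ℂ) • (x + E (o + k) x)) := rfl

theorem two_w_sub_one_ne : 2 * w - 1 ≠ 0 := by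
  intro h
  have hw := w_sq
  have h2 : (2 * w - 1) ^ 2 = -3 := by linear_combination 4 * w_sq
  rw [h] at h2
  norm_num at h2

theorem row_hrow (o k : ℕ) (x : M) : row o w 1 k x = (2 * w ^ 2) ^ k • hrow o k x := by
  induction k generalizing x with
  | zero => simp [row_zero, hrow_zero]
  | succ k ih =>
    rw [row_succ, ih, hrow_succ, pow_succ (2 * w ^ 2) k, ← smul_smul, ← map_smul (hrow o k) (2 * w ^ 2),
      R_apply]
    congr 2
    have hw := w_sq
    match_scalars <;> grind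

theorem nT_one_ne (L : ℕ) : nT L 1 ≠ 0 := by
  unfold nT
  have h1 := two_w_sub_one_ne
  have h2 := w_ne_zero
  have h3 : w * 1 - (1 - w) ≠ 0 := by
    rw [show w * 1 - (1 - w) = 2 * w - 1 by ring]; exact h1
  have h4 : w - (1 - w) * 1 ≠ 0 := by
    rw [show w - (1 - w) * 1 = 2 * w - 1 by ring]; exact h1
  have h5 : w ^ 2 * (1 + 1) ≠ 0 := mul_ne_zero (pow_ne_zero _ h2) (by norm_num)
  exact mul_ne_zero (mul_ne_zero h3 h4) (pow_ne_zero _ h5)

/-- at `z = 1` all factors are averages -/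
theorem Ts_apply (L : ℕ) (x : M) : Ts L x = D (hrow 1 L (hrow 0 L x)) := by
  have hw := w_sq
  have h1 : ∀ y : M, KL 0 1 y = (2 * w - 1) • y := fun y => by
    rw [KL_apply]; match_scalars <;> ring
  have h2 : ∀ y : M, KR L 1 y = (2 * w - 1) • y := fun y => by
    rw [KR_apply]; match_scalars <;> ring
  have h3 : nT L 1 = (2 * w - 1) * ((2 * w ^ 2) ^ L * ((2 * w ^ 2) ^ L * (2 * w - 1))) := by
    unfold nT
    rw [two_mul L, pow_add]
    ring
  have h4 : nT L 1 ≠ 0 := nT_one_ne L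
  rw [Ts, LinearMap.smul_apply, T_apply, h1, h2, mul_one, row_hrow, row_hrow]
  simp only [map_smul, smul_smul]
  rw [h3] at h4 ⊢
  rw [inv_mul_cancel₀ h4, one_smul]

/-! ### integration -/

theorem itg_single (g : Q → ℂ) (X : Q) (c : ℂ) : itg g (Finsupp.single X c) = g X * c := by
  unfold itg; simp

theorem itg_E (g : Q → ℂ) (i : ℕ) (x : M) : itg g (E i x) = itg (fun X => g (act i X)) x :=
  lin_ext (f := itg g ∘ₗ E i) (g := itg (fun X => g (act i X))) (fun X => by
    simp only [LinearMap.comp_apply, E_single, itg_single]) x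

theorem itg_D (g : Q → ℂ) (x : M) : itg g (D x) = itg (fun X => g (Dm X)) x :=
  lin_ext (f := itg g ∘ₗ D) (g := itg (fun X => g (Dm X))) (fun X => by
    simp only [LinearMap.comp_apply, D_single, itg_single]) x

theorem itg_Xi (g : Q → ℂ) (hg : ∀ X, g (sh X) = g X) (x : M) : itg g (Xi x) = itg g x :=
  lin_ext (f := itg g ∘ₗ Xi) (g := itg g) (fun X => by
    simp only [LinearMap.comp_apply, Xi_single, itg_single, hg]) x

/-- the average of `h` over the half-open row -/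
noncomputable def av (o : ℕ) : ℕ → (Q → ℂ) → Q → ℂ
  | 0, h => h
  | k + 1, h => fun X => (1 / 2 : ℂ) * (av o k h X + av o k h (act (o + k) X))

theorem itg_hrow (o k : ℕ) (h : Q → ℂ) (X : Q) :
    itg h (hrow o k (Finsupp.single X 1)) = av o k h X := by
  induction k generalizing X with
  | zero => rw [hrow_zero, itg_single, mul_one]; rfl
  | succ k ih =>
    rw [hrow_succ, E_single, map_smul, map_smul, map_add, map_add, ih, ih]
    rfl

theorem itg_Ts (L : ℕ) (h : Q → ℂ) (X : Q) :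
    itg h (Ts L (Finsupp.single X 1)) = av 0 L (av 1 L (fun Y => h (Dm Y))) X := by
  rw [Ts_apply, itg_D, ← itg_hrow 0 L]
  exact lin_ext (f := itg (fun X => h (Dm X)) ∘ₗ hrow 1 L)
    (g := itg (av 1 L (fun Y => h (Dm Y)))) (fun X => by
    rw [LinearMap.comp_apply, itg_hrow, itg_single, mul_one]) _

theorem av_sh (o k : ℕ) (h : Q → ℂ) (hh : ∀ X, h (sh X) = h X) (X : Q) :
    av o k h (sh X) = av o k h X := by
  induction k generalizing X with
  | zero => exact hh X
  | succ k ih => simp only [av, act_sh, ih]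

theorem sh_inv {h : Q → ℂ} (hh : ∀ X, h (sh X) = h X) (F : Fr) (c c' : ℤ) :
    h (F, c) = h (F, c') := by
  have key : ∀ c : ℤ, h (F, c) = h (F, 0) := by
    intro c
    induction c using Int.induction_on with
    | zero => rfl
    | succ i hi => rw [← hi]; exact hh (F, (i:ℤ))
    | pred i hi =>
      rw [← hi, ← hh (F, -(i:ℤ) - 1)]
      simp [sh]
  rw [key c, key c']

/-- closure -/
def Cl (S : Set Q) (o k : ℕ) : Prop := ∀ i < k, ∀ X ∈ S, act (o + i) X ∈ S

theorem Cl.pred {S : Set Q} {o k : ℕ} (h : Cl S o (k + 1)) : Cl S o k :=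
  fun i hi => h i (by omega)

theorem av_near {S : Set Q} {o k : ℕ} (hS : Cl S o k) {h : Q → ℂ} {c : ℝ} (v : ℂ)
    (hc : ∀ X ∈ S, ‖h X - v‖ ≤ c) (X : Q) (hX : X ∈ S) : ‖av o k h X - v‖ ≤ c := by
  induction k generalizing X with
  | zero => exact hc X hX
  | succ k ih =>
    have h1 := ih hS.pred X hX
    have h2 := ih hS.pred (act (o + k) X) (hS k (Nat.lt_succ_self k) X hX)
    have e : av o (k + 1) h X - v = (1 / 2 : ℂ) * ((av o k h X - v) + (av o k h (act (o + k) X) - v)) := by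
      simp only [av]; ring
    rw [e, norm_mul]
    have : ‖(1 / 2 : ℂ)‖ = 1 / 2 := by norm_num
    rw [this]
    have := norm_add_le (av o k h X - v) (av o k h (act (o + k) X) - v)
    linarith

theorem av_osc {S : Set Q} {o k : ℕ} (hS : Cl S o k) {h : Q → ℂ} {c : ℝ}
    (hc : ∀ X ∈ S, ∀ Y ∈ S, ‖h X - h Y‖ ≤ c) (X : Q) (hX : X ∈ S) (Y : Q) (hY : Y ∈ S) :
    ‖av o k h X - av o k h Y‖ ≤ c := by
  induction k generalizing X Y with
  | zero => exact hc X hX Y hY
  | succ k ih =>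
    have h1 := ih hS.pred X hX Y hY
    have h2 := ih hS.pred (act (o + k) X) (hS k (Nat.lt_succ_self k) X hX)
      (act (o + k) Y) (hS k (Nat.lt_succ_self k) Y hY)
    have e : av o (k + 1) h X - av o (k + 1) h Y = (1 / 2 : ℂ) * ((av o k h X - av o k h Y) +
        (av o k h (act (o + k) X) - av o k h (act (o + k) Y))) := by
      simp only [av]; ring
    rw [e, norm_mul]
    have : ‖(1 / 2 : ℂ)‖ = 1 / 2 := by norm_num
    rw [this]
    have := norm_add_le (av o k h X - av o k h Y)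
      (av o k h (act (o + k) X) - av o k h (act (o + k) Y))
    linarith

/-- the special path: all even generators, no odd generator -/
noncomputable def sp : ℕ → Q → Q
  | 0, X => X
  | k + 1, X => sp k (if k % 2 = 0 then act k X else X)

theorem av_sp {S : Set Q} {k : ℕ} (hS : Cl S 0 k) {h : Q → ℂ} {c : ℝ}
    (hc : ∀ X ∈ S, ∀ Y ∈ S, ‖h X - h Y‖ ≤ c) (X : Q) (hX : X ∈ S) (Y : Q) (hY : Y ∈ S)
    (hp : h (sp k X) = h (sp k Y)) :
    ‖av 0 k h X - av 0 k h Y‖ ≤ (1 - (1 / 2) ^ k) * c := by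
  induction k generalizing X Y with
  | zero =>
    simp only [av, sp] at hp ⊢
    rw [hp, sub_self]
    simp
  | succ k ih =>
    have m1 : act (0 + k) X ∈ S := hS k (Nat.lt_succ_self k) X hX
    have m2 : act (0 + k) Y ∈ S := hS k (Nat.lt_succ_self k) Y hY
    have e : av 0 (k + 1) h X - av 0 (k + 1) h Y = (1 / 2 : ℂ) * ((av 0 k h X - av 0 k h Y) +
        (av 0 k h (act (0 + k) X) - av 0 k h (act (0 + k) Y))) := by
      simp only [av]; ring
    rw [e, norm_mul]
    have h12 : ‖(1 / 2 : ℂ)‖ = 1 / 2 := by norm_num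
    rw [h12]
    have ht := norm_add_le (av 0 k h X - av 0 k h Y)
      (av 0 k h (act (0 + k) X) - av 0 k h (act (0 + k) Y))
    have o1 := av_osc hS.pred hc X hX Y hY
    have o2 := av_osc hS.pred hc _ m1 _ m2
    rcases Nat.mod_two_eq_zero_or_one k with hk | hk
    · have := ih hS.pred _ m1 _ m2 (by simpa [sp, hk] using hp)
      rw [pow_succ]
      nlinarith
    · have := ih hS.pred X hX Y hY (by simpa [sp, hk] using hp)
      rw [pow_succ]
      nlinarith

theorem sp_spec (k : ℕ) (X : Q) :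
    (∀ x y, (sp k X).1.s x y ↔ x = y ∨ (k ≤ 2 * x ∧ k ≤ 2 * y ∧ X.1.s x y)) ∧
    (∀ x, x ∈ (sp k X).1.A ↔ x ∈ X.1.A ∧ k ≤ 2 * x) ∧
    (∀ x, x ∈ (sp k X).1.B ↔ x ∈ X.1.B ∧ k ≤ 2 * x) := by
  induction k generalizing X with
  | zero =>
    refine ⟨fun x y => ?_, fun x => by simp [sp], fun x => by simp [sp]⟩
    simp only [Nat.zero_le, true_and]
    refine ⟨Or.inr, ?_⟩
    rintro (rfl | h)
    · exact X.1.s.refl x
    · exact h
  | succ k ih =>
    obtain ⟨h1, h2, h3⟩ := ih (if k % 2 = 0 then act k X else X)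
    rcases Nat.mod_two_eq_zero_or_one k with hk | hk
    · obtain ⟨j, rfl⟩ : ∃ j, k = 2 * j := ⟨k / 2, by omega⟩
      have hj : 2 * j / 2 = j := by omega
      rw [if_pos hk] at h1 h2 h3
      have a0 : (act (2 * j) X).1 = detF j X.1 := by
        unfold act
        rw [if_pos hk, hj]
      rw [a0] at h1 h2 h3
      refine ⟨fun x y => ?_, fun x => ?_, fun x => ?_⟩
      · rw [sp, if_pos hk, h1]
        show (x = y ∨ (2 * j ≤ 2 * x ∧ 2 * j ≤ 2 * y ∧ (x = y ∨ (x ≠ j ∧ y ≠ j ∧ X.1.s x y)))) ↔ _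
        constructor
        · rintro (h | ⟨a, b, (h | ⟨c, d, e⟩)⟩)
          · exact Or.inl h
          · exact Or.inl h
          · exact Or.inr ⟨by omega, by omega, e⟩
        · rintro (h | ⟨a, b, e⟩)
          · exact Or.inl h
          · exact Or.inr ⟨by omega, by omega, Or.inr ⟨by omega, by omega, e⟩⟩
      · rw [sp, if_pos hk, h2]
        show ((x ∈ X.1.A ∧ x ≠ j) ∧ 2 * j ≤ 2 * x) ↔ _
        constructor
        · rintro ⟨⟨a, b⟩, c⟩
          exact ⟨a, by omega⟩
        · rintro ⟨a, b⟩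
          exact ⟨⟨a, by omega⟩, by omega⟩
      · rw [sp, if_pos hk, h3]
        show ((x ∈ X.1.B ∧ x ≠ j) ∧ 2 * j ≤ 2 * x) ↔ _
        constructor
        · rintro ⟨⟨a, b⟩, c⟩
          exact ⟨a, by omega⟩
        · rintro ⟨a, b⟩
          exact ⟨⟨a, by omega⟩, by omega⟩
    · have hk' : ¬ (k % 2 = 0) := by omega
      rw [if_neg hk'] at h1 h2 h3
      have e : ∀ x, (k ≤ 2 * x ↔ k + 1 ≤ 2 * x) := fun x => by omega
      refine ⟨fun x y => ?_, fun x => ?_, fun x => ?_⟩
      · rw [sp, if_neg hk', h1, e x, e y]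
      · rw [sp, if_neg hk', h2, e x]
      · rw [sp, if_neg hk', h3, e x]

theorem sp_eq {L : ℕ} {X Y : Q} (hX : X ∈ Rset L) (hY : Y ∈ Rset L) :
    (sp L X).1 = (sp L Y).1 := by
  have key : ∀ X ∈ Rset L, (∀ x y, (sp L X).1.s x y ↔ x = y) ∧
      (∀ x, x ∈ (sp L X).1.A ↔ False) ∧ (∀ x, x ∈ (sp L X).1.B ↔ L ≤ 2 * x) := by
    intro X hX
    obtain ⟨h1, h2, h3⟩ := sp_spec L X
    refine ⟨fun x y => ?_, fun x => ?_, fun x => ?_⟩
    · rw [h1]
      constructor
      · rintro (h | ⟨a, b, c⟩)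
        · exact h
        · exact (((hX x).1 a).1 y c).symm
      · exact Or.inl
    · rw [h2]
      constructor
      · rintro ⟨a, b⟩
        exact ((hX x).1 b).2 a
      · exact False.elim
    · rw [h3]
      exact ⟨fun h => h.2, fun h => ⟨(hX x).2 (by omega), h⟩⟩
  obtain ⟨a1, a2, a3⟩ := key X hX
  obtain ⟨b1, b2, b3⟩ := key Y hY
  refine Fr.ext ?_ ?_ ?_
  · ext x y
    rw [a1, b1]
  · ext x
    rw [a2, b2]
  · ext x
    rw [a3, b3]

theorem Rset_mono {m n : ℕ} (h : m ≤ n) : Rset m ⊆ Rset n :=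
  fun _ hX k => ⟨fun hk => (hX k).1 (by omega), fun hk => (hX k).2 (by omega)⟩

theorem act_mem {m i : ℕ} (h : i + 2 ≤ m) {X : Q} (hX : X ∈ Rset m) : act i X ∈ Rset m := by
  rcases Nat.mod_two_eq_zero_or_one i with hi | hi
  · have a0 : (act i X).1 = detF (i / 2) X.1 := by
      unfold act
      rw [if_pos hi]
    intro k
    rw [a0]
    refine ⟨fun hk => ⟨?_, ?_⟩, fun hk => ?_⟩
    · rintro y (rfl | ⟨_, _, c⟩)
      · rfl
      · exact ((hX k).1 hk).1 y c
    · rintro ⟨a, _⟩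
      exact ((hX k).1 hk).2 a
    · exact ⟨(hX k).2 hk, by omega⟩
  · have a0 : (act i X).1 = joinF (i / 2) (i / 2 + 1) X.1 := by
      unfold act
      rw [if_neg (by omega)]
    intro k
    rw [a0]
    refine ⟨fun hk => ⟨?_, ?_⟩, fun hk => ?_⟩
    · rintro y (c | ⟨c, _⟩ | ⟨c, _⟩)
      · exact ((hX k).1 hk).1 y c
      · have := ((hX k).1 hk).1 _ c
        omega
      · have := ((hX k).1 hk).1 _ c
        omega
    · rintro (c | ⟨c, _⟩ | ⟨c, _⟩)
      · exact ((hX k).1 hk).2 c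
      · have := ((hX k).1 hk).1 _ c
        omega
      · have := ((hX k).1 hk).1 _ c
        omega
    · exact Or.inl ((hX k).2 hk)

theorem Dm_mem {m : ℕ} {X : Q} (hX : X ∈ Rset (m + 2)) : Dm X ∈ Rset m := by
  intro k
  have h := hX (k + 1)
  refine ⟨fun hk => ⟨?_, ?_⟩, fun hk => ?_⟩
  · intro y hy
    have := (h.1 (by omega)).1 (y + 1) hy
    omega
  · rintro (c | c)
    · exact (h.1 (by omega)).2 c
    · have := (h.1 (by omega)).1 0 c
      omega
  · exact h.2 (by omega)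

theorem Cl0 (L : ℕ) : Cl (Rset (L + 2)) 0 L := fun _ _ _ hX => act_mem (by omega) hX
theorem Cl1 (L : ℕ) : Cl (Rset (L + 2)) 1 L := fun _ _ _ hX => act_mem (by omega) hX

theorem Pf_osc (L : ℕ) {h : Q → ℂ} (hh : ∀ X, h (sh X) = h X) {c : ℝ}
    (hc : ∀ X ∈ Rset L, ∀ Y ∈ Rset L, ‖h X - h Y‖ ≤ c) (X : Q) (hX : X ∈ Rset L) (Y : Q)
    (hY : Y ∈ Rset L) :
    ‖itg h (Ts L (Finsupp.single X 1)) - itg h (Ts L (Finsupp.single Y 1))‖ ≤
      (1 - (1 / 2) ^ L) * c := by
  rw [itg_Ts, itg_Ts]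
  refine av_sp (Cl0 L) ?_ X (Rset_mono (by omega) hX) Y (Rset_mono (by omega) hY) ?_
  · intro X hX Y hY
    exact av_osc (Cl1 L) (fun X hX Y hY => hc _ (Dm_mem hX) _ (Dm_mem hY)) X hX Y hY
  · have e := sp_eq hX hY
    have := sh_inv (h := av 1 L (fun Y => h (Dm Y)))
      (av_sh 1 L _ (fun X => by rw [Dm_sh, hh])) (sp L X).1 (sp L X).2 (sp L Y).2
    rw [e] at this
    rw [show sp L X = ((sp L Y).1, (sp L X).2) by rw [← e], this]

theorem Pf_near (L : ℕ) {h : Q → ℂ} {c : ℝ} (v : ℂ)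
    (hc : ∀ X ∈ Rset L, ‖h X - v‖ ≤ c) (X : Q) (hX : X ∈ Rset L) :
    ‖itg h (Ts L (Finsupp.single X 1)) - v‖ ≤ c := by
  rw [itg_Ts]
  exact av_near (Cl0 L) v (fun X hX => av_near (Cl1 L) v (fun X hX => hc _ (Dm_mem hX)) X hX)
    X (Rset_mono (by omega) hX)

theorem Xi_Ts (L : ℕ) (x : M) : Xi (Ts L x) = Ts L (Xi x) := by
  simp only [Ts, LinearMap.smul_apply, map_smul, Xi_T]

theorem Xi_Ts_pow (L N : ℕ) (x : M) : Xi (((Ts L) ^ N) x) = ((Ts L) ^ N) (Xi x) := by
  induction N generalizing x with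
  | zero => rfl
  | succ N ih => rw [pow_succ, Module.End.mul_apply, ih, Xi_Ts, Module.End.mul_apply]

/-- the `N`-th iterate -/
theorem pow_step (L N : ℕ) (g : Q → ℂ) (x : M) :
    itg g (((Ts L) ^ (N + 1)) x) =
      itg (fun X => itg g (((Ts L) ^ N) (Finsupp.single X 1))) (Ts L x) := by
  rw [pow_succ, Module.End.mul_apply]
  exact lin_ext (f := itg g ∘ₗ ((Ts L) ^ N : M →ₗ[ℂ] M))
    (g := itg (fun X => itg g (((Ts L) ^ N) (Finsupp.single X 1)))) (fun X => by
    rw [LinearMap.comp_apply, itg_single, mul_one]) _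

theorem pow_sh (L N : ℕ) (g : Q → ℂ) (hg : ∀ X, g (sh X) = g X) (X : Q) :
    itg g (((Ts L) ^ N) (Finsupp.single (sh X) 1)) = itg g (((Ts L) ^ N) (Finsupp.single X 1)) := by
  rw [← Xi_single, ← Xi_Ts_pow, itg_Xi g hg]

theorem pow_osc (L N : ℕ) (g : Q → ℂ) (hg : ∀ X, g (sh X) = g X) {c : ℝ}
    (hc : ∀ X ∈ Rset L, ∀ Y ∈ Rset L, ‖g X - g Y‖ ≤ c) (X : Q) (hX : X ∈ Rset L) (Y : Q)
    (hY : Y ∈ Rset L) :
    ‖itg g (((Ts L) ^ N) (Finsupp.single X 1)) - itg g (((Ts L) ^ N) (Finsupp.single Y 1))‖ ≤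
      c * (1 - (1 / 2) ^ L) ^ N := by
  induction N generalizing X Y with
  | zero => simpa [itg_single] using hc X hX Y hY
  | succ N ih =>
    rw [pow_step, pow_step]
    refine (Pf_osc L (fun X => pow_sh L N g hg X) (fun X hX Y hY => ih X hX Y hY) X hX Y
      hY).trans (le_of_eq ?_)
    rw [pow_succ]
    ring

theorem doeb1 (L : ℕ) (g : Q → ℂ) (hg : ∀ X, g (sh X) = g X) (C : ℝ)
    (hC : ∀ X, ‖g X‖ ≤ C) :
    ∃ l : ℂ, ∀ X ∈ Rset L,
      Tendsto (fun N => itg g (((Ts L) ^ N) (Finsupp.single X 1))) atTop (𝓝 l) := by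
  have hr0 : (0:ℝ) ≤ 1 - (1 / 2) ^ L := by
    have : ((1:ℝ) / 2) ^ L ≤ 1 := pow_le_one₀ (by norm_num) (by norm_num)
    linarith
  have hr1 : 1 - ((1:ℝ) / 2) ^ L < 1 := by
    have : (0:ℝ) < (1 / 2) ^ L := by positivity
    linarith
  have hosc : ∀ X ∈ Rset L, ∀ Y ∈ Rset L, ‖g X - g Y‖ ≤ 2 * C := fun X _ Y _ => by
    have := norm_sub_le (g X) (g Y)
    linarith [hC X, hC Y]
  have hcs : ∀ X ∈ Rset L, CauchySeq (fun N => itg g (((Ts L) ^ N) (Finsupp.single X 1))) := by
    intro X hX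
    refine cauchySeq_of_le_geometric _ (2 * C) hr1 fun N => ?_
    rw [dist_comm, dist_eq_norm, pow_step]
    exact Pf_near L _ (fun Y hY => pow_osc L N g hg hosc Y hY X hX) X hX
  obtain ⟨l, hl⟩ := cauchySeq_tendsto_of_complete (hcs (F0, 0) (F0_mem L 0))
  refine ⟨l, fun X hX => ?_⟩
  have h0 : Tendsto (fun N => itg g (((Ts L) ^ N) (Finsupp.single X 1)) -
      itg g (((Ts L) ^ N) (Finsupp.single (F0, 0) 1))) atTop (𝓝 0) := by
    refine squeeze_zero_norm (fun N => pow_osc L N g hg hosc X hX (F0, 0) (F0_mem L 0)) ?_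
    have := (tendsto_pow_atTop_nhds_zero_of_lt_one hr0 hr1).const_mul (2 * C)
    rwa [mul_zero] at this
  have := h0.add hl
  rw [zero_add] at this
  refine this.congr fun N => ?_
  ring

theorem map_mem {S S' : Set Q} (f : Q → Q) (hf : ∀ X ∈ S, f X ∈ S') {x : M}
    (hx : x ∈ Finsupp.supported ℂ ℂ S) :
    Finsupp.lmapDomain ℂ ℂ f x ∈ Finsupp.supported ℂ ℂ S' := by
  classical
  rw [Finsupp.mem_supported] at hx ⊢
  intro Y hY
  have := Finsupp.mapDomain_support hY
  rw [Finset.mem_image] at this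
  obtain ⟨X, hX, rfl⟩ := this
  exact hf X (hx hX)

theorem row_mem {m : ℕ} (o k : ℕ) (p q : ℂ) (h : o + k + 1 ≤ m) {x : M}
    (hx : x ∈ Finsupp.supported ℂ ℂ (Rset m)) :
    row o p q k x ∈ Finsupp.supported ℂ ℂ (Rset m) := by
  induction k generalizing x with
  | zero => exact hx
  | succ k ih =>
    rw [row_succ]
    refine ih (by omega) ?_
    rw [R_apply]
    exact Submodule.add_mem _ (Submodule.smul_mem _ _ hx) (Submodule.smul_mem _ _
      (map_mem _ (fun X hX => act_mem (by omega) hX) hx))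

theorem T_supp (L : ℕ) (z : ℂ) {x : M} (hx : x ∈ Finsupp.supported ℂ ℂ (Rset L)) :
    T L z x ∈ Finsupp.supported ℂ ℂ (Rset L) := by
  have h1 : x ∈ Finsupp.supported ℂ ℂ (Rset (L + 2)) :=
    Finsupp.supported_mono (Rset_mono (by omega)) hx
  rw [T_apply]
  refine map_mem Dm (fun X hX => Dm_mem hX) (S := Rset (L + 2)) ?_
  rw [KL_apply]
  have h2 : KR L z x ∈ Finsupp.supported ℂ ℂ (Rset (L + 2)) := by
    rw [KR_apply]
    exact Submodule.add_mem _ (Submodule.smul_mem _ _ h1) (Submodule.smul_mem _ _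
      (map_mem _ (fun X hX => act_mem (by omega) hX) h1))
  have h3 := row_mem 1 L w z (m := L + 2) (by omega) (row_mem 0 L (w * z) 1 (m := L + 2) (by omega) h2)
  exact Submodule.add_mem _ (Submodule.smul_mem _ _ h3) (Submodule.smul_mem _ _
      (map_mem _ (fun X hX => act_mem (by omega) hX) h3))

theorem mu_mem (L N : ℕ) : mu L N ∈ Rs L := by
  unfold mu
  induction N with
  | zero => exact x0_mem L
  | succ N ih =>
    rw [pow_succ', Module.End.mul_apply, Ts, LinearMap.smul_apply]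
    exact Submodule.smul_mem _ _ (T_mem L 1 ih)

theorem T_mu (L N : ℕ) (z : ℂ) (hz : (w * z - (1 - w)) * (w - (1 - w) * z) ≠ 0) :
    T L z (mu L N) = ((Ts L) ^ N) (T L z x0) := by
  induction N with
  | zero => rfl
  | succ N ih =>
    have e : mu L (N + 1) = Ts L (mu L N) := by
      unfold mu
      rw [pow_succ', Module.End.mul_apply]
    rw [e, Ts, LinearMap.smul_apply, map_smul,
      T_comm L z 1 (mu_mem L N) (by simpa [mul_comm] using hz) (by simpa using hz), ih,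
      ← LinearMap.smul_apply, ← Ts, pow_succ', Module.End.mul_apply]

/-- convergence of the law of the front (functions which do not depend on the counter).
Proof: in a double row all even bonds `E (2k)` are chosen and no odd bond with probability
`4⁻¹ ^ L`; then the new state is (up to the counter) independent of the old one.  Hence the
oscillation on `Rset L` of `X ↦ itg g (Ts ^ N X)` decreases by the factor `1 - 4⁻¹ ^ L` each time.
For the second claim `T L z` commutes with `Ts L` on `x0` (`T_comm` with `z' = 1`). -/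
theorem doeb (L : ℕ) (hL : 1 ≤ L) (g : Q → ℂ) (hg : ∀ X, g (sh X) = g X) (C : ℝ)
    (hC : ∀ X, ‖g X‖ ≤ C) :
    ∃ l : ℂ, (∀ X ∈ Rset L, Tendsto (fun N => itg g (((Ts L) ^ N) (Finsupp.single X 1))) atTop (𝓝 l)) ∧
      ∀ z, (w * z - (1 - w)) * (w - (1 - w) * z) ≠ 0 →
        Tendsto (fun N => itg g (T L z (mu L N))) atTop (𝓝 (nT L z * l)) := by
  obtain ⟨l, hl⟩ := doeb1 L g hg C hC
  refine ⟨l, hl, fun z hz => ?_⟩
  have hx : x0 ∈ Finsupp.supported ℂ ℂ (Rset L) := by
    unfold x0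
    exact Finsupp.single_mem_supported ℂ _ (F0_mem L 0)
  have hy := T_supp L z hx
  have key : ∀ y ∈ Finsupp.supported ℂ ℂ (Rset L),
      Tendsto (fun N => itg g (((Ts L) ^ N) y)) atTop (𝓝 (tot y * l)) := by
    intro y hy
    have ey : y = ∑ X ∈ y.support, y X • Finsupp.single X (1:ℂ) := by
      conv_lhs => rw [← Finsupp.sum_single y]
      rw [Finsupp.sum]
      refine Finset.sum_congr rfl fun X _ => ?_
      rw [Finsupp.smul_single, smul_eq_mul, mul_one]
    have e1 : (fun N => itg g (((Ts L) ^ N) y)) =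
        fun N => ∑ X ∈ y.support, y X * itg g (((Ts L) ^ N) (Finsupp.single X 1)) := by
      funext N
      conv_lhs => rw [ey]
      rw [map_sum, map_sum]
      refine Finset.sum_congr rfl fun X _ => ?_
      rw [map_smul, map_smul, smul_eq_mul]
    have e2 : tot y * l = ∑ X ∈ y.support, y X * l := by
      conv_lhs => rw [ey]
      rw [map_sum, Finset.sum_mul]
      refine Finset.sum_congr rfl fun X _ => ?_
      rw [map_smul, tot_single, smul_eq_mul, mul_one]
    rw [e1, e2]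
    refine tendsto_finsetSum _ fun X hX => ?_
    exact (hl X ((Finsupp.mem_supported _ _).1 hy hX)).const_mul _
  have := key _ hy
  rw [tot_T, show tot x0 = 1 by unfold x0; rw [tot_single], mul_one] at this
  refine this.congr fun N => ?_
  rw [T_mu L N z hz]

/-! ### increments of the counter -/

/-- combinations of maps with bounded displacement of the counter -/
noncomputable def BD : Submodule ℂ (M →ₗ[ℂ] M) := Submodule.span ℂ
  {F | ∃ f : Q → Q, (∃ B : ℝ, ∀ X, ‖((f X).2 : ℂ) - X.2‖ ≤ B) ∧ F = Finsupp.lmapDomain ℂ ℂ f}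

theorem BD_comp {A B : M →ₗ[ℂ] M} (hA : A ∈ BD) (hB : B ∈ BD) : A ∘ₗ B ∈ BD := by
  unfold BD at hA hB
  induction hA using Submodule.span_induction with
  | mem F hF =>
    obtain ⟨f, ⟨b, hb⟩, rfl⟩ := hF
    induction hB using Submodule.span_induction with
    | mem G hG =>
      obtain ⟨g, ⟨b', hb'⟩, rfl⟩ := hG
      refine Submodule.subset_span ⟨f ∘ g, ⟨b + b', fun X => ?_⟩, ?_⟩
      · have := norm_add_le (((f (g X)).2 : ℂ) - (g X).2) (((g X).2 : ℂ) - X.2)
        rw [sub_add_sub_cancel] at this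
        exact this.trans (add_le_add (hb _) (hb' _))
      · exact (Finsupp.lmapDomain_comp ℂ ℂ g f).symm
    | zero => rw [LinearMap.comp_zero]; exact Submodule.zero_mem _
    | add x y _ _ hx hy => rw [LinearMap.comp_add]; exact Submodule.add_mem _ hx hy
    | smul a x _ hx => rw [LinearMap.comp_smul]; exact Submodule.smul_mem _ _ hx
  | zero => rw [LinearMap.zero_comp]; exact Submodule.zero_mem _
  | add x y _ _ hx hy => rw [LinearMap.add_comp]; exact Submodule.add_mem _ hx hy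
  | smul a x _ hx => rw [LinearMap.smul_comp]; exact Submodule.smul_mem _ _ hx

theorem BD_id : (LinearMap.id : M →ₗ[ℂ] M) ∈ BD :=
  Submodule.subset_span ⟨id, ⟨0, fun X => by simp⟩, (Finsupp.lmapDomain_id ℂ ℂ).symm⟩

theorem BD_E (i : ℕ) : E i ∈ BD := by
  refine Submodule.subset_span ⟨act i, ⟨1, fun X => ?_⟩, rfl⟩
  unfold act
  split_ifs <;> simp

theorem BD_D : D ∈ BD := by
  refine Submodule.subset_span ⟨Dm, ⟨1, fun X => ?_⟩, rfl⟩
  unfold Dm
  split_ifs <;> simp

theorem BD_R (i : ℕ) (p q : ℂ) : R i p q ∈ BD :=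
  Submodule.add_mem _ (Submodule.smul_mem _ _ BD_id) (Submodule.smul_mem _ _ (BD_E i))

theorem BD_row (o k : ℕ) (p q : ℂ) : row o p q k ∈ BD := by
  induction k with
  | zero => exact BD_id
  | succ k ih => exact BD_comp ih (BD_R _ _ _)

theorem BD_T (L : ℕ) (z : ℂ) : T L z ∈ BD :=
  BD_comp BD_D (BD_comp (Submodule.add_mem _ (Submodule.smul_mem _ _ BD_id)
    (Submodule.smul_mem _ _ (BD_E 0))) (BD_comp (BD_row _ _ _ _) (BD_comp (BD_row _ _ _ _)
    (Submodule.add_mem _ (Submodule.smul_mem _ _ BD_id) (Submodule.smul_mem _ _ (BD_E L))))))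

theorem BD_bound {A : M →ₗ[ℂ] M} (hA : A ∈ BD) : ∃ C : ℝ, ∀ X : Q,
    ‖cn (A (Finsupp.single X 1)) - tot (A (Finsupp.single X 1)) * X.2‖ ≤ C := by
  unfold BD at hA
  induction hA using Submodule.span_induction with
  | mem F hF =>
    obtain ⟨f, ⟨b, hb⟩, rfl⟩ := hF
    refine ⟨b, fun X => ?_⟩
    rw [Finsupp.lmapDomain_apply, Finsupp.mapDomain_single, cn_single, tot_single]
    simpa using hb X
  | zero => exact ⟨0, fun X => by simp⟩
  | add x y _ _ hx hy =>
    obtain ⟨a, ha⟩ := hx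
    obtain ⟨b, hb⟩ := hy
    refine ⟨a + b, fun X => ?_⟩
    have e : cn ((x + y) (Finsupp.single X 1)) - tot ((x + y) (Finsupp.single X 1)) * X.2 =
        (cn (x (Finsupp.single X 1)) - tot (x (Finsupp.single X 1)) * X.2) +
        (cn (y (Finsupp.single X 1)) - tot (y (Finsupp.single X 1)) * X.2) := by
      rw [LinearMap.add_apply, map_add, map_add]; ring
    rw [e]
    exact (norm_add_le _ _).trans (add_le_add (ha X) (hb X))
  | smul r x _ hx =>
    obtain ⟨a, ha⟩ := hx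
    refine ⟨‖r‖ * a, fun X => ?_⟩
    have e : cn ((r • x) (Finsupp.single X 1)) - tot ((r • x) (Finsupp.single X 1)) * X.2 =
        r * (cn (x (Finsupp.single X 1)) - tot (x (Finsupp.single X 1)) * X.2) := by
      rw [LinearMap.smul_apply, map_smul, map_smul, smul_eq_mul, smul_eq_mul]; ring
    rw [e, norm_mul]
    exact mul_le_mul_of_nonneg_left (ha X) (norm_nonneg r)

/-- the expected increment of the counter is a bounded function of the state of the front -/
theorem cn_T (L : ℕ) (z : ℂ) : ∃ g : Q → ℂ, (∀ X, g (sh X) = g X) ∧ (∃ C : ℝ, ∀ X, ‖g X‖ ≤ C) ∧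
    ∀ x, cn (T L z x) = nT L z * cn x + itg g x := by
  refine ⟨fun X => cn (T L z (Finsupp.single X 1)) - nT L z * X.2, fun X => ?_, ?_, fun x => ?_⟩
  · show cn (T L z (Finsupp.single (sh X) 1)) - nT L z * ((X.2 + 1 : ℤ) : ℂ) =
      cn (T L z (Finsupp.single X 1)) - nT L z * X.2
    rw [← Xi_single, ← Xi_T, cn_Xi, tot_T, tot_single]
    push_cast
    ring
  · obtain ⟨C, hC⟩ := BD_bound (BD_T L z)
    refine ⟨C, fun X => ?_⟩
    have := hC X
    rwa [tot_T, tot_single, mul_one] at this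
  · refine lin_ext (f := cn ∘ₗ T L z) (g := nT L z • cn +
      itg (fun X => cn (T L z (Finsupp.single X 1)) - nT L z * X.2)) (fun X => ?_) x
    rw [LinearMap.comp_apply, LinearMap.add_apply, LinearMap.smul_apply, itg_single, cn_single,
      smul_eq_mul]
    ring

end CC
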