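import Pool.Agent.Helper9.CC.Lin

/-! Pade polynomials (module EVALA). -/

namespace CC
open Polynomial

/-- `fP a L = U (X ^ 3) + X ^ a V (X ^ 3)` with `U`, `V` of degree `L` and a zero of order `2L+1` at `1` -/
noncomputable def fP (a : ℕ) : ℕ → Polynomial ℂ
  | 0 => X ^ a - 1
  | L + 1 => (C (9 * L + 3 + a : ℂ) * X ^ 3 + C (3 * L + 3 - a : ℂ)) * fP a L
      - 2 * (X ^ 3 - 1) * X * derivative (fP a L)

theorem fP_succ (a L : ℕ) : fP a (L + 1) =
    (C (9 * L + 3 + a : ℂ) * X ^ 3 + C (3 * L + 3 - a : ℂ)) * fP a L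
      - 2 * (X ^ 3 - 1) * X * derivative (fP a L) := rfl

theorem fP_succ_deriv (a L : ℕ) : derivative (fP a (L + 1)) =
    3 * C (9 * L + 3 + a : ℂ) * X ^ 2 * fP a L +
    (C (9 * L + 3 + a : ℂ) * X ^ 3 + C (3 * L + 3 - a : ℂ)) * derivative (fP a L)
      - 2 * (4 * X ^ 3 - 1) * derivative (fP a L)
      - 2 * (X ^ 3 - 1) * X * derivative (derivative (fP a L)) := by
  have e : (2 * (X ^ 3 - 1) * X : Polynomial ℂ) = 2 * (X ^ 4 - X) := by ring
  rw [fP_succ, e]
  simp only [derivative_sub, derivative_mul, derivative_add, derivative_C, derivative_X_pow,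
    derivative_X, derivative_ofNat, Nat.cast_ofNat, map_ofNat]
  ring

theorem fP_zero_deriv (a : ℕ) : X * derivative (fP a 0) = C (a : ℂ) * (fP a 0 + 1) := by
  unfold fP
  simp only [derivative_sub, derivative_X_pow, derivative_one, sub_zero, sub_add_cancel]
  cases a with
  | zero => simp
  | succ a => simp only [Nat.add_sub_cancel]; ring

theorem fP_zero_deriv2 (a : ℕ) : derivative (fP a 0) + X * derivative (derivative (fP a 0)) =
    C (a : ℂ) * derivative (fP a 0) := by
  have h := congrArg derivative (fP_zero_deriv a)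
  simp only [derivative_mul, derivative_add, derivative_C, derivative_X, derivative_one] at h
  linear_combination h

/-- Proof by induction on `L`, together with nothing else: from the identity for `L` get the second order
equation for `fP a (L+1)`. -/
theorem fP_deriv (a L : ℕ) :
    2 * X * derivative (fP a (L + 1)) - C (3 * L + 3 + a : ℂ) * fP a (L + 1) =
      C (9 * ((L:ℂ) + 1) ^ 2 - (a:ℂ) ^ 2) * (X ^ 3 - 1) * fP a L := by
  induction L with
  | zero =>
    have h1 := fP_zero_deriv a
    have h2 := fP_zero_deriv2 a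
    rw [fP_succ_deriv, fP_succ]
    simp only [map_add, map_sub, map_mul, map_pow, map_natCast, map_ofNat, map_one, Nat.cast_zero,
      map_zero] at h1 h2 ⊢
    set f := fP a 0
    set f' := derivative f
    set f'' := derivative f'
    linear_combination (-4 * X * (X ^ 3 - 1)) * h2 +
      (2 * ((3 + (a : Polynomial ℂ)) * X ^ 3 + (3 - (a : Polynomial ℂ))) -
      2 * (3 + (a : Polynomial ℂ)) * (1 - X ^ 3) * (-1) - 12) * h1
  | succ L ih =>
    have ih' := congrArg derivative ih
    simp only [derivative_sub, derivative_mul, derivative_add, derivative_C, derivative_X_pow,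
      derivative_X, derivative_ofNat, derivative_one, Nat.cast_ofNat] at ih'
    have hd := fP_succ a L
    rw [fP_succ_deriv, fP_succ a (L + 1)]
    simp only [map_add, map_sub, map_mul, map_pow, map_natCast, map_ofNat, map_one, Nat.cast_add,
      Nat.cast_one] at ih ih' hd ⊢
    set f0 := fP a L
    set f0' := derivative f0
    set f := fP a (L + 1)
    set f' := derivative f
    set f'' := derivative f'
    set l : Polynomial ℂ := (L : Polynomial ℂ)
    set A : Polynomial ℂ := (a : Polynomial ℂ)
    linear_combination (-2 * X * (X ^ 3 - 1)) * ih' - ((9 * (l + 1) ^ 2 - A ^ 2) * (X ^ 3 - 1)) * hd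
      + (6 * X ^ 3 + ((9 * l + 3 + A) * X ^ 3 + (3 * l + 3 - A))) * ih

theorem fP_dvd (a L : ℕ) (ha : a = 1 ∨ a = 2) : (X - 1) ^ (2 * L + 1) ∣ fP a L := by
  have e1 : (X - 1 : Polynomial ℂ) = X - C 1 := by simp
  have ha0 : a ≠ 0 := by rcases ha with h | h <;> omega
  induction L with
  | zero =>
    simp only [fP, mul_zero, zero_add, pow_one]
    exact sub_one_dvd_pow_sub_one X a
  | succ L ih =>
    by_cases hz : fP a (L + 1) = 0
    · rw [hz]; exact dvd_zero _
    have hroot : (fP a (L + 1)).IsRoot 1 := by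
      have h0 : (fP a L).eval 1 = 0 := by
        have : (X - C 1) ∣ fP a L := by
          rw [← e1]; exact (dvd_pow_self _ (by omega)).trans ih
        exact dvd_iff_isRoot.mp this
      rw [IsRoot.def, fP_succ]
      simp [h0]
    have hm := derivative_rootMultiplicity_of_root hroot
    set m := rootMultiplicity 1 (fP a (L + 1)) with hmdef
    have hm1 : 1 ≤ m := (rootMultiplicity_pos hz).mpr hroot
    by_contra hcon
    have hm2 : m ≤ 2 * L + 2 := by
      by_contra h
      apply hcon
      rw [e1]
      exact (pow_dvd_pow _ (by omega)).trans (pow_rootMultiplicity_dvd (fP a (L + 1)) 1)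
    have hd1 : (X - C 1 : Polynomial ℂ) ^ m ∣ fP a (L + 1) := pow_rootMultiplicity_dvd _ _
    have hd2 : (X - C 1 : Polynomial ℂ) ^ m ∣
        C (9 * ((L:ℂ) + 1) ^ 2 - (a:ℂ) ^ 2) * (X ^ 3 - 1) * fP a L := by
      have h1 : (X - C 1 : Polynomial ℂ) ∣ X ^ 3 - 1 := by
        rw [← e1]; exact sub_one_dvd_pow_sub_one X 3
      have h2 : (X - C 1 : Polynomial ℂ) ^ (2 * L + 2) ∣ (X ^ 3 - 1) * fP a L := by
        have : (X - C 1 : Polynomial ℂ) ^ (2 * L + 2) = (X - C 1) * (X - C 1) ^ (2 * L + 1) := by
          ring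
        rw [this]
        rw [e1] at ih
        exact mul_dvd_mul h1 ih
      rw [mul_assoc]
      exact Dvd.dvd.mul_left ((pow_dvd_pow _ hm2).trans h2) _
    rw [← fP_deriv] at hd2
    have hd3 : (X - C 1 : Polynomial ℂ) ^ m ∣ 2 * X * derivative (fP a (L + 1)) := by
      have := dvd_add hd2 (hd1.mul_left (C (3 * L + 3 + a : ℂ)))
      rwa [sub_add_cancel] at this
    have hcop : IsCoprime ((X - C 1 : Polynomial ℂ) ^ m) (2 * X) := by
      apply IsCoprime.pow_left
      refine ⟨-1, C (1 / 2), ?_⟩
      have : (C (1 / 2) * (2 * X) : Polynomial ℂ) = X := by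
        have h2 : (2 : Polynomial ℂ) = C 2 := (map_ofNat C 2).symm
        rw [h2, ← mul_assoc, ← C_mul]
        norm_num
      rw [this]
      simp
    have hd4 : (X - C 1 : Polynomial ℂ) ^ m ∣ derivative (fP a (L + 1)) := hcop.dvd_of_dvd_mul_left hd3
    have hder : derivative (fP a (L + 1)) ≠ 0 := by
      intro h0
      have hc := derivative_eq_zero.mp h0
      obtain ⟨c, hc⟩ := natDegree_eq_zero.mp hc
      rw [← hc, IsRoot.def, eval_C] at hroot
      rw [← hc, hroot, map_zero] at hz
      exact hz rfl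
    have := (le_rootMultiplicity_iff hder).mpr hd4
    omega

theorem fP_shape (a L : ℕ) (ha : a = 1 ∨ a = 2) : ∃ U V : Polynomial ℂ, U.natDegree ≤ L ∧
    V.natDegree ≤ L ∧ fP a L = U.comp (X ^ 3) + X ^ a * V.comp (X ^ 3) := by
  induction L with
  | zero =>
    refine ⟨-1, 1, by simp, by simp, ?_⟩
    simp [fP]
    ring
  | succ L ih =>
    obtain ⟨U, V, hU, hV, h⟩ := ih
    set P : Polynomial ℂ := C (9 * L + 3 + a : ℂ) * X + C (3 * L + 3 - a : ℂ) with hP
    have hPd : P.natDegree ≤ 1 := by
      rw [hP]; exact (natDegree_linear_le)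
    have hX1 : (X - 1 : Polynomial ℂ).natDegree ≤ 1 := by
      have : (X - 1 : Polynomial ℂ) = X - C 1 := by simp
      rw [this]; exact (natDegree_X_sub_C_le _)
    have hXd : ∀ W : Polynomial ℂ, W.natDegree ≤ L → (X * derivative W).natDegree ≤ L := by
      intro W hW
      by_cases h0 : derivative W = 0
      · simp [h0]
      · have : W.natDegree ≠ 0 := by
          intro h1
          apply h0
          obtain ⟨c, hc⟩ := natDegree_eq_zero.mp h1
          rw [← hc]; simp
        have h2 := natDegree_derivative_lt this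
        have h3 : (X * derivative W).natDegree ≤ 1 + (derivative W).natDegree := by
          refine (natDegree_mul_le).trans ?_
          have := natDegree_X_le (R := ℂ)
          omega
        omega
    refine ⟨P * U - 6 * ((X - 1) * (X * derivative U)),
      P * V - 2 * ((X - 1) * (C (a : ℂ) * V + 3 * (X * derivative V))), ?_, ?_, ?_⟩
    · refine (natDegree_sub_le_of_le (m := L + 1) (n := L + 1) ?_ ?_).trans (by simp)
      · exact (natDegree_mul_le).trans (by omega)
      · have h6 : (6 : Polynomial ℂ) = C 6 := (map_ofNat C 6).symm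
        rw [h6]
        refine (natDegree_C_mul_le _ _).trans ((natDegree_mul_le).trans ?_)
        have := hXd U hU
        omega
    · refine (natDegree_sub_le_of_le (m := L + 1) (n := L + 1) ?_ ?_).trans (by simp)
      · exact (natDegree_mul_le).trans (by omega)
      · have h6 : (2 : Polynomial ℂ) = C 2 := (map_ofNat C 2).symm
        have h3 : (3 : Polynomial ℂ) = C 3 := (map_ofNat C 3).symm
        rw [h6, h3]
        refine (natDegree_C_mul_le _ _).trans ((natDegree_mul_le).trans ?_)
        have h4 : (C (a : ℂ) * V + C 3 * (X * derivative V)).natDegree ≤ L := by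
          refine (natDegree_add_le_of_degree_le (n := L) ?_ ?_)
          · exact (natDegree_C_mul_le _ _).trans hV
          · exact (natDegree_C_mul_le _ _).trans (hXd V hV)
        omega
    · have hXa : X * derivative (X ^ a : Polynomial ℂ) = C (a : ℂ) * X ^ a := by
        rw [derivative_X_pow]
        rcases ha with h | h
        · subst h; simp
        · subst h; simp; ring
      rw [fP_succ, h]
      simp only [derivative_add, derivative_mul, derivative_comp, sub_comp, mul_comp, add_comp,
        X_comp, C_comp, one_comp, ofNat_comp, hP, derivative_X_pow, Nat.cast_ofNat, map_ofNat]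
      set U3 := U.comp (X ^ 3)
      set V3 := V.comp (X ^ 3)
      set U3' := (derivative U).comp (X ^ 3)
      set V3' := (derivative V).comp (X ^ 3)
      rw [derivative_X_pow] at hXa
      linear_combination (-2 * (X ^ 3 - 1) * V3) * hXa

theorem fP_symm_deriv_of (n : ℕ) (f : Polynomial ℂ)
    (h : ∀ x : ℂ, x ≠ 0 → x ^ n * f.eval x⁻¹ = -f.eval x) (x : ℂ) (hx : x ≠ 0) :
    x ^ n * (x⁻¹ * (derivative f).eval x⁻¹) = x * (derivative f).eval x - n * f.eval x := by
  have h1 : HasDerivAt (fun y : ℂ => y ^ n * f.eval y⁻¹)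
      ((n * x ^ (n - 1)) * f.eval x⁻¹ + x ^ n * ((derivative f).eval x⁻¹ * (-(x ^ 2)⁻¹))) x := by
    exact (hasDerivAt_pow n x).mul ((f.hasDerivAt x⁻¹).comp x (hasDerivAt_inv hx))
  have h2 : HasDerivAt (fun y : ℂ => -f.eval y) (-(derivative f).eval x) x := (f.hasDerivAt x).neg
  have h3 : (fun y : ℂ => y ^ n * f.eval y⁻¹) =ᶠ[nhds x] (fun y : ℂ => -f.eval y) := by
    filter_upwards [isOpen_ne.mem_nhds hx] with y hy
    exact h y hy
  have h4 := (h3.hasDerivAt_iff.mp h1).unique h2
  have h5 : (n : ℂ) * x ^ (n - 1) * x = n * x ^ n := by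
    cases n with
    | zero => simp
    | succ n => simp only [Nat.add_sub_cancel]; ring
  have h6 := h x hx
  have h7 : x ^ n * (x⁻¹ * (derivative f).eval x⁻¹) =
      x * (x ^ n * ((derivative f).eval x⁻¹ * (x ^ 2)⁻¹)) := by
    field_simp
  rw [h7]
  linear_combination (-x) * h4 + (f.eval x⁻¹) * h5 + n * h6

/-- `X ^ (3L+a) fP (1/X) = - fP (X)` -/
theorem fP_symm (a L : ℕ) (ha : a = 1 ∨ a = 2) (x : ℂ) (hx : x ≠ 0) :
    x ^ (3 * L + a) * (fP a L).eval x⁻¹ = -(fP a L).eval x := by
  induction L generalizing x with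
  | zero =>
    simp only [fP, mul_zero, zero_add, eval_sub, eval_pow, eval_X, eval_one, inv_pow]
    have : x ^ a ≠ 0 := pow_ne_zero _ hx
    field_simp
    ring
  | succ L ih =>
    have h1 := ih x hx
    have h2 := fP_symm_deriv_of (3 * L + a) (fP a L) (fun y hy => ih y hy) x hx
    rw [fP_succ]
    simp only [eval_sub, eval_add, eval_mul, eval_pow, eval_X, eval_one, eval_C, eval_ofNat]
    have e : x ^ (3 * (L + 1) + a) = x ^ 3 * x ^ (3 * L + a) := by ring
    rw [e]
    push_cast at h2
    have e3 : x ^ 3 * (x⁻¹) ^ 3 = 1 := by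
      rw [← mul_pow, mul_inv_cancel₀ hx, one_pow]
    linear_combination ((9 * L + 3 + a : ℂ) + (3 * L + 3 - a : ℂ) * x ^ 3) * h1
      - (2 * (1 - x ^ 3)) * h2 + (x ^ (3 * L + a) * ((9 * L + 3 + a : ℂ) * (fP a L).eval x⁻¹
        - 2 * x⁻¹ * (derivative (fP a L)).eval x⁻¹)) * e3

theorem fP_symm_deriv (a L : ℕ) (ha : a = 1 ∨ a = 2) (x : ℂ) (hx : x ≠ 0) :
    x ^ (3 * L + a) * (x⁻¹ * (derivative (fP a L)).eval x⁻¹) =
      x * (derivative (fP a L)).eval x - (3 * L + a) * (fP a L).eval x := by
  have := fP_symm_deriv_of (3 * L + a) (fP a L) (fun y hy => fP_symm a L ha y hy) x hx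
  push_cast at this
  exact this

theorem r_pos' (a L : ℕ) (ha : a = 1 ∨ a = 2) : 0 < r a L := by
  induction L with
  | zero =>
    unfold r
    split_ifs
    · positivity
    · positivity
  | succ L ih =>
    unfold r
    apply div_pos _ ih
    have hL : (0 : ℝ) ≤ L := Nat.cast_nonneg L
    rcases ha with h | h
    · subst h; push_cast; nlinarith
    · subst h; push_cast; nlinarith

theorem w_sq' : w ^ 2 = w - 1 := by
  have h3 : Real.sqrt 3 * Real.sqrt 3 = 3 := Real.mul_self_sqrt (by norm_num)
  rw [sq]
  apply Complex.ext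
  · simp only [w, Complex.mul_re, Complex.sub_re, Complex.one_re]
    nlinarith
  · simp only [w, Complex.mul_im, Complex.sub_im, Complex.one_im]
    ring

/-- the values at `w` -/
theorem fP_w (a L : ℕ) (ha : a = 1 ∨ a = 2) : (fP a L).eval w ≠ 0 ∧
    Complex.I * (2 * w * (derivative (fP a L)).eval w - (3 * L + a) * (fP a L).eval w) =
      (r a L : ℂ) * (fP a L).eval w := by
  have hw2 := w_sq'
  have hw3 : w ^ 3 = -1 := by linear_combination (w + 1) * hw2
  have hI : Complex.I ^ 2 = -1 := Complex.I_sq
  have h3 : (Real.sqrt 3) * Real.sqrt 3 = 3 := Real.mul_self_sqrt (by norm_num)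
  induction L with
  | zero =>
    have hre : w.re = 1 / 2 := rfl
    have him : w.im = Real.sqrt 3 / 2 := rfl
    have hs : (0 : ℝ) < Real.sqrt 3 := by positivity
    rcases ha with h | h
    · subst h
      have hr : r 1 0 = Real.sqrt 3 := by simp [r]
      have e0 : fP 1 0 = X - 1 := by simp [fP]
      rw [e0, hr]
      simp only [eval_sub, eval_X, eval_one, derivative_sub, derivative_X, derivative_one, sub_zero,
        Nat.cast_zero, Nat.cast_one, mul_zero, zero_add]
      refine ⟨?_, ?_⟩
      · intro h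
        have := congrArg Complex.im h
        simp [him] at this
      · apply Complex.ext
        · simp [hre, him, Complex.mul_re, Complex.mul_im]
          nlinarith
        · simp [hre, him, Complex.mul_re, Complex.mul_im]
          nlinarith
    · subst h
      have hr : r 2 0 = 2 / Real.sqrt 3 := by simp [r]
      have hq : 2 / Real.sqrt 3 = 2 * Real.sqrt 3 / 3 := by
        field_simp
        linarith
      have e0 : fP 2 0 = X ^ 2 - 1 := by simp [fP]
      rw [e0, hr, hq]
      simp only [eval_sub, eval_X, eval_one, eval_pow, derivative_sub, derivative_X_pow,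
        derivative_one, sub_zero, Nat.cast_zero, mul_zero, zero_add, eval_mul, eval_C]
      rw [hw2]
      refine ⟨?_, ?_⟩
      · intro h
        have := congrArg Complex.im h
        simp [him] at this
      · have e5 : Complex.I * (2 * w * (((2 : ℕ) : ℂ) * w ^ (2 - 1)) - ((2 : ℕ) : ℂ) * (w - 1 - 1)) =
            Complex.I * (2 * w) := by
          push_cast
          linear_combination (4 * Complex.I) * hw2
        rw [e5]
        apply Complex.ext
        · simp [hre, him, Complex.mul_re, Complex.mul_im]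
          nlinarith
        · simp [hre, him, Complex.mul_re, Complex.mul_im]
          nlinarith
  | succ L ih =>
    obtain ⟨ih1, ih2⟩ := ih
    have hr := (r_pos' a L ha).ne'
    have hrc : (r a L : ℂ) ≠ 0 := by exact_mod_cast hr
    have e1 : (fP a (L + 1)).eval w = -2 * Complex.I * r a L * (fP a L).eval w := by
      rw [fP_succ]
      simp only [eval_sub, eval_add, eval_mul, eval_pow, eval_X, eval_one, eval_C, eval_ofNat]
      linear_combination ((9 * L + 3 + a : ℂ) * (fP a L).eval w - 2 * w *
        (derivative (fP a L)).eval w) * hw3 - (2 * Complex.I) * ih2 +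
        (2 * (2 * w * (derivative (fP a L)).eval w - (3 * L + a) * (fP a L).eval w)) * hI
    refine ⟨?_, ?_⟩
    · rw [e1]
      exact mul_ne_zero (mul_ne_zero (mul_ne_zero (by norm_num) Complex.I_ne_zero) hrc) ih1
    · have hd := congrArg (eval w) (fP_deriv a L)
      simp only [eval_sub, eval_add, eval_mul, eval_pow, eval_X, eval_one, eval_C, eval_ofNat] at hd
      have e2 : (r a (L + 1) : ℂ) * r a L = 9 * ((L:ℂ) + 1) ^ 2 - (a:ℂ) ^ 2 := by
        have : r a (L + 1) * r a L = 9 * ((L:ℝ) + 1) ^ 2 - (a:ℝ) ^ 2 := by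
          rw [r, div_mul_cancel₀ _ hr]
        exact_mod_cast this
      push_cast
      rw [e1] at hd ⊢
      linear_combination Complex.I * hd +
        (Complex.I * (9 * ((L:ℂ) + 1) ^ 2 - (a:ℂ) ^ 2) * (fP a L).eval w) * hw3 +
        (2 * Complex.I * (fP a L).eval w) * e2

end CC
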