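import Pool.Agent.Helper9.CC.DictC
import Pool.Agent.Helper9.CC.EvalB
import Pool.Agent.Helper9.CC.Asym

/-! The density of the crossing clusters (module FINAL). -/

namespace CC
open Finset Filter Topology

theorem fl_nT_one_ne (L : ℕ) : nT L 1 ≠ 0 := by
  have hw : w ≠ 0 := by
    intro h
    have := congrArg Complex.re h
    simp [w] at this
  have h2 : w - (1 - w) ≠ 0 := by
    intro h
    have := congrArg Complex.im h
    simp [w] at this
  unfold nT
  rw [mul_one, mul_one]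
  refine mul_ne_zero (mul_ne_zero h2 h2) (pow_ne_zero _ (mul_ne_zero (pow_ne_zero _ hw) ?_))
  norm_num

theorem fl_incr (L : ℕ) {g : Q → ℂ} (hg : ∀ x, cn (T L 1 x) = nT L 1 * cn x + itg g x) (x : M) (N : ℕ) :
    cn (((Ts L) ^ (N + 1)) x) - cn (((Ts L) ^ N) x) = (nT L 1)⁻¹ * itg g (((Ts L) ^ N) x) := by
  rw [pow_succ', Module.End.mul_apply]
  generalize ((Ts L) ^ N) x = y
  unfold Ts
  rw [LinearMap.smul_apply, map_smul, smul_eq_mul, hg]
  have := fl_nT_one_ne L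
  field_simp
  ring

/-- the counter of the strip -/
theorem fl_cn (L : ℕ) (hL : 1 ≤ L) :
    Tendsto (fun N : ℕ => ((N:ℝ)⁻¹ : ℝ) • cn (((Ts L) ^ N) (Finsupp.single (stQ L ∅ (fr L 0) ∅) 1))) atTop
      (𝓝 ((Real.sqrt 3 * (r 1 L - r 2 L) : ℝ) : ℂ)) := by
  obtain ⟨g, hg1, ⟨C, hC⟩, hg2⟩ := cn_T L 1
  obtain ⟨l, hl, _⟩ := doeb L hL g hg1 C hC
  obtain ⟨G, hG, h1, h2, h3, h4, h5⟩ := lim_main L hL
  rw [eval_main L G hG h1 h2 h3 h4] at h5
  have h6 := (hl _ (F0_mem L 0)).const_mul ((nT L 1)⁻¹)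
  have e : (nT L 1)⁻¹ * l = ((Real.sqrt 3 * (r 1 L - r 2 L) : ℝ) : ℂ) := by
    refine tendsto_nhds_unique h6 (h5.congr fun N => ?_)
    unfold mu x0
    exact fl_incr L hg2 _ N
  have h7 := (hl _ (init_mem L hL)).const_mul ((nT L 1)⁻¹)
  rw [e] at h7
  have h8 := h7.cesaro_smul
  set y : M := Finsupp.single (stQ L ∅ (fr L 0) ∅) 1 with hy
  have h9 : Tendsto (fun N : ℕ => ((N:ℝ)⁻¹ : ℝ) • cn y) atTop (𝓝 0) := by
    have := (tendsto_inv_atTop_nhds_zero_nat (𝕜 := ℝ)).smul_const (cn y)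
    rwa [zero_smul] at this
  have h10 := h8.add h9
  rw [add_zero] at h10
  refine h10.congr fun N => ?_
  rw [← smul_add]
  congr 1
  have h11 : ∀ i ∈ range N, (nT L 1)⁻¹ * itg g (((Ts L) ^ i) y) =
      cn (((Ts L) ^ (i + 1)) y) - cn (((Ts L) ^ i) y) := fun i _ => (fl_incr L hg2 y i).symm
  rw [sum_congr rfl h11, sum_range_sub (fun i => cn (((Ts L) ^ i) y)), pow_zero]
  simp

/-- expected number of crossing clusters per unit length -/
theorem density (L : ℕ) (hL : 1 ≤ L) : Tendsto (fun H : ℕ => EN L H / H) atTop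
    (𝓝 (Real.sqrt 3 / 2 * (r 1 L - r 2 L))) := by
  obtain ⟨C, hC⟩ := EN_cn L hL
  set y : M := Finsupp.single (stQ L ∅ (fr L 0) ∅) 1 with hy
  set p : ℝ := Real.sqrt 3 * (r 1 L - r 2 L) with hp
  have hf : Tendsto (fun H : ℕ => H / 2) atTop atTop :=
    Filter.tendsto_atTop_atTop.2 fun b => ⟨2 * b, fun a ha => by omega⟩
  have h1 := (fl_cn L hL).comp hf
  rw [← hy] at h1
  -- the ratio `(H/2)/H → 1/2`
  have h2 : Tendsto (fun H : ℕ => ((H / 2 : ℕ) : ℝ) / H) atTop (𝓝 (1 / 2)) := by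
    have h3 : Tendsto (fun H : ℕ => (1:ℝ) / 2 - (H:ℝ)⁻¹) atTop (𝓝 (1 / 2)) := by
      have := (tendsto_inv_atTop_nhds_zero_nat (𝕜 := ℝ)).const_sub (1 / 2)
      rwa [sub_zero] at this
    refine tendsto_of_tendsto_of_tendsto_of_le_of_le' h3 tendsto_const_nhds ?_ ?_
    · filter_upwards [eventually_ge_atTop 1] with H hH
      have hH' : (0:ℝ) < H := by exact_mod_cast hH
      rw [le_div_iff₀ hH', sub_mul, inv_mul_cancel₀ hH'.ne']
      have : H ≤ 2 * (H / 2) + 1 := by omega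
      have : (H:ℝ) ≤ 2 * ((H / 2 : ℕ) : ℝ) + 1 := by exact_mod_cast this
      linarith
    · filter_upwards [eventually_ge_atTop 1] with H hH
      have hH' : (0:ℝ) < H := by exact_mod_cast hH
      rw [div_le_iff₀ hH']
      have : 2 * (H / 2) ≤ H := by omega
      have : 2 * ((H / 2 : ℕ) : ℝ) ≤ (H:ℝ) := by exact_mod_cast this
      linarith
  have h4 : Tendsto (fun H : ℕ => ((H:ℝ)⁻¹ : ℝ) • cn (((Ts L) ^ (H / 2)) y)) atTop
      (𝓝 ((p / 2 : ℝ) : ℂ)) := by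
    have h5 := h2.smul h1
    have e : ((1:ℝ) / 2) • ((p : ℝ) : ℂ) = ((p / 2 : ℝ) : ℂ) := by
      rw [Complex.real_smul]; push_cast; ring
    rw [e] at h5
    refine h5.congr' ?_
    filter_upwards [eventually_ge_atTop 2] with H hH
    have hH1 : ((H / 2 : ℕ) : ℝ) ≠ 0 := by
      have : 0 < H / 2 := by omega
      exact_mod_cast this.ne'
    simp only [Function.comp_apply]
    rw [smul_smul]
    congr 1
    field_simp
  have h6 : Tendsto (fun H : ℕ => ((H:ℝ)⁻¹ : ℝ) • ((EN L H : ℂ) - cn (((Ts L) ^ (H / 2)) y))) atTop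
      (𝓝 0) := by
    have h7 : Tendsto (fun H : ℕ => (H:ℝ)⁻¹ * C) atTop (𝓝 0) := by
      have := (tendsto_inv_atTop_nhds_zero_nat (𝕜 := ℝ)).mul_const C
      rwa [zero_mul] at this
    refine squeeze_zero_norm (fun H => ?_) h7
    rw [norm_smul, norm_inv, Real.norm_natCast]
    exact mul_le_mul_of_nonneg_left (hC (H / 2) H (by omega) (by omega)) (by positivity)
  have h8 := h6.add h4
  rw [zero_add] at h8
  have h9 : Tendsto (fun H : ℕ => ((EN L H / H : ℝ) : ℂ)) atTop (𝓝 ((p / 2 : ℝ) : ℂ)) := by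
    refine h8.congr fun H => ?_
    rw [← smul_add, sub_add_cancel, Complex.real_smul]
    push_cast
    ring
  have h10 : Tendsto (fun H : ℕ => EN L H / H) atTop (𝓝 (p / 2)) := by
    have := (Complex.continuous_re.tendsto _).comp h9
    simpa only [Function.comp_def, Complex.ofReal_re] using this
  have e : p / 2 = Real.sqrt 3 / 2 * (r 1 L - r 2 L) := by rw [hp]; ring
  rwa [e] at h10

theorem main : ∃ ρ : ℕ → ℝ, (∀ L, 1 ≤ L → Tendsto (fun H : ℕ => EN L H / H) atTop (𝓝 (ρ L))) ∧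
    (∀ L, ρ L = Real.sqrt 3 / 2 * (r 1 L - r 2 L)) ∧
    Tendsto (fun L : ℕ => L * ρ L) atTop (𝓝 (Real.sqrt 3 / 4)) := by
  refine ⟨fun L => Real.sqrt 3 / 2 * (r 1 L - r 2 L), density, fun _ => rfl, ?_⟩
  have h := asym.const_mul (1 / 2)
  have e : (1:ℝ) / 2 * (Real.sqrt 3 / 2) = Real.sqrt 3 / 4 := by ring
  rw [e] at h
  refine h.congr fun L => by ring

end CC
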