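import Pool.Agent.Helper9.CC.Defs
import Pool.Agent.Lead.IP.BasicA

/-! Relations between `Dm` and the maps `act i`, and the initial state (module RELD). -/

namespace CC
open Classical

theorem rd_detF_s (k : ℕ) (X : Fr) (x y : ℕ) :
    (detF k X).s x y ↔ x = y ∨ (x ≠ k ∧ y ≠ k ∧ X.s x y) := Iff.rfl
theorem rd_detF_A (k : ℕ) (X : Fr) (x : ℕ) : x ∈ (detF k X).A ↔ x ∈ X.A ∧ x ≠ k := Iff.rfl
theorem rd_detF_B (k : ℕ) (X : Fr) (x : ℕ) : x ∈ (detF k X).B ↔ x ∈ X.B ∧ x ≠ k := Iff.rfl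
theorem rd_joinF_s (j k : ℕ) (X : Fr) (x y : ℕ) :
    (joinF j k X).s x y ↔ X.s x y ∨ (X.s x j ∧ X.s k y) ∨ (X.s x k ∧ X.s j y) := Iff.rfl
theorem rd_joinF_A (j k : ℕ) (X : Fr) (x : ℕ) :
    x ∈ (joinF j k X).A ↔ x ∈ X.A ∨ (X.s x j ∧ k ∈ X.A) ∨ (X.s x k ∧ j ∈ X.A) := Iff.rfl
theorem rd_joinF_B (j k : ℕ) (X : Fr) (x : ℕ) :
    x ∈ (joinF j k X).B ↔ x ∈ X.B ∨ (X.s x j ∧ k ∈ X.B) ∨ (X.s x k ∧ j ∈ X.B) := Iff.rfl
theorem rd_dropF_s (X : Fr) (x y : ℕ) : (dropF X).s x y ↔ X.s (x + 1) (y + 1) := Iff.rfl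
theorem rd_dropF_A (X : Fr) (x : ℕ) : x ∈ (dropF X).A ↔ x + 1 ∈ X.A ∨ X.s (x + 1) 0 := Iff.rfl
theorem rd_dropF_B (X : Fr) (x : ℕ) : x ∈ (dropF X).B ↔ x + 1 ∈ X.B := Iff.rfl

theorem rd_Fr_ext {X Y : Fr} (hs : ∀ x y, X.s x y ↔ Y.s x y) (hA : ∀ x, x ∈ X.A ↔ x ∈ Y.A)
    (hB : ∀ x, x ∈ X.B ↔ x ∈ Y.B) : X = Y :=
  Fr.ext (Setoid.ext hs) (Set.ext hA) (Set.ext hB)

theorem rd_act_even (k : ℕ) (X : Q) : act (2 * k) X =
    (detF k X.1, X.2 + if lone X.1 k ∧ k ∈ X.1.A ∧ k ∈ X.1.B then 1 else 0) := by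
  unfold act
  rw [if_pos (by omega), Nat.mul_div_cancel_left k (by norm_num)]

theorem rd_act_odd (k : ℕ) (X : Q) : act (2 * k + 1) X = (joinF k (k + 1) X.1, X.2) := by
  unfold act
  rw [if_neg (by omega), show (2 * k + 1) / 2 = k by omega]

theorem rd_drop_det (k : ℕ) (X : Fr) : dropF (detF (k + 1) X) = detF k (dropF X) := by
  apply rd_Fr_ext
  · intro x y
    rw [rd_dropF_s, rd_detF_s, rd_detF_s, rd_dropF_s]
    constructor
    · rintro (h | ⟨h1, h2, h3⟩)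
      · exact Or.inl (by omega)
      · exact Or.inr ⟨by omega, by omega, h3⟩
    · rintro (h | ⟨h1, h2, h3⟩)
      · exact Or.inl (by omega)
      · exact Or.inr ⟨by omega, by omega, h3⟩
  · intro x
    rw [rd_dropF_A, rd_detF_A, rd_detF_s, rd_detF_A, rd_dropF_A]
    constructor
    · rintro (⟨h1, h2⟩ | h | ⟨h1, h2, h3⟩)
      · exact ⟨Or.inl h1, by omega⟩
      · omega
      · exact ⟨Or.inr h3, by omega⟩
    · rintro ⟨h1 | h1, h2⟩
      · exact Or.inl ⟨h1, by omega⟩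
      · exact Or.inr (Or.inr ⟨by omega, by omega, h1⟩)
  · intro x
    rw [rd_dropF_B, rd_detF_B, rd_detF_B, rd_dropF_B]
    constructor
    · rintro ⟨h1, h2⟩
      exact ⟨h1, by omega⟩
    · rintro ⟨h1, h2⟩
      exact ⟨h1, by omega⟩

theorem rd_drop_join (k : ℕ) (X : Fr) :
    dropF (joinF (k + 1) (k + 1 + 1) X) = joinF k (k + 1) (dropF X) := by
  apply rd_Fr_ext
  · intro x y
    exact Iff.rfl
  · intro x
    rw [rd_dropF_A, rd_joinF_A, rd_joinF_s, rd_joinF_A, rd_dropF_A, rd_dropF_A, rd_dropF_A,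
      rd_dropF_s, rd_dropF_s]
    constructor
    · rintro ((h | ⟨h1, h2⟩ | ⟨h1, h2⟩) | (h | ⟨h1, h2⟩ | ⟨h1, h2⟩))
      · exact Or.inl (Or.inl h)
      · exact Or.inr (Or.inl ⟨h1, Or.inl h2⟩)
      · exact Or.inr (Or.inr ⟨h1, Or.inl h2⟩)
      · exact Or.inl (Or.inr h)
      · exact Or.inr (Or.inl ⟨h1, Or.inr h2⟩)
      · exact Or.inr (Or.inr ⟨h1, Or.inr h2⟩)
    · rintro ((h | h) | ⟨h1, h2 | h2⟩ | ⟨h1, h2 | h2⟩)
      · exact Or.inl (Or.inl h)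
      · exact Or.inr (Or.inl h)
      · exact Or.inl (Or.inr (Or.inl ⟨h1, h2⟩))
      · exact Or.inr (Or.inr (Or.inl ⟨h1, h2⟩))
      · exact Or.inl (Or.inr (Or.inr ⟨h1, h2⟩))
      · exact Or.inr (Or.inr (Or.inr ⟨h1, h2⟩))
  · intro x
    exact Iff.rfl

theorem Dm_act (i : ℕ) (X : Q) : Dm (act (i + 2) X) = act i (Dm X) := by
  obtain ⟨k, rfl | rfl⟩ := IP.parity i
  · rw [show 2 * k + 2 = 2 * (k + 1) by ring, rd_act_even, rd_act_even]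
    unfold Dm
    refine Prod.ext (rd_drop_det k X.1) ?_
    show X.2 + (if lone X.1 (k + 1) ∧ k + 1 ∈ X.1.A ∧ k + 1 ∈ X.1.B then 1 else 0)
        + (if lone (detF (k + 1) X.1) 0 ∧ 0 ∈ (detF (k + 1) X.1).B then 1 else 0)
      = X.2 + (if lone X.1 0 ∧ 0 ∈ X.1.B then 1 else 0)
        + (if lone (dropF X.1) k ∧ k ∈ (dropF X.1).A ∧ k ∈ (dropF X.1).B then 1 else 0)
    by_cases h0 : X.1.s 0 (k + 1)
    · have e1 : ¬ (lone X.1 (k + 1) ∧ k + 1 ∈ X.1.A ∧ k + 1 ∈ X.1.B) := by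
        rintro ⟨h, -⟩
        have := h 0 (X.1.s.symm h0)
        omega
      have e2 : ¬ (lone X.1 0 ∧ 0 ∈ X.1.B) := by
        rintro ⟨h, -⟩
        have := h _ h0
        omega
      have e3 : (lone (detF (k + 1) X.1) 0 ∧ 0 ∈ (detF (k + 1) X.1).B) ↔
          (lone (dropF X.1) k ∧ k ∈ (dropF X.1).A ∧ k ∈ (dropF X.1).B) := by
        constructor
        · rintro ⟨h1, h2, -⟩
          refine ⟨?_, Or.inr (X.1.s.symm h0), X.1.hB _ _ h0 h2⟩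
          intro y hy
          by_contra hne
          have h3 := h1 (y + 1) (Or.inr ⟨by omega, by omega, X.1.s.trans h0 hy⟩)
          omega
        · rintro ⟨h1, -, h2⟩
          refine ⟨?_, X.1.hB _ _ (X.1.s.symm h0) h2, by omega⟩
          rintro y (h3 | ⟨h3, h4, h5⟩)
          · exact h3.symm
          · by_contra hne
            obtain ⟨y', rfl⟩ : ∃ y', y = y' + 1 := ⟨y - 1, by omega⟩
            have h6 := h1 y' (X.1.s.trans (X.1.s.symm h0) h5)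
            omega
      rw [if_neg e1, if_neg e2]
      by_cases e4 : lone (dropF X.1) k ∧ k ∈ (dropF X.1).A ∧ k ∈ (dropF X.1).B
      · rw [if_pos e4, if_pos (e3.mpr e4)]
      · rw [if_neg e4, if_neg (fun h => e4 (e3.mp h))]
    · have e1 : (lone X.1 (k + 1) ∧ k + 1 ∈ X.1.A ∧ k + 1 ∈ X.1.B) ↔
          (lone (dropF X.1) k ∧ k ∈ (dropF X.1).A ∧ k ∈ (dropF X.1).B) := by
        constructor
        · rintro ⟨h1, h2, h3⟩
          refine ⟨?_, Or.inl h2, h3⟩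
          intro y hy
          have := h1 _ hy
          omega
        · rintro ⟨h1, h2 | h2, h3⟩
          · refine ⟨?_, h2, h3⟩
            intro y hy
            rcases y with _ | y
            · exact absurd (X.1.s.symm hy) h0
            · have := h1 _ hy
              omega
          · exact absurd (X.1.s.symm h2) h0
      have e2 : (lone (detF (k + 1) X.1) 0 ∧ 0 ∈ (detF (k + 1) X.1).B) ↔
          (lone X.1 0 ∧ 0 ∈ X.1.B) := by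
        constructor
        · rintro ⟨h1, h2, -⟩
          refine ⟨?_, h2⟩
          intro y hy
          by_cases hk : y = k + 1
          · rw [hk] at hy
            exact absurd hy h0
          · exact h1 _ (Or.inr ⟨by omega, hk, hy⟩)
        · rintro ⟨h1, h2⟩
          refine ⟨?_, h2, by omega⟩
          rintro y (h3 | ⟨h3, h4, h5⟩)
          · exact h3.symm
          · exact h1 _ h5
      rw [if_congr e1 rfl rfl, if_congr e2 rfl rfl]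
      ring
  · rw [show 2 * k + 1 + 2 = 2 * (k + 1) + 1 by ring, rd_act_odd, rd_act_odd]
    unfold Dm
    refine Prod.ext (rd_drop_join k X.1) ?_
    show X.2 + (if lone (joinF (k + 1) (k + 1 + 1) X.1) 0 ∧
        0 ∈ (joinF (k + 1) (k + 1 + 1) X.1).B then 1 else 0)
      = X.2 + (if lone X.1 0 ∧ 0 ∈ X.1.B then 1 else 0)
    have e1 : (lone (joinF (k + 1) (k + 1 + 1) X.1) 0 ∧
        0 ∈ (joinF (k + 1) (k + 1 + 1) X.1).B) ↔ (lone X.1 0 ∧ 0 ∈ X.1.B) := by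
      constructor
      · rintro ⟨h1, h2⟩
        have h3 : lone X.1 0 := fun y hy => h1 y (Or.inl hy)
        refine ⟨h3, ?_⟩
        rcases h2 with h2 | ⟨h2, -⟩ | ⟨h2, -⟩
        · exact h2
        · have := h3 _ h2
          omega
        · have := h3 _ h2
          omega
      · rintro ⟨h1, h2⟩
        refine ⟨?_, Or.inl h2⟩
        rintro y (h3 | ⟨h3, -⟩ | ⟨h3, -⟩)
        · exact h1 _ h3
        · have := h1 _ h3
          omega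
        · have := h1 _ h3
          omega
    rw [if_congr e1 rfl rfl]

theorem Dm_sh (X : Q) : Dm (sh X) = sh (Dm X) := by
  unfold Dm sh
  refine Prod.ext rfl ?_
  show X.2 + 1 + _ = X.2 + _ + 1
  ring

/-- the second part of `Dm (Dm X)` in a normal form -/
theorem rd_DD (X : Q) : Dm (Dm X) = (dropF (dropF X.1), X.2 +
    (if lone X.1 0 ∧ 0 ∈ X.1.B then 1 else 0) +
    (if lone (dropF X.1) 0 ∧ 0 ∈ (dropF X.1).B then 1 else 0)) := rfl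

theorem rd_det0 (Y : Q) : act 0 Y =
    (detF 0 Y.1, Y.2 + if lone Y.1 0 ∧ 0 ∈ Y.1.A ∧ 0 ∈ Y.1.B then 1 else 0) := rd_act_even 0 Y
theorem rd_det1 (Y : Q) : act 2 Y =
    (detF 1 Y.1, Y.2 + if lone Y.1 1 ∧ 1 ∈ Y.1.A ∧ 1 ∈ Y.1.B then 1 else 0) := rd_act_even 1 Y
theorem rd_join (Y : Q) : act 1 Y = (joinF 0 1 Y.1, Y.2) := rd_act_odd 0 Y

theorem rd_join_rel (X : Fr) : (joinF 0 1 X).s 0 1 :=
  Or.inr (Or.inl ⟨X.s.refl _, X.s.refl _⟩)

/-- two linked sites `0`, `1`: the site `0` may be detached before it is forgotten -/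
theorem rd_DD0 (Y : Q) (h : Y.1.s 0 1) : Dm (Dm (act 0 Y)) = Dm (Dm Y) := by
  have h' : Y.1.s 1 0 := Y.1.s.symm h
  have hn : ¬ lone Y.1 0 := fun hl => by
    have := hl _ h
    omega
  rw [rd_det0, rd_DD, rd_DD, if_neg (fun hh => hn hh.1)]
  refine Prod.ext ?_ ?_
  · apply rd_Fr_ext
    · intro x y
      show (x + 1 + 1 = y + 1 + 1 ∨ (x + 1 + 1 ≠ 0 ∧ y + 1 + 1 ≠ 0 ∧ Y.1.s (x + 1 + 1) (y + 1 + 1)))
        ↔ Y.1.s (x + 1 + 1) (y + 1 + 1)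
      constructor
      · rintro (h1 | ⟨-, -, h1⟩)
        · rw [h1]
        · exact h1
      · intro h1
        exact Or.inr ⟨by omega, by omega, h1⟩
    · intro x
      show (((x + 1 + 1 ∈ Y.1.A ∧ x + 1 + 1 ≠ 0) ∨ (x + 1 + 1 = 0 ∨ (x + 1 + 1 ≠ 0 ∧ 0 ≠ 0 ∧ _)))
        ∨ (x + 1 + 1 = 0 + 1 ∨ (x + 1 + 1 ≠ 0 ∧ 0 + 1 ≠ 0 ∧ Y.1.s (x + 1 + 1) (0 + 1)))) ↔
        ((x + 1 + 1 ∈ Y.1.A ∨ Y.1.s (x + 1 + 1) 0) ∨ Y.1.s (x + 1 + 1) (0 + 1))
      constructor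
      · rintro ((⟨h1, -⟩ | h1 | ⟨-, h1, -⟩) | h1 | ⟨-, -, h1⟩)
        · exact Or.inl (Or.inl h1)
        · omega
        · exact absurd rfl h1
        · omega
        · exact Or.inr h1
      · rintro ((h1 | h1) | h1)
        · exact Or.inl (Or.inl ⟨h1, by omega⟩)
        · exact Or.inr (Or.inr ⟨by omega, by omega, Y.1.s.trans h1 h⟩)
        · exact Or.inr (Or.inr ⟨by omega, by omega, h1⟩)
    · intro x
      show (x + 1 + 1 ∈ Y.1.B ∧ x + 1 + 1 ≠ 0) ↔ x + 1 + 1 ∈ Y.1.B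
      exact ⟨fun h1 => h1.1, fun h1 => ⟨h1, by omega⟩⟩
  · show Y.2 + 0 + (if lone (detF 0 Y.1) 0 ∧ 0 ∈ (detF 0 Y.1).B then 1 else 0)
        + (if lone (dropF (detF 0 Y.1)) 0 ∧ 0 ∈ (dropF (detF 0 Y.1)).B then 1 else 0)
      = Y.2 + (if lone Y.1 0 ∧ 0 ∈ Y.1.B then 1 else 0)
        + (if lone (dropF Y.1) 0 ∧ 0 ∈ (dropF Y.1).B then 1 else 0)
    have e1 : ¬ (lone (detF 0 Y.1) 0 ∧ 0 ∈ (detF 0 Y.1).B) := fun hh => hh.2.2 rfl
    have e2 : (lone (dropF (detF 0 Y.1)) 0 ∧ 0 ∈ (dropF (detF 0 Y.1)).B) ↔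
        (lone (dropF Y.1) 0 ∧ 0 ∈ (dropF Y.1).B) := by
      constructor
      · rintro ⟨h1, h2, -⟩
        exact ⟨fun y hy => h1 y (Or.inr ⟨by omega, by omega, hy⟩), h2⟩
      · rintro ⟨h1, h2⟩
        refine ⟨?_, h2, by omega⟩
        rintro y (h3 | ⟨-, -, h3⟩)
        · omega
        · exact h1 _ h3
    have e0 : ¬ (lone Y.1 0 ∧ 0 ∈ Y.1.B) := fun hh => hn hh.1
    rw [if_neg e1, if_neg e0, if_congr e2 rfl rfl]
    ring

/-- two linked sites `0`, `1`: the site `1` may be detached before it is forgotten -/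
theorem rd_DD1 (Y : Q) (h : Y.1.s 0 1) : Dm (Dm (act 2 Y)) = Dm (Dm Y) := by
  have h' : Y.1.s 1 0 := Y.1.s.symm h
  have hn : ¬ lone Y.1 0 := fun hl => by
    have := hl _ h
    omega
  have hn' : ¬ lone Y.1 1 := fun hl => by
    have := hl _ h'
    omega
  rw [rd_det1, rd_DD, rd_DD, if_neg (fun hh => hn' hh.1)]
  refine Prod.ext ?_ ?_
  · apply rd_Fr_ext
    · intro x y
      show (x + 1 + 1 = y + 1 + 1 ∨ (x + 1 + 1 ≠ 1 ∧ y + 1 + 1 ≠ 1 ∧ Y.1.s (x + 1 + 1) (y + 1 + 1)))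
        ↔ Y.1.s (x + 1 + 1) (y + 1 + 1)
      constructor
      · rintro (h1 | ⟨-, -, h1⟩)
        · rw [h1]
        · exact h1
      · intro h1
        exact Or.inr ⟨by omega, by omega, h1⟩
    · intro x
      show (((x + 1 + 1 ∈ Y.1.A ∧ x + 1 + 1 ≠ 1) ∨
          (x + 1 + 1 = 0 ∨ (x + 1 + 1 ≠ 1 ∧ 0 ≠ 1 ∧ Y.1.s (x + 1 + 1) 0)))
        ∨ (x + 1 + 1 = 0 + 1 ∨ (x + 1 + 1 ≠ 1 ∧ 0 + 1 ≠ 1 ∧ Y.1.s (x + 1 + 1) (0 + 1)))) ↔
        ((x + 1 + 1 ∈ Y.1.A ∨ Y.1.s (x + 1 + 1) 0) ∨ Y.1.s (x + 1 + 1) (0 + 1))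
      constructor
      · rintro ((⟨h1, -⟩ | h1 | ⟨-, -, h1⟩) | h1 | ⟨-, h1, -⟩)
        · exact Or.inl (Or.inl h1)
        · omega
        · exact Or.inl (Or.inr h1)
        · omega
        · omega
      · rintro ((h1 | h1) | h1)
        · exact Or.inl (Or.inl ⟨h1, by omega⟩)
        · exact Or.inl (Or.inr (Or.inr ⟨by omega, by omega, h1⟩))
        · exact Or.inl (Or.inr (Or.inr ⟨by omega, by omega, Y.1.s.trans h1 h'⟩))
    · intro x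
      show (x + 1 + 1 ∈ Y.1.B ∧ x + 1 + 1 ≠ 1) ↔ x + 1 + 1 ∈ Y.1.B
      exact ⟨fun h1 => h1.1, fun h1 => ⟨h1, by omega⟩⟩
  · show Y.2 + 0 + (if lone (detF 1 Y.1) 0 ∧ 0 ∈ (detF 1 Y.1).B then 1 else 0)
        + (if lone (dropF (detF 1 Y.1)) 0 ∧ 0 ∈ (dropF (detF 1 Y.1)).B then 1 else 0)
      = Y.2 + (if lone Y.1 0 ∧ 0 ∈ Y.1.B then 1 else 0)
        + (if lone (dropF Y.1) 0 ∧ 0 ∈ (dropF Y.1).B then 1 else 0)
    have e1 : ¬ (lone (dropF (detF 1 Y.1)) 0 ∧ 0 ∈ (dropF (detF 1 Y.1)).B) :=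
      fun hh => hh.2.2 rfl
    have e2 : (lone (detF 1 Y.1) 0 ∧ 0 ∈ (detF 1 Y.1).B) ↔
        (lone (dropF Y.1) 0 ∧ 0 ∈ (dropF Y.1).B) := by
      constructor
      · rintro ⟨h1, h2, -⟩
        refine ⟨?_, Y.1.hB _ _ h h2⟩
        intro y hy
        by_contra hne
        have h3 := h1 (y + 1) (Or.inr ⟨by omega, by omega, Y.1.s.trans h hy⟩)
        omega
      · rintro ⟨h1, h2⟩
        refine ⟨?_, Y.1.hB _ _ h' h2, by omega⟩
        rintro y (h3 | ⟨-, h4, h3⟩)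
        · exact h3.symm
        · by_contra hne
          obtain ⟨y', rfl⟩ : ∃ y', y = y' + 1 := ⟨y - 1, by omega⟩
          have h6 := h1 y' (Y.1.s.trans h' h3)
          omega
    have e0 : ¬ (lone Y.1 0 ∧ 0 ∈ Y.1.B) := fun hh => hn hh.1
    rw [if_neg e1, if_neg e0, if_congr e2 rfl rfl]
    ring

theorem DD01 (X : Q) : Dm (Dm (act 0 (act 1 X))) = Dm (Dm (act 1 X)) := by
  apply rd_DD0
  rw [rd_join]
  exact rd_join_rel X.1

theorem DD21 (X : Q) : Dm (Dm (act 2 (act 1 X))) = Dm (Dm (act 1 X)) := by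
  apply rd_DD1
  rw [rd_join]
  exact rd_join_rel X.1

theorem rd_DD10' (Y : Q) (h0 : lone Y.1 0) (hA : 0 ∉ Y.1.A) (hB : 0 ∉ Y.1.B) :
    Dm (Dm (act 1 Y)) = Dm (Dm Y) := by
  have hz : ∀ x, ¬ Y.1.s (x + 1) 0 := fun x hx => by
    have := h0 _ (Y.1.s.symm hx)
    omega
  have hz' : ∀ x, ¬ Y.1.s 0 (x + 1) := fun x hx => by
    have := h0 _ hx
    omega
  rw [rd_join, rd_DD, rd_DD]
  refine Prod.ext ?_ ?_
  · apply rd_Fr_ext
    · intro x y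
      show (Y.1.s (x + 1 + 1) (y + 1 + 1) ∨ (Y.1.s (x + 1 + 1) 0 ∧ Y.1.s 1 (y + 1 + 1)) ∨
        (Y.1.s (x + 1 + 1) 1 ∧ Y.1.s 0 (y + 1 + 1))) ↔ Y.1.s (x + 1 + 1) (y + 1 + 1)
      constructor
      · rintro (h1 | ⟨h1, -⟩ | ⟨-, h1⟩)
        · exact h1
        · exact absurd h1 (hz _)
        · exact absurd h1 (hz' _)
      · exact Or.inl
    · intro x
      show (((x + 1 + 1 ∈ Y.1.A ∨ (Y.1.s (x + 1 + 1) 0 ∧ 1 ∈ Y.1.A) ∨
          (Y.1.s (x + 1 + 1) 1 ∧ 0 ∈ Y.1.A)) ∨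
          (Y.1.s (x + 1 + 1) 0 ∨ (Y.1.s (x + 1 + 1) 0 ∧ Y.1.s 1 0) ∨
            (Y.1.s (x + 1 + 1) 1 ∧ Y.1.s 0 0))) ∨
          (Y.1.s (x + 1 + 1) (0 + 1) ∨ (Y.1.s (x + 1 + 1) 0 ∧ Y.1.s 1 (0 + 1)) ∨
            (Y.1.s (x + 1 + 1) 1 ∧ Y.1.s 0 (0 + 1)))) ↔
        ((x + 1 + 1 ∈ Y.1.A ∨ Y.1.s (x + 1 + 1) 0) ∨ Y.1.s (x + 1 + 1) (0 + 1))
      constructor
      · rintro (((h1 | ⟨h1, -⟩ | ⟨-, h1⟩) | (h1 | ⟨h1, -⟩ | ⟨h1, -⟩)) | (h1 | ⟨h1, -⟩ | ⟨-, h1⟩))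
        · exact Or.inl (Or.inl h1)
        · exact absurd h1 (hz _)
        · exact absurd h1 hA
        · exact absurd h1 (hz _)
        · exact absurd h1 (hz _)
        · exact Or.inr h1
        · exact Or.inr h1
        · exact absurd h1 (hz _)
        · exact absurd h1 (hz' _)
      · rintro ((h1 | h1) | h1)
        · exact Or.inl (Or.inl (Or.inl h1))
        · exact absurd h1 (hz _)
        · exact Or.inr (Or.inl h1)
    · intro x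
      show (x + 1 + 1 ∈ Y.1.B ∨ (Y.1.s (x + 1 + 1) 0 ∧ 1 ∈ Y.1.B) ∨
          (Y.1.s (x + 1 + 1) 1 ∧ 0 ∈ Y.1.B)) ↔ x + 1 + 1 ∈ Y.1.B
      constructor
      · rintro (h1 | ⟨h1, -⟩ | ⟨-, h1⟩)
        · exact h1
        · exact absurd h1 (hz _)
        · exact absurd h1 hB
      · exact Or.inl
  · show Y.2 + (if lone (joinF 0 1 Y.1) 0 ∧ 0 ∈ (joinF 0 1 Y.1).B then 1 else 0)
        + (if lone (dropF (joinF 0 1 Y.1)) 0 ∧ 0 ∈ (dropF (joinF 0 1 Y.1)).B then 1 else 0)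
      = Y.2 + (if lone Y.1 0 ∧ 0 ∈ Y.1.B then 1 else 0)
        + (if lone (dropF Y.1) 0 ∧ 0 ∈ (dropF Y.1).B then 1 else 0)
    have e1 : ¬ (lone (joinF 0 1 Y.1) 0 ∧ 0 ∈ (joinF 0 1 Y.1).B) := fun hh => by
      have := hh.1 1 (rd_join_rel Y.1)
      omega
    have e2 : ¬ (lone Y.1 0 ∧ 0 ∈ Y.1.B) := fun hh => hB hh.2
    have e3 : (lone (dropF (joinF 0 1 Y.1)) 0 ∧ 0 ∈ (dropF (joinF 0 1 Y.1)).B) ↔
        (lone (dropF Y.1) 0 ∧ 0 ∈ (dropF Y.1).B) := by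
      constructor
      · rintro ⟨h1, h2⟩
        refine ⟨fun y hy => h1 y (Or.inl hy), ?_⟩
        rcases h2 with h2 | ⟨h2, -⟩ | ⟨-, h2⟩
        · exact h2
        · exact absurd h2 (hz _)
        · exact absurd h2 hB
      · rintro ⟨h1, h2⟩
        refine ⟨?_, Or.inl h2⟩
        rintro y (h3 | ⟨h3, -⟩ | ⟨-, h3⟩)
        · exact h1 _ h3
        · exact absurd h3 (hz _)
        · exact absurd h3 (hz' _)
    rw [if_neg e1, if_neg e2, if_congr e3 rfl rfl]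

theorem DD10 (X : Q) : Dm (Dm (act 1 (act 0 X))) = Dm (Dm (act 0 X)) := by
  apply rd_DD10'
  · rw [rd_det0]
    rintro y (h | ⟨h, -⟩)
    · exact h.symm
    · exact absurd rfl h
  · rw [rd_det0]
    exact fun h => h.2 rfl
  · rw [rd_det0]
    exact fun h => h.2 rfl

theorem rd_DD12' (Y : Q) (h0 : lone Y.1 1) (hA : 1 ∉ Y.1.A) (hB : 1 ∉ Y.1.B) :
    Dm (Dm (act 1 Y)) = Dm (Dm Y) := by
  have hz : ∀ x, ¬ Y.1.s (x + 1 + 1) 1 := fun x hx => by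
    have := h0 _ (Y.1.s.symm hx)
    omega
  have hz' : ∀ x, ¬ Y.1.s 1 (x + 1 + 1) := fun x hx => by
    have := h0 _ hx
    omega
  have hz0 : ¬ Y.1.s 1 0 := fun hx => by
    have := h0 _ hx
    omega
  have hz1 : ¬ Y.1.s 0 1 := fun hx => hz0 (Y.1.s.symm hx)
  rw [rd_join, rd_DD, rd_DD]
  refine Prod.ext ?_ ?_
  · apply rd_Fr_ext
    · intro x y
      show (Y.1.s (x + 1 + 1) (y + 1 + 1) ∨ (Y.1.s (x + 1 + 1) 0 ∧ Y.1.s 1 (y + 1 + 1)) ∨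
        (Y.1.s (x + 1 + 1) 1 ∧ Y.1.s 0 (y + 1 + 1))) ↔ Y.1.s (x + 1 + 1) (y + 1 + 1)
      constructor
      · rintro (h1 | ⟨-, h1⟩ | ⟨h1, -⟩)
        · exact h1
        · exact absurd h1 (hz' _)
        · exact absurd h1 (hz _)
      · exact Or.inl
    · intro x
      show (((x + 1 + 1 ∈ Y.1.A ∨ (Y.1.s (x + 1 + 1) 0 ∧ 1 ∈ Y.1.A) ∨
          (Y.1.s (x + 1 + 1) 1 ∧ 0 ∈ Y.1.A)) ∨
          (Y.1.s (x + 1 + 1) 0 ∨ (Y.1.s (x + 1 + 1) 0 ∧ Y.1.s 1 0) ∨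
            (Y.1.s (x + 1 + 1) 1 ∧ Y.1.s 0 0))) ∨
          (Y.1.s (x + 1 + 1) (0 + 1) ∨ (Y.1.s (x + 1 + 1) 0 ∧ Y.1.s 1 (0 + 1)) ∨
            (Y.1.s (x + 1 + 1) 1 ∧ Y.1.s 0 (0 + 1)))) ↔
        ((x + 1 + 1 ∈ Y.1.A ∨ Y.1.s (x + 1 + 1) 0) ∨ Y.1.s (x + 1 + 1) (0 + 1))
      constructor
      · rintro (((h1 | ⟨-, h1⟩ | ⟨h1, -⟩) | (h1 | ⟨h1, -⟩ | ⟨h1, -⟩)) | (h1 | ⟨h1, -⟩ | ⟨h1, -⟩))
        · exact Or.inl (Or.inl h1)
        · exact absurd h1 hA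
        · exact absurd h1 (hz _)
        · exact Or.inl (Or.inr h1)
        · exact Or.inl (Or.inr h1)
        · exact absurd h1 (hz _)
        · exact absurd h1 (hz _)
        · exact Or.inl (Or.inr h1)
        · exact absurd h1 (hz _)
      · rintro ((h1 | h1) | h1)
        · exact Or.inl (Or.inl (Or.inl h1))
        · exact Or.inl (Or.inr (Or.inl h1))
        · exact absurd h1 (hz _)
    · intro x
      show (x + 1 + 1 ∈ Y.1.B ∨ (Y.1.s (x + 1 + 1) 0 ∧ 1 ∈ Y.1.B) ∨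
          (Y.1.s (x + 1 + 1) 1 ∧ 0 ∈ Y.1.B)) ↔ x + 1 + 1 ∈ Y.1.B
      constructor
      · rintro (h1 | ⟨-, h1⟩ | ⟨h1, -⟩)
        · exact h1
        · exact absurd h1 hB
        · exact absurd h1 (hz _)
      · exact Or.inl
  · show Y.2 + (if lone (joinF 0 1 Y.1) 0 ∧ 0 ∈ (joinF 0 1 Y.1).B then 1 else 0)
        + (if lone (dropF (joinF 0 1 Y.1)) 0 ∧ 0 ∈ (dropF (joinF 0 1 Y.1)).B then 1 else 0)
      = Y.2 + (if lone Y.1 0 ∧ 0 ∈ Y.1.B then 1 else 0)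
        + (if lone (dropF Y.1) 0 ∧ 0 ∈ (dropF Y.1).B then 1 else 0)
    have e1 : ¬ (lone (joinF 0 1 Y.1) 0 ∧ 0 ∈ (joinF 0 1 Y.1).B) := fun hh => by
      have := hh.1 1 (rd_join_rel Y.1)
      omega
    have e2 : ¬ (lone (dropF Y.1) 0 ∧ 0 ∈ (dropF Y.1).B) := fun hh => hB hh.2
    have e3 : (lone (dropF (joinF 0 1 Y.1)) 0 ∧ 0 ∈ (dropF (joinF 0 1 Y.1)).B) ↔
        (lone Y.1 0 ∧ 0 ∈ Y.1.B) := by
      constructor
      · rintro ⟨h1, h2⟩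
        constructor
        · intro y hy
          by_contra hne
          obtain ⟨y', rfl⟩ : ∃ y', y = y' + 1 := ⟨y - 1, by omega⟩
          have h3 := h1 y' (Or.inr (Or.inr ⟨Y.1.s.refl _, hy⟩))
          rw [h3] at hy
          exact hz1 hy
        · rcases h2 with h2 | ⟨h2, -⟩ | ⟨-, h2⟩
          · exact absurd h2 hB
          · exact absurd h2 hz0
          · exact h2
      · rintro ⟨h1, h2⟩
        refine ⟨?_, Or.inr (Or.inr ⟨Y.1.s.refl _, h2⟩)⟩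
        rintro y (h3 | ⟨h3, -⟩ | ⟨-, h3⟩)
        · have := h0 _ h3
          omega
        · exact absurd h3 hz0
        · have := h1 _ h3
          omega
    rw [if_neg e1, if_neg e2, if_congr e3 rfl rfl]
    ring

theorem DD12 (X : Q) : Dm (Dm (act 1 (act 2 X))) = Dm (Dm (act 2 X)) := by
  apply rd_DD12'
  · rw [rd_det1]
    rintro y (h | ⟨h, -⟩)
    · exact h.symm
    · exact absurd rfl h
  · rw [rd_det1]
    exact fun h => h.2 rfl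
  · rw [rd_det1]
    exact fun h => h.2 rfl

theorem rd_even_F0 (k : ℕ) (X : Q) (h : X.1.A = ∅) :
    act (2 * k) X = (detF k X.1, X.2) := by
  rw [rd_act_even, if_neg]
  · simp
  · rintro ⟨-, h1, -⟩
    rw [h] at h1
    exact h1

theorem act_F0 (i : ℕ) (c : ℤ) : act (i + 1) (act i (F0, c)) = act (i + 1) (F0, c) := by
  obtain ⟨k, rfl | rfl⟩ := IP.parity i
  · rw [rd_act_odd, rd_act_odd, rd_even_F0 k _ rfl]
    refine Prod.ext ?_ rfl
    apply rd_Fr_ext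
    · intro x y
      rw [rd_joinF_s, rd_joinF_s, rd_detF_s, rd_detF_s, rd_detF_s, rd_detF_s, rd_detF_s]
      show _ ↔ (x = y ∨ (x = k ∧ k + 1 = y) ∨ (x = k + 1 ∧ k = y))
      constructor
      · rintro ((h | ⟨-, -, h⟩) | ⟨h1 | ⟨-, -, h1⟩, h2 | ⟨-, -, h2⟩⟩ |
          ⟨h1 | ⟨-, -, h1⟩, h2 | ⟨-, -, h2⟩⟩)
        · exact Or.inl h
        · exact Or.inl h
        · exact Or.inr (Or.inl ⟨h1, h2⟩)
        · exact Or.inr (Or.inl ⟨h1, h2⟩)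
        · exact Or.inr (Or.inl ⟨h1, h2⟩)
        · exact Or.inr (Or.inl ⟨h1, h2⟩)
        · exact Or.inr (Or.inr ⟨h1, h2⟩)
        · exact Or.inr (Or.inr ⟨h1, h2⟩)
        · exact Or.inr (Or.inr ⟨h1, h2⟩)
        · exact Or.inr (Or.inr ⟨h1, h2⟩)
      · rintro (h | ⟨h1, h2⟩ | ⟨h1, h2⟩)
        · exact Or.inl (Or.inl h)
        · exact Or.inr (Or.inl ⟨Or.inl h1, Or.inl h2⟩)
        · exact Or.inr (Or.inr ⟨Or.inl h1, Or.inl h2⟩)
    · intro x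
      rw [rd_joinF_A, rd_joinF_A, rd_detF_A, rd_detF_A, rd_detF_A]
      show ((False ∧ _) ∨ (_ ∧ (False ∧ _)) ∨ (_ ∧ (False ∧ _))) ↔
        (False ∨ (_ ∧ False) ∨ (_ ∧ False))
      tauto
    · intro x
      rw [rd_joinF_B, rd_joinF_B, rd_detF_B, rd_detF_B, rd_detF_B, rd_detF_s]
      show ((True ∧ x ≠ k) ∨ ((x = k ∨ _) ∧ (True ∧ k + 1 ≠ k)) ∨ (_ ∧ (True ∧ k ≠ k))) ↔
        (True ∨ _)
      constructor
      · intro _
        exact Or.inl trivial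
      · intro _
        by_cases hx : x = k
        · exact Or.inr (Or.inl ⟨Or.inl hx, trivial, by omega⟩)
        · exact Or.inl ⟨trivial, hx⟩
  · rw [show 2 * k + 1 + 1 = 2 * (k + 1) by ring, rd_act_odd,
      rd_even_F0 (k + 1) (F0, c) rfl, rd_even_F0]
    · refine Prod.ext ?_ rfl
      apply rd_Fr_ext
      · intro x y
        rw [rd_detF_s, rd_detF_s, rd_joinF_s]
        show (x = y ∨ (x ≠ k + 1 ∧ y ≠ k + 1 ∧ (x = y ∨ (x = k ∧ k + 1 = y) ∨ (x = k + 1 ∧ k = y))))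
          ↔ (x = y ∨ (x ≠ k + 1 ∧ y ≠ k + 1 ∧ x = y))
        constructor
        · rintro (h | ⟨h1, h2, h3 | ⟨-, h3⟩ | ⟨h3, -⟩⟩)
          · exact Or.inl h
          · exact Or.inl h3
          · exact absurd h3.symm h2
          · exact absurd h3 h1
        · rintro (h | ⟨-, -, h⟩)
          · exact Or.inl h
          · exact Or.inl h
      · intro x
        rw [rd_detF_A, rd_detF_A, rd_joinF_A]
        show ((False ∨ (_ ∧ False) ∨ (_ ∧ False)) ∧ _) ↔ (False ∧ _)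
        tauto
      · intro x
        rw [rd_detF_B, rd_detF_B, rd_joinF_B]
        show ((True ∨ _) ∧ _) ↔ (True ∧ _)
        tauto
    · apply Set.eq_empty_of_forall_notMem
      rintro x (h | ⟨-, h⟩ | ⟨-, h⟩)
      · exact h
      · exact h
      · exact h

theorem act_F0' (i : ℕ) (c : ℤ) : act i (act (i + 1) (F0, c)) = act i (F0, c) := by
  obtain ⟨k, rfl | rfl⟩ := IP.parity i
  · rw [rd_act_odd, rd_even_F0 k (F0, c) rfl, rd_even_F0]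
    · refine Prod.ext ?_ rfl
      apply rd_Fr_ext
      · intro x y
        rw [rd_detF_s, rd_detF_s, rd_joinF_s]
        show (x = y ∨ (x ≠ k ∧ y ≠ k ∧ (x = y ∨ (x = k ∧ k + 1 = y) ∨ (x = k + 1 ∧ k = y))))
          ↔ (x = y ∨ (x ≠ k ∧ y ≠ k ∧ x = y))
        constructor
        · rintro (h | ⟨h1, h2, h3 | ⟨h3, -⟩ | ⟨-, h3⟩⟩)
          · exact Or.inl h
          · exact Or.inl h3
          · exact absurd h3 h1
          · exact absurd h3.symm h2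
        · rintro (h | ⟨-, -, h⟩)
          · exact Or.inl h
          · exact Or.inl h
      · intro x
        rw [rd_detF_A, rd_detF_A, rd_joinF_A]
        show ((False ∨ (_ ∧ False) ∨ (_ ∧ False)) ∧ _) ↔ (False ∧ _)
        tauto
      · intro x
        rw [rd_detF_B, rd_detF_B, rd_joinF_B]
        show ((True ∨ _) ∧ _) ↔ (True ∧ _)
        tauto
    · apply Set.eq_empty_of_forall_notMem
      rintro x (h | ⟨-, h⟩ | ⟨-, h⟩)
      · exact h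
      · exact h
      · exact h
  · rw [show 2 * k + 1 + 1 = 2 * (k + 1) by ring, rd_act_odd, rd_act_odd,
      rd_even_F0 (k + 1) _ rfl]
    refine Prod.ext ?_ rfl
    apply rd_Fr_ext
    · intro x y
      rw [rd_joinF_s, rd_joinF_s, rd_detF_s, rd_detF_s, rd_detF_s, rd_detF_s, rd_detF_s]
      show _ ↔ (x = y ∨ (x = k ∧ k + 1 = y) ∨ (x = k + 1 ∧ k = y))
      constructor
      · rintro ((h | ⟨-, -, h⟩) | ⟨h1 | ⟨-, -, h1⟩, h2 | ⟨-, -, h2⟩⟩ |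
          ⟨h1 | ⟨-, -, h1⟩, h2 | ⟨-, -, h2⟩⟩)
        · exact Or.inl h
        · exact Or.inl h
        · exact Or.inr (Or.inl ⟨h1, h2⟩)
        · exact Or.inr (Or.inl ⟨h1, h2⟩)
        · exact Or.inr (Or.inl ⟨h1, h2⟩)
        · exact Or.inr (Or.inl ⟨h1, h2⟩)
        · exact Or.inr (Or.inr ⟨h1, h2⟩)
        · exact Or.inr (Or.inr ⟨h1, h2⟩)
        · exact Or.inr (Or.inr ⟨h1, h2⟩)
        · exact Or.inr (Or.inr ⟨h1, h2⟩)
      · rintro (h | ⟨h1, h2⟩ | ⟨h1, h2⟩)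
        · exact Or.inl (Or.inl h)
        · exact Or.inr (Or.inl ⟨Or.inl h1, Or.inl h2⟩)
        · exact Or.inr (Or.inr ⟨Or.inl h1, Or.inl h2⟩)
    · intro x
      rw [rd_joinF_A, rd_joinF_A, rd_detF_A, rd_detF_A, rd_detF_A]
      show ((False ∧ _) ∨ (_ ∧ (False ∧ _)) ∨ (_ ∧ (False ∧ _))) ↔
        (False ∨ (_ ∧ False) ∨ (_ ∧ False))
      tauto
    · intro x
      rw [rd_joinF_B, rd_joinF_B, rd_detF_B, rd_detF_B, rd_detF_B, rd_detF_s, rd_detF_s]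
      show ((True ∧ x ≠ k + 1) ∨ (_ ∧ (True ∧ k + 1 ≠ k + 1)) ∨
        ((x = k + 1 ∨ _) ∧ (True ∧ k ≠ k + 1))) ↔ (True ∨ _)
      constructor
      · intro _
        exact Or.inl trivial
      · intro _
        by_cases hx : x = k + 1
        · exact Or.inr (Or.inr ⟨Or.inl hx, trivial, by omega⟩)
        · exact Or.inl ⟨trivial, hx⟩

theorem rd_lone_F0 (k : ℕ) : lone F0 k := fun _ hy => (show k = _ from hy).symm

theorem Dm_F0 (c : ℤ) : Dm (F0, c) = (F0, c + 1) := by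
  unfold Dm
  refine Prod.ext ?_ ?_
  · apply rd_Fr_ext
    · intro x y
      show x + 1 = y + 1 ↔ x = y
      omega
    · intro x
      show (False ∨ x + 1 = 0) ↔ False
      constructor
      · rintro (h | h)
        · exact h
        · omega
      · exact False.elim
    · intro x
      exact Iff.rfl
  · show c + (if lone F0 0 ∧ 0 ∈ F0.B then 1 else 0) = c + 1
    rw [if_pos ⟨rd_lone_F0 0, trivial⟩]

theorem Dm_act_F0 (c : ℤ) : Dm (act 0 (F0, c)) = (F0, c) := by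
  rw [show (0 : ℕ) = 2 * 0 from rfl, rd_even_F0 0 _ rfl]
  unfold Dm
  refine Prod.ext ?_ ?_
  · apply rd_Fr_ext
    · intro x y
      show (x + 1 = y + 1 ∨ (x + 1 ≠ 0 ∧ y + 1 ≠ 0 ∧ x + 1 = y + 1)) ↔ x = y
      omega
    · intro x
      show ((False ∧ _) ∨ (x + 1 = 0 ∨ (x + 1 ≠ 0 ∧ 0 ≠ 0 ∧ _))) ↔ False
      constructor
      · rintro (h | h | ⟨-, h, -⟩)
        · exact h.1
        · omega
        · exact h rfl
      · exact False.elim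
    · intro x
      show (True ∧ x + 1 ≠ 0) ↔ True
      exact ⟨fun _ => trivial, fun _ => ⟨trivial, by omega⟩⟩
  · show c + (if lone (detF 0 F0) 0 ∧ 0 ∈ (detF 0 F0).B then 1 else 0) = c
    rw [if_neg (fun hh => hh.2.2 rfl)]
    ring

end CC
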