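import Pool.Agent.Helper9.CC.Rel
import Pool.Agent.Helper9.CC.RelD

/-! Linear versions of the relations (module LIN). -/

namespace CC

theorem E_single (i : ℕ) (X : Q) (c : ℂ) :
    E i (Finsupp.single X c) = Finsupp.single (act i X) c := by
  unfold E; rw [Finsupp.lmapDomain_apply, Finsupp.mapDomain_single]

theorem D_single (X : Q) (c : ℂ) : D (Finsupp.single X c) = Finsupp.single (Dm X) c := by
  unfold D; rw [Finsupp.lmapDomain_apply, Finsupp.mapDomain_single]

theorem Xi_single (X : Q) (c : ℂ) : Xi (Finsupp.single X c) = Finsupp.single (sh X) c := by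
  unfold Xi; rw [Finsupp.lmapDomain_apply, Finsupp.mapDomain_single]

/-- linear maps which agree on the basis states are equal -/
theorem lin_ext {N : Type*} [AddCommMonoid N] [Module ℂ N] {f g : M →ₗ[ℂ] N}
    (h : ∀ X : Q, f (Finsupp.single X 1) = g (Finsupp.single X 1)) (x : M) : f x = g x := by
  have : f = g := Finsupp.lhom_ext' fun X => LinearMap.ext_ring (h X)
  rw [this]

theorem E_E (i : ℕ) (x : M) : E i (E i x) = E i x :=
  lin_ext (f := E i ∘ₗ E i) (g := E i) (fun X => by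
    simp only [LinearMap.comp_apply, E_single, act_act]) x

theorem E_succ (i : ℕ) (x : M) : E i (E (i + 1) (E i x)) = E i x :=
  lin_ext (f := E i ∘ₗ E (i + 1) ∘ₗ E i) (g := E i) (fun X => by
    simp only [LinearMap.comp_apply, E_single, act_succ]) x

theorem E_pred (i : ℕ) (x : M) : E (i + 1) (E i (E (i + 1) x)) = E (i + 1) x :=
  lin_ext (f := E (i + 1) ∘ₗ E i ∘ₗ E (i + 1)) (g := E (i + 1)) (fun X => by
    simp only [LinearMap.comp_apply, E_single, act_pred]) x

theorem E_comm {i j : ℕ} (h : i + 2 ≤ j) (x : M) : E i (E j x) = E j (E i x) :=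
  lin_ext (f := E i ∘ₗ E j) (g := E j ∘ₗ E i) (fun X => by
    simp only [LinearMap.comp_apply, E_single, act_comm h]) x

theorem D_E (i : ℕ) (x : M) : D (E (i + 2) x) = E i (D x) :=
  lin_ext (f := D ∘ₗ E (i + 2)) (g := E i ∘ₗ D) (fun X => by
    simp only [LinearMap.comp_apply, E_single, D_single, Dm_act]) x

theorem DDE01 (x : M) : D (D (E 0 (E 1 x))) = D (D (E 1 x)) :=
  lin_ext (f := D ∘ₗ D ∘ₗ E 0 ∘ₗ E 1) (g := D ∘ₗ D ∘ₗ E 1) (fun X => by
    simp only [LinearMap.comp_apply, E_single, D_single, DD01]) x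

theorem DDE10 (x : M) : D (D (E 1 (E 0 x))) = D (D (E 0 x)) :=
  lin_ext (f := D ∘ₗ D ∘ₗ E 1 ∘ₗ E 0) (g := D ∘ₗ D ∘ₗ E 0) (fun X => by
    simp only [LinearMap.comp_apply, E_single, D_single, DD10]) x

theorem DDE12 (x : M) : D (D (E 1 (E 2 x))) = D (D (E 2 x)) :=
  lin_ext (f := D ∘ₗ D ∘ₗ E 1 ∘ₗ E 2) (g := D ∘ₗ D ∘ₗ E 2) (fun X => by
    simp only [LinearMap.comp_apply, E_single, D_single, DD12]) x

theorem DDE21 (x : M) : D (D (E 2 (E 1 x))) = D (D (E 1 x)) :=
  lin_ext (f := D ∘ₗ D ∘ₗ E 2 ∘ₗ E 1) (g := D ∘ₗ D ∘ₗ E 1) (fun X => by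
    simp only [LinearMap.comp_apply, E_single, D_single, DD21]) x

theorem Xi_E (i : ℕ) (x : M) : Xi (E i x) = E i (Xi x) :=
  lin_ext (f := Xi ∘ₗ E i) (g := E i ∘ₗ Xi) (fun X => by
    simp only [LinearMap.comp_apply, E_single, Xi_single, act_sh]) x

theorem Xi_D (x : M) : Xi (D x) = D (Xi x) :=
  lin_ext (f := Xi ∘ₗ D) (g := D ∘ₗ Xi) (fun X => by
    simp only [LinearMap.comp_apply, D_single, Xi_single, Dm_sh]) x

theorem tot_single (X : Q) (c : ℂ) : tot (Finsupp.single X c) = c := by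
  unfold tot; simp

theorem cn_single (X : Q) (c : ℂ) : cn (Finsupp.single X c) = X.2 * c := by
  unfold cn; simp

theorem tot_E (i : ℕ) (x : M) : tot (E i x) = tot x :=
  lin_ext (f := tot ∘ₗ E i) (g := tot) (fun X => by
    simp only [LinearMap.comp_apply, E_single, tot_single]) x

theorem tot_D (x : M) : tot (D x) = tot x :=
  lin_ext (f := tot ∘ₗ D) (g := tot) (fun X => by
    simp only [LinearMap.comp_apply, D_single, tot_single]) x

theorem tot_Xi (x : M) : tot (Xi x) = tot x :=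
  lin_ext (f := tot ∘ₗ Xi) (g := tot) (fun X => by
    simp only [LinearMap.comp_apply, Xi_single, tot_single]) x

theorem cn_Xi (x : M) : cn (Xi x) = cn x + tot x :=
  lin_ext (f := cn ∘ₗ Xi) (g := cn + tot) (fun X => by
    simp only [LinearMap.comp_apply, LinearMap.add_apply, Xi_single, tot_single, cn_single, sh]
    push_cast
    ring) x

theorem E_x0 (i : ℕ) : E (i + 1) (E i x0) = E (i + 1) x0 := by
  unfold x0; simp only [E_single, act_F0]

theorem E_x0' (i : ℕ) : E i (E (i + 1) x0) = E i x0 := by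
  unfold x0; simp only [E_single, act_F0']

theorem D_x0 : D x0 = Xi x0 := by
  unfold x0; simp only [D_single, Xi_single, Dm_F0, sh]

theorem DE_x0 : D (E 0 x0) = x0 := by
  unfold x0; simp only [E_single, D_single, Dm_act_F0]

theorem w_sq : w ^ 2 = w - 1 := by
  unfold w
  apply Complex.ext
  · simp [pow_two]
    nlinarith [Real.mul_self_sqrt (show (0:ℝ) ≤ 3 by norm_num)]
  · simp [pow_two]
    ring

theorem w_ne_zero : w ≠ 0 := by
  intro h
  have := w_sq
  rw [h] at this
  norm_num at this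

theorem w_mul : w * (1 - w) = 1 := by linear_combination -w_sq

theorem w_inv : w⁻¹ = 1 - w := inv_eq_of_mul_eq_one_right w_mul

theorem w_cube : w ^ 3 = -1 := by linear_combination (w + 1) * w_sq

theorem R_apply (i : ℕ) (p q : ℂ) (x : M) :
    R i p q x = (w * q - (1 - w) * p) • x + (p - q) • E i x := by
  simp [R]

theorem KL_apply (j : ℕ) (z : ℂ) (x : M) :
    KL j z x = ((1 + w) * z - (2 - w)) • x + (1 - z) • E j x := by
  simp [KL]

theorem KR_apply (j : ℕ) (z : ℂ) (x : M) :
    KR j z x = ((1 + w) - (2 - w) * z) • x + (z - 1) • E j x := by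
  simp [KR]

theorem tot_R (i : ℕ) (p q : ℂ) (x : M) : tot (R i p q x) = (w * p - (1 - w) * q) * tot x := by
  rw [R_apply, map_add, map_smul, map_smul, tot_E]
  simp only [smul_eq_mul]
  ring

theorem tot_KL (j : ℕ) (z : ℂ) (x : M) : tot (KL j z x) = (w * z - (1 - w)) * tot x := by
  rw [KL_apply, map_add, map_smul, map_smul, tot_E]
  simp only [smul_eq_mul]
  ring

theorem tot_KR (j : ℕ) (z : ℂ) (x : M) : tot (KR j z x) = (w - (1 - w) * z) * tot x := by
  rw [KR_apply, map_add, map_smul, map_smul, tot_E]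
  simp only [smul_eq_mul]
  ring

theorem row_succ (o k : ℕ) (p q : ℂ) (x : M) :
    row o p q (k + 1) x = row o p q k (R (o + k) p q x) := rfl

theorem row_zero (o : ℕ) (p q : ℂ) (x : M) : row o p q 0 x = x := rfl

theorem Erow_succ (o k : ℕ) (x : M) : Erow o (k + 1) x = Erow o k (E (o + k) x) := rfl

theorem Erow_zero (o : ℕ) (x : M) : Erow o 0 x = x := rfl

theorem Erow_succ' (o k : ℕ) (x : M) : Erow o (k + 1) x = E o (Erow (o + 1) k x) := by
  induction k generalizing x with
  | zero => rfl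
  | succ k ih =>
    rw [Erow_succ, ih, Erow_succ, show o + (k + 1) = o + 1 + k by ring]

theorem tot_row (o : ℕ) (p q : ℂ) (L : ℕ) (x : M) :
    tot (row o p q L x) = (w * p - (1 - w) * q) ^ L * tot x := by
  induction L generalizing x with
  | zero => simp [row_zero]
  | succ L ih => rw [row_succ, ih, tot_R, pow_succ]; ring

theorem T_apply (L : ℕ) (z : ℂ) (x : M) :
    T L z x = D (KL 0 z (row 1 w z L (row 0 (w * z) 1 L (KR L z x)))) := rfl

theorem tot_T (L : ℕ) (z : ℂ) (x : M) : tot (T L z x) = nT L z * tot x := by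
  rw [T_apply, tot_D, tot_KL, tot_row, tot_row, tot_KR]
  unfold nT
  have h1 : w * w - (1 - w) * z = w ^ 2 * (1 + z) := by linear_combination (-z) * w_sq
  have h2 : w * (w * z) - (1 - w) * 1 = w ^ 2 * (1 + z) := by linear_combination (-1) * w_sq
  rw [h1, h2, two_mul, pow_add]
  ring

theorem Xi_R (i : ℕ) (p q : ℂ) (x : M) : Xi (R i p q x) = R i p q (Xi x) := by
  simp only [R_apply, map_add, map_smul, Xi_E]

theorem Xi_row (o : ℕ) (p q : ℂ) (L : ℕ) (x : M) : Xi (row o p q L x) = row o p q L (Xi x) := by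
  induction L generalizing x with
  | zero => rfl
  | succ L ih => rw [row_succ, ih, Xi_R, row_succ]

theorem Xi_T (L : ℕ) (z : ℂ) (x : M) : Xi (T L z x) = T L z (Xi x) := by
  simp only [T_apply, KL_apply, KR_apply, Xi_D, map_add, map_smul, Xi_E, Xi_row]

end CC
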