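import Pool.Agent.Helper9.CC.Lin

/-! Local identities for the R-matrices and exchange of rows (module RR).
Method: apply `R_apply`, `map_add`, `map_smul`, the TL relations `E_E`, `E_succ`, `E_pred`, `E_comm`
and finish with `match_scalars <;> linear_combination (..) * w_sq`. -/

namespace CC

theorem R_inv (i : ℕ) (p q : ℂ) (x : M) :
    R i p q (R i q p x) = ((w * q - (1 - w) * p) * (w * p - (1 - w) * q)) • x := by
  simp only [R_apply, map_add, map_smul, E_E]
  match_scalars <;> ring

theorem R_comm {i j : ℕ} (h : i + 2 ≤ j) (p q p' q' : ℂ) (x : M) :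
    R i p q (R j p' q' x) = R j p' q' (R i p q x) := by
  simp only [R_apply, map_add, map_smul, E_comm h]
  match_scalars <;> ring

theorem R_E_comm {i j : ℕ} (h : i + 2 ≤ j) (p q : ℂ) (x : M) :
    R i p q (E j x) = E j (R i p q x) := by
  simp only [R_apply, map_add, map_smul, E_comm h]

theorem E_R_comm {i j : ℕ} (h : i + 2 ≤ j) (p q : ℂ) (x : M) :
    E i (R j p q x) = R j p q (E i x) := by
  simp only [R_apply, map_add, map_smul, E_comm h]

theorem D_R (i : ℕ) (p q : ℂ) (x : M) : D (R (i + 2) p q x) = R i p q (D x) := by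
  simp only [R_apply, map_add, map_smul, D_E]

/-- Yang-Baxter -/
theorem ybe (i : ℕ) (p q p' q' : ℂ) (x : M) :
    R i (p' * q) (q' * p) (R (i + 1) p' q' (R i p q x)) =
      R (i + 1) p q (R i p' q' (R (i + 1) (p' * q) (q' * p) x)) := by
  simp only [R_apply, map_add, map_smul, E_E, E_succ, E_pred]
  match_scalars
  · ring
  · linear_combination ((p + q) * (p' + q') * (p' * q - q' * p) +
      (p - q) * (p' + q') * (p' * q + q' * p) - (p' * q + q' * p) * (p' - q') * (p + q)) * w_sq
  · linear_combination ((p + q) * (p' - q') * (p' * q + q' * p) -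
      (q' * p + p' * q) * (p' + q') * (p - q) - (p' * q - q' * p) * (p' + q') * (p + q)) * w_sq
  · ring
  · ring

/-- `E j` commutes with a row which is far below -/
theorem row_E_comm (o k : ℕ) (p q : ℂ) {j : ℕ} (h : o + k + 1 ≤ j) (x : M) :
    row o p q k (E j x) = E j (row o p q k x) := by
  induction k generalizing x with
  | zero => rfl
  | succ k ih =>
    rw [row_succ, row_succ, R_E_comm (by omega), ih (by omega)]

/-- `E i` commutes with a row which is far above -/
theorem E_row_comm (o k : ℕ) (p q : ℂ) {i : ℕ} (h : i + 2 ≤ o) (x : M) :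
    E i (row o p q k x) = row o p q k (E i x) := by
  induction k generalizing x with
  | zero => rfl
  | succ k ih =>
    rw [row_succ, row_succ, ih, E_R_comm (by omega)]

theorem row_R_comm (o k : ℕ) (p q p' q' : ℂ) {j : ℕ} (h : o + k + 1 ≤ j) (x : M) :
    row o p q k (R j p' q' x) = R j p' q' (row o p q k x) := by
  simp only [R_apply, map_add, map_smul, row_E_comm o k p q h]

theorem R_row_comm (o k : ℕ) (p q p' q' : ℂ) {i : ℕ} (h : i + 2 ≤ o) (x : M) :
    R i p' q' (row o p q k x) = row o p q k (R i p' q' x) := by
  simp only [R_apply, map_add, map_smul, E_row_comm o k p q h]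

theorem D_row (o k : ℕ) (p q : ℂ) (x : M) : D (row (o + 2) p q k x) = row o p q k (D x) := by
  induction k generalizing x with
  | zero => rfl
  | succ k ih =>
    rw [row_succ, row_succ, ih, show o + 2 + k = o + k + 2 by ring, D_R]

/-- a product of two neighbouring rows is a product of pairs -/
noncomputable def prow (o : ℕ) (p' q' p q : ℂ) : ℕ → M → M
  | 0 => fun x => x
  | k + 1 => fun x => prow o p' q' p q k (R (o + k + 1) p' q' (R (o + k) p q x))

theorem row_row (o k : ℕ) (p' q' p q : ℂ) (x : M) :
    row (o + 1) p' q' k (row o p q k x) = prow o p' q' p q k x := by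
  induction k generalizing x with
  | zero => rfl
  | succ k ih =>
    rw [row_succ, row_succ]
    change _ = prow o p' q' p q k (R (o + k + 1) p' q' (R (o + k) p q x))
    rw [← ih, row_R_comm o k p q p' q' (by omega), show o + 1 + k = o + k + 1 by ring]

/-- exchange of two neighbouring rows -/
theorem row_exchange (o k : ℕ) (p' q' p q : ℂ) (x : M) :
    R o (p' * q) (q' * p) (row (o + 1) p' q' k (row o p q k x)) =
      row (o + 1) p q k (row o p' q' k (R (o + k) (p' * q) (q' * p) x)) := by
  rw [row_row, row_row]
  induction k generalizing x with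
  | zero => rfl
  | succ k ih =>
    change R o (p' * q) (q' * p) (prow o p' q' p q k (R (o + k + 1) p' q' (R (o + k) p q x))) =
      prow o p q p' q' k (R (o + k + 1) p q (R (o + k) p' q'
        (R (o + (k + 1)) (p' * q) (q' * p) x)))
    rw [ih, ybe, show o + (k + 1) = o + k + 1 by ring]

end CC
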