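import Pool.Agent.Helper9.CC.Defs
import Pool.Agent.Lead.IP.BasicA

/-! Relations between the maps `act i` (module REL).  The statements about the partition are in
`IP/BasicA.lean` (`IP.act_act`, `IP.act_braid`, `IP.act_comm`, `IP.detach_comm`, ...). -/

namespace CC
open Classical

theorem rl_act_even (k : ℕ) (X : Q) : act (2 * k) X =
    (detF k X.1, X.2 + if lone X.1 k ∧ k ∈ X.1.A ∧ k ∈ X.1.B then 1 else 0) := by
  unfold act
  rw [if_pos (by omega), Nat.mul_div_cancel_left k (by norm_num)]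

theorem rl_act_odd (k : ℕ) (X : Q) : act (2 * k + 1) X = (joinF k (k + 1) X.1, X.2) := by
  unfold act
  rw [if_neg (by omega), show (2 * k + 1) / 2 = k by omega]

theorem rl_join_rel (j k : ℕ) (X : Fr) : (joinF j k X).s j k :=
  Or.inr (Or.inl ⟨X.s.refl _, X.s.refl _⟩)

/-- a site which is linked to another site is not alone -/
theorem rl_even_of_rel (k l : ℕ) (X : Q) (h : X.1.s k l) (hkl : l ≠ k) :
    act (2 * k) X = (detF k X.1, X.2) := by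
  rw [rl_act_even, if_neg]
  · simp
  · rintro ⟨h1, -⟩
    exact hkl (h1 _ h)

theorem rl_detF_detF (k : ℕ) (X : Fr) : detF k (detF k X) = detF k X := by
  refine Fr.ext (IP.detach_detach_self k X.s) (Set.ext fun x => ?_) (Set.ext fun x => ?_)
  · show ((x ∈ X.A ∧ x ≠ k) ∧ x ≠ k) ↔ (x ∈ X.A ∧ x ≠ k)
    tauto
  · show ((x ∈ X.B ∧ x ≠ k) ∧ x ≠ k) ↔ (x ∈ X.B ∧ x ≠ k)
    tauto

theorem rl_join_of_rel (j k : ℕ) (X : Fr) (h : X.s j k) : joinF j k X = X := by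
  refine Fr.ext (IP.join_of_rel h) (Set.ext fun x => ?_) (Set.ext fun x => ?_)
  · show (x ∈ X.A ∨ (X.s x j ∧ k ∈ X.A) ∨ (X.s x k ∧ j ∈ X.A)) ↔ x ∈ X.A
    constructor
    · rintro (h1 | ⟨h1, h2⟩ | ⟨h1, h2⟩)
      · exact h1
      · exact X.hA _ _ (X.s.symm (X.s.trans h1 h)) h2
      · exact X.hA _ _ (X.s.symm (X.s.trans h1 (X.s.symm h))) h2
    · exact Or.inl
  · show (x ∈ X.B ∨ (X.s x j ∧ k ∈ X.B) ∨ (X.s x k ∧ j ∈ X.B)) ↔ x ∈ X.B
    constructor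
    · rintro (h1 | ⟨h1, h2⟩ | ⟨h1, h2⟩)
      · exact h1
      · exact X.hB _ _ (X.s.symm (X.s.trans h1 h)) h2
      · exact X.hB _ _ (X.s.symm (X.s.trans h1 (X.s.symm h))) h2
    · exact Or.inl

theorem rl_join_comm (j k : ℕ) (X : Fr) : joinF j k X = joinF k j X := by
  refine Fr.ext (IP.join_comm j k X.s) (Set.ext fun x => ?_) (Set.ext fun x => ?_)
  · show (x ∈ X.A ∨ (X.s x j ∧ k ∈ X.A) ∨ (X.s x k ∧ j ∈ X.A)) ↔
      (x ∈ X.A ∨ (X.s x k ∧ j ∈ X.A) ∨ (X.s x j ∧ k ∈ X.A))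
    tauto
  · show (x ∈ X.B ∨ (X.s x j ∧ k ∈ X.B) ∨ (X.s x k ∧ j ∈ X.B)) ↔
      (x ∈ X.B ∨ (X.s x k ∧ j ∈ X.B) ∨ (X.s x j ∧ k ∈ X.B))
    tauto

/-- detach, join, detach -/
theorem rl_djd (a b : ℕ) (hab : a ≠ b) (X : Fr) :
    detF a (joinF a b (detF a X)) = detF a X := by
  have key : ∀ x, x ≠ a → ¬ (detF a X).s x a := by
    rintro x hx (h | ⟨-, h, -⟩)
    · exact hx h
    · exact h rfl
  refine Fr.ext (IP.detach_join_detach hab X.s) (Set.ext fun x => ?_) (Set.ext fun x => ?_)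
  · constructor
    · rintro ⟨h1 | ⟨h1, -⟩ | ⟨-, -, h1⟩, h2⟩
      · exact h1
      · exact absurd h1 (key x h2)
      · exact absurd rfl h1
    · rintro ⟨h1, h2⟩
      exact ⟨Or.inl ⟨h1, h2⟩, h2⟩
  · constructor
    · rintro ⟨h1 | ⟨h1, -⟩ | ⟨-, -, h1⟩, h2⟩
      · exact h1
      · exact absurd h1 (key x h2)
      · exact absurd rfl h1
    · rintro ⟨h1, h2⟩
      exact ⟨Or.inl ⟨h1, h2⟩, h2⟩

/-- join, detach, join -/
theorem rl_jdj (a b : ℕ) (hab : a ≠ b) (Y : Fr) (h : Y.s a b) :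
    joinF a b (detF a Y) = Y := by
  refine Fr.ext ?_ (Set.ext fun x => ?_) (Set.ext fun x => ?_)
  · have h1 := IP.join_detach_join hab Y.s
    rw [IP.join_of_rel h] at h1
    exact h1
  · constructor
    · rintro (⟨h1, -⟩ | ⟨h1 | ⟨-, h1, -⟩, h2, -⟩ | ⟨-, -, h1⟩)
      · exact h1
      · rw [h1]
        exact Y.hA _ _ (Y.s.symm h) h2
      · exact absurd rfl h1
      · exact absurd rfl h1
    · intro h1
      by_cases hx : x = a
      · refine Or.inr (Or.inl ⟨Or.inl hx, ?_, hab.symm⟩)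
        rw [hx] at h1
        exact Y.hA _ _ h h1
      · exact Or.inl ⟨h1, hx⟩
  · constructor
    · rintro (⟨h1, -⟩ | ⟨h1 | ⟨-, h1, -⟩, h2, -⟩ | ⟨-, -, h1⟩)
      · exact h1
      · rw [h1]
        exact Y.hB _ _ (Y.s.symm h) h2
      · exact absurd rfl h1
      · exact absurd rfl h1
    · intro h1
      by_cases hx : x = a
      · refine Or.inr (Or.inl ⟨Or.inl hx, ?_, hab.symm⟩)
        rw [hx] at h1
        exact Y.hB _ _ h h1
      · exact Or.inl ⟨h1, hx⟩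

theorem rl_detF_comm (a b : ℕ) (X : Fr) : detF a (detF b X) = detF b (detF a X) := by
  refine Fr.ext (IP.detach_comm a b X.s) (Set.ext fun x => ?_) (Set.ext fun x => ?_)
  · show ((x ∈ X.A ∧ x ≠ b) ∧ x ≠ a) ↔ ((x ∈ X.A ∧ x ≠ a) ∧ x ≠ b)
    tauto
  · show ((x ∈ X.B ∧ x ≠ b) ∧ x ≠ a) ↔ ((x ∈ X.B ∧ x ≠ a) ∧ x ≠ b)
    tauto

theorem rl_det_join (c a b : ℕ) (ha : c ≠ a) (hb : c ≠ b) (X : Fr) :
    detF c (joinF a b X) = joinF a b (detF c X) := by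
  have key : ∀ x y, y ≠ c → ((detF c X).s x y ↔ x ≠ c ∧ X.s x y) := by
    intro x y hy
    constructor
    · rintro (rfl | ⟨h1, -, h2⟩)
      · exact ⟨hy, X.s.refl _⟩
      · exact ⟨h1, h2⟩
    · rintro ⟨h1, h2⟩
      exact Or.inr ⟨h1, hy, h2⟩
  refine Fr.ext (IP.detach_join X.s ha hb) (Set.ext fun x => ?_) (Set.ext fun x => ?_)
  · show ((x ∈ X.A ∨ (X.s x a ∧ b ∈ X.A) ∨ (X.s x b ∧ a ∈ X.A)) ∧ x ≠ c) ↔
      ((x ∈ X.A ∧ x ≠ c) ∨ ((detF c X).s x a ∧ (b ∈ X.A ∧ b ≠ c)) ∨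
        ((detF c X).s x b ∧ (a ∈ X.A ∧ a ≠ c)))
    rw [key x a ha.symm, key x b hb.symm]
    have ha' := ha.symm
    have hb' := hb.symm
    tauto
  · show ((x ∈ X.B ∨ (X.s x a ∧ b ∈ X.B) ∨ (X.s x b ∧ a ∈ X.B)) ∧ x ≠ c) ↔
      ((x ∈ X.B ∧ x ≠ c) ∨ ((detF c X).s x a ∧ (b ∈ X.B ∧ b ≠ c)) ∨
        ((detF c X).s x b ∧ (a ∈ X.B ∧ a ≠ c)))
    rw [key x a ha.symm, key x b hb.symm]
    have ha' := ha.symm
    have hb' := hb.symm
    tauto

theorem rl_sat (j k : ℕ) (s : Setoid ℕ) (C : Set ℕ) (hC : ∀ x y, s x y → x ∈ C → y ∈ C) (x : ℕ) :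
    (x ∈ C ∨ (s x j ∧ k ∈ C) ∨ (s x k ∧ j ∈ C)) ↔ ∃ y, IP.join j k s x y ∧ y ∈ C := by
  constructor
  · rintro (h | ⟨h1, h2⟩ | ⟨h1, h2⟩)
    · exact ⟨x, Or.inl (s.refl _), h⟩
    · exact ⟨k, Or.inr (Or.inl ⟨h1, s.refl _⟩), h2⟩
    · exact ⟨j, Or.inr (Or.inr ⟨h1, s.refl _⟩), h2⟩
  · rintro ⟨y, h | ⟨h1, h2⟩ | ⟨h1, h2⟩, hy⟩
    · exact Or.inl (hC _ _ (s.symm h) hy)
    · exact Or.inr (Or.inl ⟨h1, hC _ _ (s.symm h2) hy⟩)
    · exact Or.inr (Or.inr ⟨h1, hC _ _ (s.symm h2) hy⟩)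

theorem rl_joinF_A (j k : ℕ) (X : Fr) (x : ℕ) :
    x ∈ (joinF j k X).A ↔ ∃ y, (joinF j k X).s x y ∧ y ∈ X.A := rl_sat j k X.s X.A X.hA x
theorem rl_joinF_B (j k : ℕ) (X : Fr) (x : ℕ) :
    x ∈ (joinF j k X).B ↔ ∃ y, (joinF j k X).s x y ∧ y ∈ X.B := rl_sat j k X.s X.B X.hB x

theorem rl_joinF2_A (a b c d : ℕ) (X : Fr) (x : ℕ) :
    x ∈ (joinF a b (joinF c d X)).A ↔ ∃ y, (joinF a b (joinF c d X)).s x y ∧ y ∈ X.A := by
  rw [rl_joinF_A]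
  constructor
  · rintro ⟨y, h1, h2⟩
    rw [rl_joinF_A] at h2
    obtain ⟨z, h3, h4⟩ := h2
    exact ⟨z, (joinF a b (joinF c d X)).s.trans h1 (Or.inl h3), h4⟩
  · rintro ⟨y, h1, h2⟩
    exact ⟨y, h1, Or.inl h2⟩
theorem rl_joinF2_B (a b c d : ℕ) (X : Fr) (x : ℕ) :
    x ∈ (joinF a b (joinF c d X)).B ↔ ∃ y, (joinF a b (joinF c d X)).s x y ∧ y ∈ X.B := by
  rw [rl_joinF_B]
  constructor
  · rintro ⟨y, h1, h2⟩
    rw [rl_joinF_B] at h2
    obtain ⟨z, h3, h4⟩ := h2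
    exact ⟨z, (joinF a b (joinF c d X)).s.trans h1 (Or.inl h3), h4⟩
  · rintro ⟨y, h1, h2⟩
    exact ⟨y, h1, Or.inl h2⟩

theorem rl_join_join (a b c d : ℕ) (X : Fr) :
    joinF a b (joinF c d X) = joinF c d (joinF a b X) := by
  have hs : (joinF a b (joinF c d X)).s = (joinF c d (joinF a b X)).s :=
    IP.join_join_comm a b c d X.s
  refine Fr.ext hs (Set.ext fun x => ?_) (Set.ext fun x => ?_)
  · rw [rl_joinF2_A, rl_joinF2_A, hs]
  · rw [rl_joinF2_B, rl_joinF2_B, hs]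

theorem act_act (i : ℕ) (X : Q) : act i (act i X) = act i X := by
  obtain ⟨k, rfl | rfl⟩ := IP.parity i
  · rw [rl_act_even, rl_act_even]
    refine Prod.ext (rl_detF_detF k X.1) ?_
    show X.2 + _ + (if lone (detF k X.1) k ∧ k ∈ (detF k X.1).A ∧ k ∈ (detF k X.1).B
      then 1 else 0) = X.2 + _
    have e : ¬ (lone (detF k X.1) k ∧ k ∈ (detF k X.1).A ∧ k ∈ (detF k X.1).B) :=
      fun h => h.2.1.2 rfl
    rw [if_neg e, add_zero]
  · rw [rl_act_odd, rl_act_odd]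
    exact Prod.ext (rl_join_of_rel _ _ _ (rl_join_rel _ _ _)) rfl

theorem rl_djd_act (k : ℕ) (a b : ℕ) (ha : a = k) (hb : b ≠ k) (X : Q) :
    act (2 * k) (joinF a b (act (2 * k) X).1, (act (2 * k) X).2) = act (2 * k) X := by
  subst ha
  rw [rl_even_of_rel a b _ (rl_join_rel a b _) hb]
  rw [rl_act_even]
  exact Prod.ext (rl_djd a b hb.symm X.1) rfl

theorem act_succ (i : ℕ) (X : Q) : act i (act (i + 1) (act i X)) = act i X := by
  obtain ⟨k, rfl | rfl⟩ := IP.parity i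
  · rw [rl_act_odd]
    exact rl_djd_act k k (k + 1) rfl (by omega) X
  · rw [show 2 * k + 1 + 1 = 2 * (k + 1) by ring, rl_act_odd, rl_act_odd,
      rl_even_of_rel (k + 1) k _ ((joinF k (k + 1) X.1).s.symm (rl_join_rel k (k + 1) X.1))
        (by omega)]
    refine Prod.ext ?_ rfl
    show joinF k (k + 1) (detF (k + 1) (joinF k (k + 1) X.1)) = joinF k (k + 1) X.1
    rw [rl_join_comm k (k + 1) (detF (k + 1) (joinF k (k + 1) X.1))]
    exact rl_jdj (k + 1) k (by omega) _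
      ((joinF k (k + 1) X.1).s.symm (rl_join_rel k (k + 1) X.1))

theorem act_pred (i : ℕ) (X : Q) : act (i + 1) (act i (act (i + 1) X)) = act (i + 1) X := by
  obtain ⟨k, rfl | rfl⟩ := IP.parity i
  · rw [rl_act_odd, rl_act_odd,
      rl_even_of_rel k (k + 1) _ (rl_join_rel k (k + 1) X.1) (by omega)]
    refine Prod.ext ?_ rfl
    exact rl_jdj k (k + 1) (by omega) _ (rl_join_rel k (k + 1) X.1)
  · rw [show 2 * k + 1 + 1 = 2 * (k + 1) by ring, rl_act_odd, rl_join_comm k (k + 1)]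
    exact rl_djd_act (k + 1) (k + 1) k rfl (by omega) X

theorem rl_lone_det (a b : ℕ) (X : Fr) (h : ¬ X.s a b) : lone (detF b X) a ↔ lone X a := by
  constructor
  · intro h1 y hy
    by_cases hyb : y = b
    · rw [hyb] at hy
      exact absurd hy h
    · exact h1 y (Or.inr ⟨fun e => h (by rw [e]), hyb, hy⟩)
  · rintro h1 y (hy | ⟨-, -, hy⟩)
    · exact hy.symm
    · exact h1 y hy

theorem rl_lone_det' (a b : ℕ) (hab : a ≠ b) (X : Fr) (h : X.s a b) (h1 : lone (detF b X) a) :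
    lone (detF a X) b := by
  rintro y (hy | ⟨-, hy1, hy⟩)
  · exact hy.symm
  · by_contra hne
    exact hy1 (h1 y (Or.inr ⟨hab, hne, X.s.trans h hy⟩))

theorem rl_det_comm_counter (a b : ℕ) (hab : a ≠ b) (X : Fr) (c : ℤ) :
    c + (if lone X b ∧ b ∈ X.A ∧ b ∈ X.B then 1 else 0)
      + (if lone (detF b X) a ∧ a ∈ (detF b X).A ∧ a ∈ (detF b X).B then 1 else 0)
    = c + (if lone X a ∧ a ∈ X.A ∧ a ∈ X.B then 1 else 0)
      + (if lone (detF a X) b ∧ b ∈ (detF a X).A ∧ b ∈ (detF a X).B then 1 else 0) := by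
  by_cases h : X.s a b
  · have e1 : ¬ (lone X b ∧ b ∈ X.A ∧ b ∈ X.B) := fun hh => hab (hh.1 a (X.s.symm h))
    have e2 : ¬ (lone X a ∧ a ∈ X.A ∧ a ∈ X.B) := fun hh => hab (hh.1 b h).symm
    have e3 : (lone (detF b X) a ∧ a ∈ (detF b X).A ∧ a ∈ (detF b X).B) ↔
        (lone (detF a X) b ∧ b ∈ (detF a X).A ∧ b ∈ (detF a X).B) := by
      constructor
      · rintro ⟨h1, ⟨h2, -⟩, ⟨h3, -⟩⟩
        exact ⟨rl_lone_det' a b hab X h h1, ⟨X.hA _ _ h h2, hab.symm⟩,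
          ⟨X.hB _ _ h h3, hab.symm⟩⟩
      · rintro ⟨h1, ⟨h2, -⟩, ⟨h3, -⟩⟩
        exact ⟨rl_lone_det' b a hab.symm X (X.s.symm h) h1, ⟨X.hA _ _ (X.s.symm h) h2, hab⟩,
          ⟨X.hB _ _ (X.s.symm h) h3, hab⟩⟩
    rw [if_neg e1, if_neg e2, if_congr e3 rfl rfl]
  · have h' : ¬ X.s b a := fun hh => h (X.s.symm hh)
    have e1 : (lone (detF b X) a ∧ a ∈ (detF b X).A ∧ a ∈ (detF b X).B) ↔
        (lone X a ∧ a ∈ X.A ∧ a ∈ X.B) := by
      rw [rl_lone_det a b X h]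
      constructor
      · rintro ⟨h1, ⟨h2, -⟩, ⟨h3, -⟩⟩
        exact ⟨h1, h2, h3⟩
      · rintro ⟨h1, h2, h3⟩
        exact ⟨h1, ⟨h2, hab⟩, ⟨h3, hab⟩⟩
    have e2 : (lone (detF a X) b ∧ b ∈ (detF a X).A ∧ b ∈ (detF a X).B) ↔
        (lone X b ∧ b ∈ X.A ∧ b ∈ X.B) := by
      rw [rl_lone_det b a X h']
      constructor
      · rintro ⟨h1, ⟨h2, -⟩, ⟨h3, -⟩⟩
        exact ⟨h1, h2, h3⟩
      · rintro ⟨h1, h2, h3⟩
        exact ⟨h1, ⟨h2, hab.symm⟩, ⟨h3, hab.symm⟩⟩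
    rw [if_congr e1 rfl rfl, if_congr e2 rfl rfl]
    ring

theorem rl_det_join_counter (c a b : ℕ) (ha : c ≠ a) (hb : c ≠ b) (X : Fr) :
    (lone (joinF a b X) c ∧ c ∈ (joinF a b X).A ∧ c ∈ (joinF a b X).B) ↔
      (lone X c ∧ c ∈ X.A ∧ c ∈ X.B) := by
  constructor
  · rintro ⟨h1, h2, h3⟩
    have h4 : lone X c := fun y hy => h1 y (Or.inl hy)
    refine ⟨h4, ?_, ?_⟩
    · rcases h2 with h2 | ⟨h2, -⟩ | ⟨h2, -⟩
      · exact h2
      · exact absurd (h4 _ h2).symm ha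
      · exact absurd (h4 _ h2).symm hb
    · rcases h3 with h3 | ⟨h3, -⟩ | ⟨h3, -⟩
      · exact h3
      · exact absurd (h4 _ h3).symm ha
      · exact absurd (h4 _ h3).symm hb
  · rintro ⟨h1, h2, h3⟩
    refine ⟨?_, Or.inl h2, Or.inl h3⟩
    rintro y (hy | ⟨hy, -⟩ | ⟨hy, -⟩)
    · exact h1 y hy
    · exact absurd (h1 _ hy).symm ha
    · exact absurd (h1 _ hy).symm hb

theorem rl_comm_det_join (c a : ℕ) (ha : c ≠ a) (hb : c ≠ a + 1) (X : Q) :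
    act (2 * c) (act (2 * a + 1) X) = act (2 * a + 1) (act (2 * c) X) := by
  rw [rl_act_odd, rl_act_odd, rl_act_even, rl_act_even]
  refine Prod.ext (rl_det_join c a (a + 1) ha hb X.1) ?_
  show X.2 + (if lone (joinF a (a + 1) X.1) c ∧ c ∈ (joinF a (a + 1) X.1).A ∧
      c ∈ (joinF a (a + 1) X.1).B then 1 else 0) =
    X.2 + (if lone X.1 c ∧ c ∈ X.1.A ∧ c ∈ X.1.B then 1 else 0)
  rw [if_congr (rl_det_join_counter c a (a + 1) ha hb X.1) rfl rfl]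

theorem act_comm {i j : ℕ} (h : i + 2 ≤ j) (X : Q) : act i (act j X) = act j (act i X) := by
  obtain ⟨k, rfl | rfl⟩ := IP.parity i <;> obtain ⟨l, rfl | rfl⟩ := IP.parity j
  · rw [rl_act_even, rl_act_even, rl_act_even, rl_act_even]
    exact Prod.ext (rl_detF_comm k l X.1) (rl_det_comm_counter k l (by omega) X.1 X.2)
  · exact rl_comm_det_join k l (by omega) (by omega) X
  · exact (rl_comm_det_join l k (by omega) (by omega) X).symm
  · rw [rl_act_odd, rl_act_odd, rl_act_odd, rl_act_odd]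
    exact Prod.ext (rl_join_join _ _ _ _ X.1) rfl

theorem act_sh (i : ℕ) (X : Q) : act i (sh X) = sh (act i X) := by
  obtain ⟨k, rfl | rfl⟩ := IP.parity i
  · rw [rl_act_even, rl_act_even]
    exact Prod.ext rfl (add_right_comm X.2 1 _)
  · rw [rl_act_odd, rl_act_odd]
    exact Prod.ext rfl rfl

end CC
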