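import Pool.Agent.Helper9.CC.Final

/-!
Critical bond percolation on the square lattice, rectangle `0 ≤ x + y ≤ L`, `0 ≤ x - y ≤ H`
(sides at 45 degrees; in Euclidean units width `L/√2` and length `H/√2`).
`EN L H` is the expected number of open clusters which touch both sides `x + y = 0` and
`x + y = L` (all edges with both end points in the rectangle are open with probability `1/2`).
-/

open Filter Topology

namespace Pool.Agent.Results.MP_35f495_pr.CrossingClusters

/-- The numbers `r_a(L)`: `r_a(L) r_a(L-1) = 9 L² - a²`, `r_1(0) = √3`, `r_2(0) = 2/√3`. -/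
noncomputable abbrev r := CC.r

/-- **The density of the crossing clusters.**  For every width `L ≥ 1` the expected number of the
crossing clusters of the `L × H` rectangle is asymptotically `ρ(L) H`, with the exact value
`ρ(L) = (√3/2) (r_1(L) - r_2(L))`, and `L ρ(L) → √3/4`, the universal constant found by Cardy. -/
theorem result :
    (∀ a L : ℕ, r a (L + 1) = (9 * ((L:ℝ) + 1) ^ 2 - (a:ℝ) ^ 2) / r a L) ∧
    r 1 0 = Real.sqrt 3 ∧ r 2 0 = 2 / Real.sqrt 3 ∧
    (∀ L : ℕ, 1 ≤ L → Tendsto (fun H : ℕ => CC.EN L H / H) atTop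
      (𝓝 (Real.sqrt 3 / 2 * (r 1 L - r 2 L)))) ∧
    Tendsto (fun L : ℕ => L * (Real.sqrt 3 / 2 * (r 1 L - r 2 L))) atTop
      (𝓝 (Real.sqrt 3 / 4)) := by
  obtain ⟨ρ, h1, h2, h3⟩ := CC.main
  refine ⟨fun a L => rfl, ?_, ?_, CC.density, ?_⟩
  · simp [r, CC.r]
  · simp [r, CC.r]
  · simpa only [h2] using h3

end Pool.Agent.Results.MP_35f495_pr.CrossingClusters
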